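import Pool.Agent.LPW.Defs

/-!
# LPW / KRN: the kernel of the families `fu e`, `fv e Q R`

`(R(z) - R(y))/(z - y) = sum_a y^a (divX^(a+1) R)(z)`: for `R = sum_j r_j X^j`,
`(z^j - y^j)/(z-y) = sum_(a<j) y^a z^(j-1-a)`, and `divX^(a+1) R = sum_(j>a) r_j X^(j-1-a)`.
This is best proved by induction on `d`, from `R = X * divX R + C (R.coeff 0)`
(`Polynomial.X_mul_divX_add`, `Polynomial.divX_mul_X_add`):
`R(z) - R(y) = z R1(z) - y R1(y) = (z-y) R1(z) + y (R1(z) - R1(y))`, `R1 = divX R`; iterating,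
`R(z) - R(y) = (z-y) sum_(a<d) y^a R_(a+1)(z) + y^d (R_d(z) - R_d(y))`, `R_a = divX^a R`
(`ker_aux`).  If `R.natDegree ≤ d`, then `R_d` is a constant (`Polynomial.natDegree_divX_eq_natDegree_tsub_one`
or `Polynomial.divX_natDegree...`), so the last term vanishes.  By symmetry also
`R(z) - R(y) = (z-y) sum_(a<d) z^a R_(a+1)(y)` (apply `ker_aux` with `y, z` exchanged).
Hence `(z-y) * sum_a (u_a(y) v_a(z) - v_a(y) u_a(z))`, with `u_a(y) = y^(e+a)`,
`v_a(z) = z^e Q(z) R_(a+1)(z)`, equals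
`(yz)^e (Q(z) (R(z)-R(y)) - Q(y) (R(z)-R(y))) = (yz)^e (Q(z)-Q(y)) (R(z)-R(y))`.
-/

set_option autoImplicit false

open Polynomial Finset

namespace Pool.Agent.LPW

theorem ker_aux (R : ℝ[X]) (d : ℕ) (y z : ℝ) :
    R.eval z - R.eval y = (z - y) * ∑ a ∈ range d, y ^ a * (divX^[a + 1] R).eval z +
      y ^ d * ((divX^[d] R).eval z - (divX^[d] R).eval y) := by
  induction d with
  | zero => simp
  | succ d ih =>
    have h1 : ∀ x : ℝ, (divX^[d] R).eval x =
        (divX^[d + 1] R).eval x * x + (divX^[d] R).coeff 0 := by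
      intro x
      have h2 := congrArg (fun P : ℝ[X] => P.eval x) (divX_mul_X_add (divX^[d] R))
      simp only [eval_add, eval_mul, eval_X, eval_C] at h2
      rw [Function.iterate_succ_apply']
      exact h2.symm
    rw [sum_range_succ, ih, h1 z, h1 y]
    ring

theorem natDegree_divX_iter (R : ℝ[X]) (m : ℕ) : (divX^[m] R).natDegree = R.natDegree - m := by
  induction m with
  | zero => simp
  | succ m ih =>
    rw [Function.iterate_succ_apply', natDegree_divX_eq_natDegree_tsub_one, ih]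
    omega

theorem coeff_divX_iter (R : ℝ[X]) (m j : ℕ) : (divX^[m] R).coeff j = R.coeff (j + m) := by
  induction m generalizing j with
  | zero => simp
  | succ m ih =>
    rw [Function.iterate_succ_apply', coeff_divX, ih]
    congr 1
    omega

theorem ker_identity (e d : ℕ) (Q R : ℝ[X]) (hd : R.natDegree ≤ d) (y z : ℝ) :
    (z - y) * Ker d (fu e) (fv e Q R) y z =
      (y * z) ^ e * (Q.eval z - Q.eval y) * (R.eval z - R.eval y) := by
  have hc : ∀ x x' : ℝ, (divX^[d] R).eval x - (divX^[d] R).eval x' = 0 := by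
    intro x x'
    have h1 : (divX^[d] R).natDegree = 0 := by
      rw [natDegree_divX_iter]
      omega
    rw [eq_C_of_natDegree_eq_zero h1, eval_C, eval_C, sub_self]
  have h1 := ker_aux R d y z
  have h2 := ker_aux R d z y
  rw [hc, mul_zero, add_zero] at h1 h2
  have h3 : Ker d (fu e) (fv e Q R) y z =
      (y * z) ^ e * Q.eval z * ∑ a ∈ range d, y ^ a * (divX^[a + 1] R).eval z -
      (y * z) ^ e * Q.eval y * ∑ a ∈ range d, z ^ a * (divX^[a + 1] R).eval y := by
    unfold Ker
    rw [mul_sum, mul_sum, ← sum_sub_distrib]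
    refine sum_congr rfl fun a _ => ?_
    simp only [fu, fv, eval_mul, eval_pow, eval_X]
    ring
  rw [h3]
  have h4 : (z - y) * ∑ a ∈ range d, z ^ a * (divX^[a + 1] R).eval y = R.eval z - R.eval y := by
    linarith
  calc (z - y) * ((y * z) ^ e * Q.eval z * ∑ a ∈ range d, y ^ a * (divX^[a + 1] R).eval z -
      (y * z) ^ e * Q.eval y * ∑ a ∈ range d, z ^ a * (divX^[a + 1] R).eval y)
      = (y * z) ^ e * Q.eval z * ((z - y) * ∑ a ∈ range d, y ^ a * (divX^[a + 1] R).eval z) -
        (y * z) ^ e * Q.eval y * ((z - y) * ∑ a ∈ range d, z ^ a * (divX^[a + 1] R).eval y) := by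
        ring
    _ = (y * z) ^ e * (Q.eval z - Q.eval y) * (R.eval z - R.eval y) := by
        rw [h4, ← h1]
        ring

end Pool.Agent.LPW
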