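import Pool.Agent.LPW.ALP
import Pool.Agent.LPW.KRN

/-!
# LPW / ALF: the formula for alpha

Notation: `Q = divX^(n-1) F`, `R = divX^(n-1) G`, `w = prod (X - y_s)`, `l_i = Lagrange.basis univ y i`,
`e_i = y_i^(n-1)`, `A_i = - Q(y_i)`, `B_i = - R(y_i)`, `al_ij = alp w k l_i l_j`,
`L_ij = l_i,k l_j,(k+1) - l_i,(k+1) l_j,k`.

1. Let `P = sum_(j<n-1) F_j X^j` (so `F = P + X^(n-1) Q`) and `P' = sum_(j<n-1) G_j X^j`.  Since
   `k ≤ n-2`, `F_j = P_j` for `j ≤ k`; so by `alp_poly` and `alp_congr`
   `F_k G_k - w_(k+1) h_(k-1) = alp w k F G = alp w k P P'` (`w(0) ≠ 0` as `y_i ≠ 0`).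
2. `P(y_i) = F(y_i) - y_i^(n-1) Q(y_i) = e_i A_i`, and `deg P < n`, so
   `P = sum_i C (e_i A_i) * l_i` (`Lagrange.eq_interpolate_of_eval_eq` or
   `Lagrange.eq_interpolate`), similarly `P' = sum_j C (e_j B_j) * l_j`, and
   `X^(n-1) = sum_i C e_i * l_i`.
3. By `alp_sum`: `alp w k P P' = sum_(i,j) al_ij e_i e_j A_i B_j`.  Also, for every `j`,
   `sum_i al_ij e_i = alp w k (X^(n-1)) l_j = 0`, because `alp w k (X^(n-1)) g = 0` for all `g`
   (all coefficients of index `≤ k ≤ n-2` of `X^(n-1)` vanish: `alp_congr` with `f' = 0`).  Hence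
   `sum_(i,j) al_ij e_i e_j (A_i - A_j)(B_i - B_j) = - 2 sum_(i,j) al_ij e_i e_j A_i B_j`
   (expand; the terms `A_i B_i` and `A_j B_j` sum to zero; use `alp_symm`).
4. For `i ≠ j`, `al_ij = y_i y_j / (y_i - y_j) * L_ij` (`alp_basis`) and by `ker_identity` (with `e = n`)
   `(y_j - y_i) Ker d (fu n) (fv n Q R) y_i y_j = (y_i y_j)^n (Q(y_j) - Q(y_i)) (R(y_j) - R(y_i))`; so
   `al_ij e_i e_j (A_i-A_j)(B_i-B_j) = - L_ij * Ker_ij`.  For `i = j` both sides are `0`
   (`L_ii = 0`).  Therefore `alp w k P P' = 1/2 sum_(i,j) L_ij Ker_ij`.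
5. `Ker_ij = sum_a (u_a(y_i) v_a(y_j) - v_a(y_i) u_a(y_j))` and `L_ji = - L_ij`, so
   `1/2 sum_(i,j) L_ij Ker_ij = sum_a sum_(i,j) L_ij u_a(y_i) v_a(y_j)
   = sum_a (lc k u_a * lc (k+1) v_a - lc (k+1) u_a * lc k v_a)`.
-/

set_option autoImplicit false

open Polynomial Finset

namespace Pool.Agent.LPW

private theorem ALF_low (F : ℝ[X]) (m j : ℕ) (hj : j < m) :
    (F - X ^ m * divX^[m] F).coeff j = F.coeff j := by
  rw [coeff_sub, Polynomial.coeff_X_pow_mul', if_neg (by omega), sub_zero]

private theorem ALF_high (F : ℝ[X]) (m j : ℕ) (hj : m ≤ j) :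
    (F - X ^ m * divX^[m] F).coeff j = 0 := by
  rw [coeff_sub, Polynomial.coeff_X_pow_mul', if_pos hj, coeff_divX_iter, Nat.sub_add_cancel hj,
    sub_self]

private theorem ALF_interp {n : ℕ} (hn : 1 ≤ n) (y : Fin n → ℝ) (hy : Function.Injective y)
    (F : ℝ[X]) (hF : ∀ i, F.eval (y i) = 0) :
    F - X ^ (n - 1) * divX^[n - 1] F =
      ∑ i, C (y i ^ (n - 1) * -((divX^[n - 1] F).eval (y i))) * Lagrange.basis univ y i := by
  rw [← Lagrange.interpolate_apply]
  refine Lagrange.eq_interpolate_of_eval_eq _ hy.injOn ?_ ?_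
  · rw [Finset.card_univ, Fintype.card_fin, Polynomial.degree_lt_iff_coeff_zero]
    intro j hj
    exact ALF_high F (n - 1) j (by omega)
  · intro i _
    rw [eval_sub, eval_mul, eval_pow, eval_X, hF i]
    ring

theorem alpha_formula {n k d : ℕ} (hk : 1 ≤ k) (hn : k + 2 ≤ n) (y : Fin n → ℝ)
    (hy : Function.Injective y) (hy0 : ∀ i, y i ≠ 0) {F G h : ℝ[X]}
    (hF : ∀ i, F.eval (y i) = 0) (hG : ∀ i, G.eval (y i) = 0)
    (hh : F * G = (∏ s, (X - C (y s))) * h) (hd : (divX^[n - 1] G).natDegree ≤ d) :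
    ∑ a ∈ range d,
      (lc y k (fu n a) * lc y (k + 1) (fv n (divX^[n - 1] F) (divX^[n - 1] G) a) -
        lc y (k + 1) (fu n a) * lc y k (fv n (divX^[n - 1] F) (divX^[n - 1] G) a)) =
      F.coeff k * G.coeff k - (∏ s, (X - C (y s))).coeff (k + 1) * h.coeff (k - 1) := by
  classical
  set w : ℝ[X] := ∏ s, (X - C (y s)) with hw
  set Q := divX^[n - 1] F with hQ
  set R := divX^[n - 1] G with hR
  set l : Fin n → ℝ[X] := fun i => Lagrange.basis univ y i with hl
  set e : Fin n → ℝ := fun i => y i ^ (n - 1) with he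
  set A : Fin n → ℝ := fun i => -(Q.eval (y i)) with hA
  set B : Fin n → ℝ := fun i => -(R.eval (y i)) with hB
  set al : Fin n → Fin n → ℝ := fun i j => alp w k (l i) (l j) with hal
  set L : Fin n → Fin n → ℝ := fun i j => (l i).coeff k * (l j).coeff (k + 1) -
    (l i).coeff (k + 1) * (l j).coeff k with hL
  have hw0 : w.coeff 0 ≠ 0 := by
    rw [Polynomial.coeff_zero_eq_eval_zero, hw, Polynomial.eval_prod]
    refine Finset.prod_ne_zero_iff.2 fun s _ => ?_
    rw [Polynomial.eval_sub, Polynomial.eval_X, Polynomial.eval_C, zero_sub]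
    exact neg_ne_zero.2 (hy0 s)
  have hals : ∀ i j, al i j = al j i := fun i j => alp_symm w k (l i) (l j)
  -- step 1 and 2
  have hT : F.coeff k * G.coeff k - w.coeff (k + 1) * h.coeff (k - 1) =
      ∑ i, ∑ j, (e i * A i) * (e j * B j) * al i j := by
    rw [← alp_poly k hw0 hh]
    have h1 : alp w k F G = alp w k (F - X ^ (n - 1) * Q) (G - X ^ (n - 1) * R) :=
      alp_congr w (fun j hj => (ALF_low F (n - 1) j (by omega)).symm)
        (fun j hj => (ALF_low G (n - 1) j (by omega)).symm)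
    rw [h1, hQ, ALF_interp (by omega) y hy F hF, hR, ALF_interp (by omega) y hy G hG]
    exact alp_sum w k univ univ (fun i => e i * A i) (fun i => e i * B i) l l
  -- the functional vanishes on `X^(n-1)`
  have hX : (X ^ (n - 1) : ℝ[X]) = ∑ i, C (e i) * l i := by
    have h1 : (X ^ (n - 1) : ℝ[X]) = Lagrange.interpolate univ y e := by
      refine Lagrange.eq_interpolate_of_eval_eq _ hy.injOn ?_ ?_
      · rw [Finset.card_univ, Fintype.card_fin, Polynomial.degree_X_pow]
        exact_mod_cast (by omega : n - 1 < n)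
      · intro i _
        rw [eval_pow, eval_X]
    rw [h1, Lagrange.interpolate_apply]
  have hzero : ∀ j, ∑ i, e i * al i j = 0 := by
    intro j
    have h1 : alp w k (X ^ (n - 1)) (l j) = 0 := by
      have h2 : alp w k (X ^ (n - 1)) (l j) = alp w k 0 (l j) :=
        alp_congr w (fun i hi => by
          rw [Polynomial.coeff_X_pow, if_neg (by omega), Polynomial.coeff_zero]) (fun _ _ => rfl)
      rw [h2]
      unfold alp
      simp
    have h3 := alp_sum w k univ {j} e (fun _ => 1) l l
    rw [← hX] at h3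
    simp only [Finset.sum_singleton, map_one, one_mul, mul_one] at h3
    rw [h1] at h3
    exact h3.symm
  have hzero' : ∀ i, ∑ j, e j * al i j = 0 := by
    intro i
    rw [← hzero i]
    exact Finset.sum_congr rfl fun j _ => by rw [hals i j]
  -- the pointwise relation
  have hpt : ∀ i j, al i j * (e i * e j) * ((A i - A j) * (B i - B j)) =
      -(L i j * Ker d (fu n) (fv n Q R) (y i) (y j)) := by
    intro i j
    by_cases hij : i = j
    · subst hij
      have : L i i = 0 := by simp only [hL]; ring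
      rw [this, sub_self]
      ring
    · have h1 : (y i - y j) * al i j = y i * y j * L i j := alp_basis hk y hy hy0 hij
      have h2 := ker_identity n d Q R hd (y i) (y j)
      have h3 : y i * y j ≠ 0 := mul_ne_zero (hy0 i) (hy0 j)
      have h4 : (y i * y j) ^ n = (y i * y j) * (e i * e j) := by
        simp only [he]
        rw [← mul_pow, ← pow_succ', Nat.sub_add_cancel (by omega)]
      rw [h4] at h2
      apply mul_left_cancel₀ h3
      simp only [hA, hB]
      have h5 : y i * y j * (al i j * (e i * e j) *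
          ((-eval (y i) Q - -eval (y j) Q) * (-eval (y i) R - -eval (y j) R))) =
          al i j * (y i * y j * (e i * e j) * (eval (y j) Q - eval (y i) Q) *
            (eval (y j) R - eval (y i) R)) := by ring
      rw [h5, ← h2]
      have h6 : al i j * ((y j - y i) * Ker d (fu n) (fv n Q R) (y i) (y j)) =
          -(((y i - y j) * al i j) * Ker d (fu n) (fv n Q R) (y i) (y j)) := by ring
      rw [h6, h1]
      ring
  -- summation
  have hS1 : ∑ i, ∑ j, al i j * (e i * e j) * ((A i - A j) * (B i - B j)) =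
      -2 * ∑ i, ∑ j, (e i * A i) * (e j * B j) * al i j := by
    have h1 : ∑ i, ∑ j, al i j * (e i * e j) * ((A i - A j) * (B i - B j)) =
        ∑ i, (e i * A i * B i) * ∑ j, e j * al i j - ∑ i, ∑ j, (e i * A i) * (e j * B j) * al i j -
        ∑ i, ∑ j, (e j * A j) * (e i * B i) * al i j + ∑ i, ∑ j, (e j * A j * B j) * (e i * al i j) := by
      rw [← Finset.sum_sub_distrib, ← Finset.sum_sub_distrib, ← Finset.sum_add_distrib]
      refine Finset.sum_congr rfl fun i _ => ?_
      rw [Finset.mul_sum, ← Finset.sum_sub_distrib, ← Finset.sum_sub_distrib,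
        ← Finset.sum_add_distrib]
      refine Finset.sum_congr rfl fun j _ => ?_
      ring
    have h2 : ∑ i, (e i * A i * B i) * ∑ j, e j * al i j = 0 :=
      Finset.sum_eq_zero fun i _ => by rw [hzero' i, mul_zero]
    have h3 : ∑ i, ∑ j, (e j * A j * B j) * (e i * al i j) = 0 := by
      rw [Finset.sum_comm]
      refine Finset.sum_eq_zero fun j _ => ?_
      rw [← Finset.mul_sum, hzero j, mul_zero]
    have h4 : ∑ i, ∑ j, (e j * A j) * (e i * B i) * al i j =
        ∑ i, ∑ j, (e i * A i) * (e j * B j) * al i j := by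
      rw [Finset.sum_comm]
      refine Finset.sum_congr rfl fun i _ => Finset.sum_congr rfl fun j _ => ?_
      rw [hals j i]
    rw [h1, h2, h3, h4]
    ring
  have hS2 : ∑ i, ∑ j, al i j * (e i * e j) * ((A i - A j) * (B i - B j)) =
      -∑ i, ∑ j, L i j * Ker d (fu n) (fv n Q R) (y i) (y j) := by
    rw [← Finset.sum_neg_distrib]
    refine Finset.sum_congr rfl fun i _ => ?_
    rw [← Finset.sum_neg_distrib]
    exact Finset.sum_congr rfl fun j _ => hpt i j
  -- the kernel sum
  have hLs : ∀ i j, L i j = -L j i := fun i j => by simp only [hL]; ring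
  have hK : ∑ i, ∑ j, L i j * Ker d (fu n) (fv n Q R) (y i) (y j) =
      2 * ∑ a ∈ range d, ∑ i, ∑ j, L i j * ((fu n a).eval (y i) * (fv n Q R a).eval (y j)) := by
    have h1 : ∑ i, ∑ j, L i j * Ker d (fu n) (fv n Q R) (y i) (y j) =
        ∑ a ∈ range d, (∑ i, ∑ j, L i j * ((fu n a).eval (y i) * (fv n Q R a).eval (y j)) -
          ∑ i, ∑ j, L i j * ((fv n Q R a).eval (y i) * (fu n a).eval (y j))) := by
      have h2 : ∀ i j, L i j * Ker d (fu n) (fv n Q R) (y i) (y j) =
          ∑ a ∈ range d, (L i j * ((fu n a).eval (y i) * (fv n Q R a).eval (y j)) -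
            L i j * ((fv n Q R a).eval (y i) * (fu n a).eval (y j))) := by
        intro i j
        unfold Ker
        rw [Finset.mul_sum]
        refine Finset.sum_congr rfl fun a _ => ?_
        ring
      calc ∑ i, ∑ j, L i j * Ker d (fu n) (fv n Q R) (y i) (y j)
          = ∑ i, ∑ j, ∑ a ∈ range d, (L i j * ((fu n a).eval (y i) * (fv n Q R a).eval (y j)) -
            L i j * ((fv n Q R a).eval (y i) * (fu n a).eval (y j))) :=
            Finset.sum_congr rfl fun i _ => Finset.sum_congr rfl fun j _ => h2 i j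
        _ = ∑ i, ∑ a ∈ range d, ∑ j, (L i j * ((fu n a).eval (y i) * (fv n Q R a).eval (y j)) -
            L i j * ((fv n Q R a).eval (y i) * (fu n a).eval (y j))) :=
            Finset.sum_congr rfl fun i _ => Finset.sum_comm
        _ = ∑ a ∈ range d, ∑ i, ∑ j, (L i j * ((fu n a).eval (y i) * (fv n Q R a).eval (y j)) -
            L i j * ((fv n Q R a).eval (y i) * (fu n a).eval (y j))) := Finset.sum_comm
        _ = _ := by
            refine Finset.sum_congr rfl fun a _ => ?_
            rw [← Finset.sum_sub_distrib]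
            refine Finset.sum_congr rfl fun i _ => ?_
            rw [← Finset.sum_sub_distrib]
    rw [h1, Finset.mul_sum]
    refine Finset.sum_congr rfl fun a _ => ?_
    have h3 : ∑ i, ∑ j, L i j * ((fv n Q R a).eval (y i) * (fu n a).eval (y j)) =
        -∑ i, ∑ j, L i j * ((fu n a).eval (y i) * (fv n Q R a).eval (y j)) := by
      rw [Finset.sum_comm, ← Finset.sum_neg_distrib]
      refine Finset.sum_congr rfl fun i _ => ?_
      rw [← Finset.sum_neg_distrib]
      refine Finset.sum_congr rfl fun j _ => ?_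
      rw [hLs j i]
      ring
    rw [h3]
    ring
  have hlc : ∀ a, ∑ i, ∑ j, L i j * ((fu n a).eval (y i) * (fv n Q R a).eval (y j)) =
      lc y k (fu n a) * lc y (k + 1) (fv n Q R a) - lc y (k + 1) (fu n a) * lc y k (fv n Q R a) := by
    intro a
    unfold lc
    rw [Finset.sum_mul_sum, Finset.sum_mul_sum, ← Finset.sum_sub_distrib]
    refine Finset.sum_congr rfl fun i _ => ?_
    rw [← Finset.sum_sub_distrib]
    refine Finset.sum_congr rfl fun j _ => ?_
    simp only [hL]
    ring
  rw [hT]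
  have h5 : ∑ a ∈ range d, (lc y k (fu n a) * lc y (k + 1) (fv n Q R a) -
      lc y (k + 1) (fu n a) * lc y k (fv n Q R a)) =
      ∑ a ∈ range d, ∑ i, ∑ j, L i j * ((fu n a).eval (y i) * (fv n Q R a).eval (y j)) :=
    Finset.sum_congr rfl fun a _ => (hlc a).symm
  rw [h5]
  linarith

end Pool.Agent.LPW
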