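import Pool.Agent.LPW.Defs

/-!
# LPW / ALP: the bilinear form `alp w k f g = f_k g_k - w_(k+1) [f g / w]_(k-1)`

* `alp_poly`: if `f g = w h` and `w(0) ≠ 0` then `f g w^(-1) = h` in `PowerSeries ℝ`
  (`PowerSeries.mul_inv_cancel`, `Polynomial.coe_mul`, `Polynomial.coeff_coe`,
  `Polynomial.constantCoeff_coe`).
* `alp_congr`: `alp` depends only on the coefficients of index `≤ k` of `f` and `g` (for the second
  term: coefficients of index `≤ k - 1`; `PowerSeries.coeff_mul`).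
* bilinearity: obvious.
* `alp_basis`: for `i ≠ j` write `w = prod (X - y_s) = (X - y_i)(X - y_j) q`,
  `q = prod_(s ≠ i,j) (X - y_s)`.  `Lagrange.basis univ y i = C c_i * (X - y_j) q` with
  `c_i = prod_(s ≠ i) (y_i - y_s)^(-1)` (`Lagrange.basis`, `Lagrange.basisDivisor`), and
  `Lagrange.basis univ y j = C c_j * (X - y_i) q`.  Their product is `w * (C (c_i c_j) * q)`, so by
  `alp_poly` `alp = c_i c_j ( ((X-y_j)q)_k ((X-y_i)q)_k - w_(k+1) q_(k-1) )`.  With
  `((X-y_j) q)_k = q_(k-1) - y_j q_k`, `((X-y_i) q)_k = q_(k-1) - y_i q_k`,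
  `w_(k+1) = q_(k-1) - (y_i+y_j) q_k + y_i y_j q_(k+1)` one gets
  `alp = c_i c_j y_i y_j (q_k^2 - q_(k-1) q_(k+1))`, while
  `((X-y_j)q)_k ((X-y_i)q)_(k+1) - ((X-y_j)q)_(k+1) ((X-y_i)q)_k = (y_i - y_j)(q_k^2 - q_(k-1) q_(k+1))`
  (here `k ≥ 1`; write `k = k' + 1`, `Polynomial.coeff_X_sub_C_mul`, then `ring`).
-/

set_option autoImplicit false

open Polynomial Finset

namespace Pool.Agent.LPW

theorem alp_poly {w f g h : ℝ[X]} (k : ℕ) (hw : w.coeff 0 ≠ 0) (hh : f * g = w * h) :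
    alp w k f g = f.coeff k * g.coeff k - w.coeff (k + 1) * h.coeff (k - 1) := by
  unfold alp
  have h1 : (f : PowerSeries ℝ) * (g : PowerSeries ℝ) * (w : PowerSeries ℝ)⁻¹ =
      (h : PowerSeries ℝ) := by
    rw [← Polynomial.coe_mul, hh, Polynomial.coe_mul, mul_comm (w : PowerSeries ℝ), mul_assoc,
      PowerSeries.mul_inv_cancel, mul_one]
    rw [Polynomial.constantCoeff_coe]
    exact hw
  rw [h1, Polynomial.coeff_coe]

private theorem alp_coeff_mul {f f' g g' : PowerSeries ℝ} {k : ℕ}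
    (hf : ∀ j ≤ k, PowerSeries.coeff j f = PowerSeries.coeff j f')
    (hg : ∀ j ≤ k, PowerSeries.coeff j g = PowerSeries.coeff j g') :
    ∀ j ≤ k, PowerSeries.coeff j (f * g) = PowerSeries.coeff j (f' * g') := by
  intro j hj
  rw [PowerSeries.coeff_mul, PowerSeries.coeff_mul]
  refine Finset.sum_congr rfl fun x hx => ?_
  have hx' := Finset.HasAntidiagonal.mem_antidiagonal.1 hx
  rw [hf x.1 (by omega), hg x.2 (by omega)]

theorem alp_congr (w : ℝ[X]) {k : ℕ} {f f' g g' : ℝ[X]} (hf : ∀ j ≤ k, f.coeff j = f'.coeff j)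
    (hg : ∀ j ≤ k, g.coeff j = g'.coeff j) : alp w k f g = alp w k f' g' := by
  unfold alp
  rw [hf k le_rfl, hg k le_rfl]
  congr 2
  refine alp_coeff_mul (k := k) ?_ (fun _ _ => rfl) (k - 1) (by omega)
  exact alp_coeff_mul (fun j hj => by rw [Polynomial.coeff_coe, Polynomial.coeff_coe, hf j hj])
    (fun j hj => by rw [Polynomial.coeff_coe, Polynomial.coeff_coe, hg j hj])

theorem alp_symm (w : ℝ[X]) (k : ℕ) (f g : ℝ[X]) : alp w k f g = alp w k g f := by
  unfold alp
  rw [mul_comm (f.coeff k), mul_comm (f : PowerSeries ℝ)]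

private theorem alp_add_left (w : ℝ[X]) (k : ℕ) (f f' g : ℝ[X]) :
    alp w k (f + f') g = alp w k f g + alp w k f' g := by
  unfold alp
  rw [Polynomial.coe_add, Polynomial.coeff_add, add_mul, add_mul, add_mul, map_add]
  ring

private theorem alp_smul_left (w : ℝ[X]) (k : ℕ) (c : ℝ) (f g : ℝ[X]) :
    alp w k (C c * f) g = c * alp w k f g := by
  unfold alp
  rw [Polynomial.coe_mul, Polynomial.coe_C, Polynomial.coeff_C_mul, mul_assoc (PowerSeries.C c),
    mul_assoc (PowerSeries.C c), PowerSeries.coeff_C_mul]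
  ring

private theorem alp_sum_left {ι : Type*} (w : ℝ[X]) (k : ℕ) (s : Finset ι) (c : ι → ℝ)
    (f : ι → ℝ[X]) (g : ℝ[X]) :
    alp w k (∑ i ∈ s, C (c i) * f i) g = ∑ i ∈ s, c i * alp w k (f i) g := by
  classical
  induction s using Finset.induction_on with
  | empty =>
      rw [Finset.sum_empty, Finset.sum_empty]
      have h := alp_smul_left w k 0 0 g
      rw [mul_zero, zero_mul] at h
      exact h
  | insert a s ha ih =>
      rw [Finset.sum_insert ha, Finset.sum_insert ha, alp_add_left, alp_smul_left, ih]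

theorem alp_sum {ι : Type*} (w : ℝ[X]) (k : ℕ) (s t : Finset ι) (c c' : ι → ℝ)
    (f g : ι → ℝ[X]) :
    alp w k (∑ i ∈ s, C (c i) * f i) (∑ j ∈ t, C (c' j) * g j) =
      ∑ i ∈ s, ∑ j ∈ t, c i * c' j * alp w k (f i) (g j) := by
  rw [alp_sum_left]
  refine Finset.sum_congr rfl fun i _ => ?_
  rw [alp_symm, alp_sum_left, Finset.mul_sum]
  refine Finset.sum_congr rfl fun j _ => ?_
  rw [alp_symm, mul_assoc]

theorem alp_basis {n k : ℕ} (hk : 1 ≤ k) (y : Fin n → ℝ) (hy : Function.Injective y)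
    (hy0 : ∀ i, y i ≠ 0) {i j : Fin n} (hij : i ≠ j) :
    (y i - y j) * alp (∏ s, (X - C (y s))) k (Lagrange.basis univ y i) (Lagrange.basis univ y j) =
      y i * y j * ((Lagrange.basis univ y i).coeff k * (Lagrange.basis univ y j).coeff (k + 1) -
        (Lagrange.basis univ y i).coeff (k + 1) * (Lagrange.basis univ y j).coeff k) := by
  classical
  obtain ⟨k, rfl⟩ : ∃ k', k = k' + 1 := ⟨k - 1, by omega⟩
  set q : ℝ[X] := ∏ s ∈ (univ.erase i).erase j, (X - C (y s)) with hq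
  set w : ℝ[X] := ∏ s, (X - C (y s)) with hw
  have hbas : ∀ a : Fin n, ∃ c : ℝ, Lagrange.basis univ y a =
      C c * ∏ s ∈ univ.erase a, (X - C (y s)) := by
    intro a
    refine ⟨∏ s ∈ univ.erase a, (y a - y s)⁻¹, ?_⟩
    unfold Lagrange.basis Lagrange.basisDivisor
    rw [Finset.prod_mul_distrib, map_prod]
  have hi : ∏ s ∈ univ.erase i, (X - C (y s)) = q * (X - C (y j)) := by
    rw [hq, mul_comm]
    exact (Finset.mul_prod_erase (univ.erase i) (fun s => X - C (y s))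
      (Finset.mem_erase.2 ⟨hij.symm, Finset.mem_univ j⟩)).symm
  have hj : ∏ s ∈ univ.erase j, (X - C (y s)) = q * (X - C (y i)) := by
    rw [hq, mul_comm, Finset.erase_right_comm]
    exact (Finset.mul_prod_erase (univ.erase j) (fun s => X - C (y s))
      (Finset.mem_erase.2 ⟨hij, Finset.mem_univ i⟩)).symm
  have hwq : w = (q * (X - C (y j))) * (X - C (y i)) := by
    rw [← hi, hw, mul_comm]
    exact (Finset.mul_prod_erase univ (fun s => X - C (y s)) (Finset.mem_univ i)).symm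
  obtain ⟨ci, hci⟩ := hbas i
  obtain ⟨cj, hcj⟩ := hbas j
  rw [hi] at hci
  rw [hj] at hcj
  rw [hci, hcj]
  have hw0 : w.coeff 0 ≠ 0 := by
    rw [Polynomial.coeff_zero_eq_eval_zero, hw, Polynomial.eval_prod]
    refine Finset.prod_ne_zero_iff.2 fun s _ => ?_
    rw [Polynomial.eval_sub, Polynomial.eval_X, Polynomial.eval_C, zero_sub]
    exact neg_ne_zero.2 (hy0 s)
  have hmul : (C ci * (q * (X - C (y j)))) * (C cj * (q * (X - C (y i)))) =
      w * (C (ci * cj) * q) := by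
    rw [hwq, C_mul]
    ring
  rw [alp_poly (k + 1) hw0 hmul, hwq]
  simp only [Polynomial.coeff_C_mul, Polynomial.coeff_mul_X_sub_C, Nat.add_sub_cancel]
  ring

end Pool.Agent.LPW
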