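import Pool.Agent.LPW.BAS

/-!
# LPW / AOD: the polynomials `aP n F z i`

`aP n F z i = sum_j binom(j+i,i) F_(n+j) (X-z)^j` with `F_j = tc F j z`; all sums are over
`j < natDegree F + 1`, and `F_(n+j) = 0` as soon as `n + j > natDegree F`.

* `aP_ode`: `(X-z) D (X-z)^j = j (X-z)^j` and
  `(i+1) (binom(j+i+1,i+1) - binom(j+i,i)) = (i+1) binom(j+i,i+1) = j binom(j+i,i)`.
* `aP_taylor`: Taylor's formula at `z`: `F = sum_j F_j (X-z)^j` (`Polynomial.sum_taylor_eq` or
  `Polynomial.taylor` of `taylor`), split at `j = n`.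
* `aP_top`: the `j`-th Taylor coefficient at `z` of `hasseDeriv n F` is `binom(n+j,n) F_(n+j)`
  (`Polynomial.hasseDeriv_comp`), and every polynomial is the sum of its Taylor series at `z`.
* `aP_zero_tc`: follows from the definition: the Taylor coefficients at `z` of `aP n F z i`.
-/

set_option autoImplicit false

open Polynomial Finset

namespace Pool.Agent.LPW

private theorem aod_taylor_X_sub (z : ℝ) : taylor z (X - C z) = X := by
  rw [map_sub, taylor_X, taylor_C, add_sub_cancel_right]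

private theorem aod_taylor_aP (n : ℕ) (F : ℝ[X]) (z : ℝ) (i : ℕ) :
    taylor z (aP n F z i) = ∑ j ∈ range (F.natDegree + 1),
      C (((j + i).choose i : ℝ) * tc F (n + j) z) * X ^ j := by
  unfold aP
  rw [map_sum]
  refine Finset.sum_congr rfl fun j _ => ?_
  rw [taylor_mul, taylor_C, taylor_pow, aod_taylor_X_sub]

private theorem aod_coeff (n : ℕ) (F : ℝ[X]) (z : ℝ) (i j : ℕ) :
    (taylor z (aP n F z i)).coeff j = ((j + i).choose i : ℝ) * tc F (n + j) z := by
  rw [aod_taylor_aP, finsetSum_coeff]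
  simp only [coeff_C_mul, coeff_X_pow, mul_ite, mul_one, mul_zero]
  rw [Finset.sum_ite_eq]
  split_ifs with h
  · rfl
  · rw [mem_range, not_lt] at h
    rw [tc_eq_zero_of_lt F (n + j) z (by omega), mul_zero]

theorem aP_ode (n : ℕ) (F : ℝ[X]) (z : ℝ) (i : ℕ) :
    (X - C z) * derivative (aP n F z i) =
      C ((i : ℝ) + 1) * (aP n F z (i + 1) - aP n F z i) := by
  unfold aP
  rw [derivative_sum, Finset.mul_sum, ← Finset.sum_sub_distrib, Finset.mul_sum]
  refine Finset.sum_congr rfl fun j _ => ?_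
  have h1 : ((i : ℝ) + 1) * (((j + (i + 1)).choose (i + 1) : ℕ) : ℝ) =
      ((j : ℝ) + i + 1) * (((j + i).choose i : ℕ) : ℝ) := by
    have h2 := Nat.add_one_mul_choose_eq (j + i) i
    have h3 : (((j + i).succ * (j + i).choose i : ℕ) : ℝ) =
        (((j + i).succ.choose i.succ * i.succ : ℕ) : ℝ) := by rw [h2]
    push_cast at h3
    have h4 : j + (i + 1) = (j + i).succ := rfl
    rw [h4]
    simp only [Nat.succ_eq_add_one] at h3 ⊢
    linarith
  have h5 : (X - C z) * derivative ((C (((j + i).choose i : ℝ) * tc F (n + j) z)) * (X - C z) ^ j)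
      = C ((j : ℝ) * (((j + i).choose i : ℝ) * tc F (n + j) z)) * (X - C z) ^ j := by
    rw [derivative_C_mul]
    rcases j with _ | j
    · simp
    · rw [derivative_X_sub_C_pow, Nat.add_sub_cancel, pow_succ]
      simp only [C_mul, Nat.cast_add, Nat.cast_one, C_add, C_1, map_natCast]
      ring
  rw [h5]
  have h6 : C ((i : ℝ) + 1) * ((C (((j + (i + 1)).choose (i + 1) : ℝ) * tc F (n + j) z)) *
      (X - C z) ^ j - (C (((j + i).choose i : ℝ) * tc F (n + j) z)) * (X - C z) ^ j) =
      C (((i : ℝ) + 1) * (((j + (i + 1)).choose (i + 1) : ℝ) * tc F (n + j) z -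
        ((j + i).choose i : ℝ) * tc F (n + j) z)) * (X - C z) ^ j := by
    simp only [C_mul, C_sub]
    ring
  rw [h6]
  congr 2
  linear_combination (-(tc F (n + j) z)) * h1

theorem aP_taylor (n : ℕ) (F : ℝ[X]) (z : ℝ) :
    F = (∑ j ∈ range n, C (tc F j z) * (X - C z) ^ j) + (X - C z) ^ n * aP n F z 0 := by
  apply taylor_injective z
  ext m
  rw [map_add, map_sum, taylor_mul, taylor_pow, aod_taylor_X_sub, coeff_add, finsetSum_coeff,
    coeff_X_pow_mul', ← tc_eq_coeff]
  have h1 : ∀ j ∈ range n, (taylor z (C (tc F j z) * (X - C z) ^ j)).coeff m =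
      if m = j then tc F j z else 0 := by
    intro j _
    rw [taylor_mul, taylor_C, taylor_pow, aod_taylor_X_sub, coeff_C_mul, coeff_X_pow]
    split_ifs <;> simp
  rw [Finset.sum_congr rfl h1, Finset.sum_ite_eq, aod_coeff]
  by_cases h : n ≤ m
  · rw [if_neg (by rw [mem_range]; omega), if_pos h, zero_add, Nat.choose_zero_right,
      Nat.add_sub_cancel' h]
    simp
  · rw [if_pos (by rw [mem_range]; omega), if_neg h, add_zero]

theorem aP_top (n : ℕ) (F : ℝ[X]) (z : ℝ) : aP n F z n = hasseDeriv n F := by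
  apply taylor_injective z
  ext j
  rw [aod_coeff, taylor_coeff]
  have h1 := congrArg (fun L => (L F).eval z) (hasseDeriv_comp (R := ℝ) j n)
  simp only [LinearMap.comp_apply, LinearMap.smul_apply] at h1
  rw [h1, eval_smul, nsmul_eq_mul, tc, Nat.choose_symm_add, add_comm n j]

theorem aP_tc (n : ℕ) (F : ℝ[X]) (z : ℝ) (i j : ℕ) :
    tc (aP n F z i) j z = ((j + i).choose i : ℝ) * tc F (n + j) z := by
  rw [tc_eq_coeff, aod_coeff]

end Pool.Agent.LPW
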