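import Pool.Agent.LPW.BAS

/-!
# LPW / CNE: the cone

Proofs.
* `ode_pos`.  Let `(X-z) p' + (i+1) p = (i+1) q` with `q >= 0` on `[A,B]` and `z` in `[A,B]`.
  At `x = z` the equation gives `p(z) = q(z) >= 0`.  For `x > z` put `g(t) = (t-z)^(i+1) p(t)`; then
  `g'(t) = (t-z)^i ((i+1) p + (t-z) p') = (i+1) (t-z)^i q(t) >= 0` on `[z,x]`, `g(z) = 0`, so
  `g(x) >= 0` and `p(x) >= 0`.  For `x < z` put `g(t) = (z-t)^(i+1) p(t)`; then
  `g'(t) = -(i+1) (z-t)^i q(t) <= 0` on `[x,z]` and `g(z) = 0`, so `g(x) >= 0`.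
* `cone_div`.  If `F = (X-xi) F1` and `n = |Y|`, then (`dv_X_sub_C_mul`)
  `(X-xi) F1^(n) + n F1^(n-1) = F^(n)`; apply `ode_pos` with `p = F1^(n-1)`, `q = F^(n)/n`.  The
  zeros: for `y` in `Y.erase xi`, `0 = F(y) = (y-xi) F1(y)`.
* `cone_quot` is the same computation: `x0` in `[A,B]` is any point not in `Y`, `l` in `Y`,
  `w_l = nod (Y.erase l)` has degree `n-1`, so `F - c w_l` has the same `n`-th derivative as `F`.
* `cone_right`, `cone_left`: induction on `|Y|`, using `F = (X-xi) F1` for any `xi` in `Y`, `cone_div`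
  and `F^(q)(x) = (x-xi) F1^(q)(x) + q F1^(q-1)(x)`; for `q = |Y|` use `Cone.pos`; for `q = 0` only
  the first term is present.
* `cone_mul_nonneg`: by induction on `|Y|`: `F G = (x-xi)^2 F1 G1`; for `Y` empty `F, G >= 0`.
* `cone_refl`: the `n`-th derivative of `(-1)^n F(-x)` is `F^(n)(-x)`.
* `exists_h`: `F G` vanishes on `Y` (use `nod_dvd`).
-/

set_option autoImplicit false

open Polynomial Finset

namespace Pool.Agent.LPW

theorem ode_pos {A B z : ℝ} (hz : z ∈ Set.Icc A B) (i : ℕ) (p q : ℝ[X])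
    (h : (X - C z) * derivative p + C ((i : ℝ) + 1) * p = C ((i : ℝ) + 1) * q)
    (hq : ∀ x ∈ Set.Icc A B, 0 ≤ q.eval x) : ∀ x ∈ Set.Icc A B, 0 ≤ p.eval x := by
  intro x hx
  have he : ∀ t : ℝ, (t - z) * (derivative p).eval t + ((i : ℝ) + 1) * p.eval t
      = ((i : ℝ) + 1) * q.eval t := by
    intro t
    have h1 := congrArg (Polynomial.eval t) h
    simpa using h1
  have hi : (0 : ℝ) < (i : ℝ) + 1 := by positivity
  rcases lt_trichotomy x z with hxz | hxz | hxz
  · have hanti : AntitoneOn (fun t => (z - t) ^ (i + 1) * p.eval t) (Set.Icc x z) := by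
      apply antitoneOn_of_deriv_nonpos (convex_Icc x z)
      · exact Continuous.continuousOn (by fun_prop)
      · exact Differentiable.differentiableOn (by fun_prop)
      · intro t ht
        rw [interior_Icc] at ht
        have hd : HasDerivAt (fun t => (z - t) ^ (i + 1) * p.eval t)
            ((((i + 1 : ℕ) : ℝ) * (z - t) ^ (i + 1 - 1) * (-1)) * p.eval t
              + (z - t) ^ (i + 1) * (derivative p).eval t) t := by
          have h1 : HasDerivAt (fun t : ℝ => z - t) (-1) t := by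
            simpa using (hasDerivAt_id t).const_sub z
          exact (h1.pow (i + 1)).mul (p.hasDerivAt t)
        rw [hd.deriv]
        have h2 := he t
        have h3 : (((i + 1 : ℕ) : ℝ) * (z - t) ^ (i + 1 - 1) * (-1)) * p.eval t
              + (z - t) ^ (i + 1) * (derivative p).eval t
            = -(((i : ℝ) + 1) * (z - t) ^ i * q.eval t) := by
          rw [Nat.add_sub_cancel, pow_succ]
          push_cast
          linear_combination (-(z - t) ^ i) * h2
        rw [h3]
        have h4 : 0 ≤ q.eval t :=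
          hq t ⟨hx.1.trans ht.1.le, ht.2.le.trans hz.2⟩
        have h5 : 0 ≤ (z - t) ^ i := pow_nonneg (by linarith [ht.2]) i
        have h6 : 0 ≤ ((i : ℝ) + 1) * (z - t) ^ i * q.eval t :=
          mul_nonneg (mul_nonneg hi.le h5) h4
        linarith
    have h7 := hanti (Set.left_mem_Icc.mpr hxz.le) (Set.right_mem_Icc.mpr hxz.le) hxz.le
    simp only [sub_self, ne_eq, Nat.succ_ne_zero, not_false_eq_true, zero_pow, zero_mul] at h7
    exact (mul_nonneg_iff_of_pos_left (pow_pos (by linarith) (i + 1))).mp h7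
  · subst hxz
    have h1 := he x
    have h2 := hq x hx
    rw [sub_self, zero_mul, zero_add] at h1
    have h3 : p.eval x = q.eval x := mul_left_cancel₀ hi.ne' h1
    rw [h3]; exact h2
  · have hmono : MonotoneOn (fun t => (t - z) ^ (i + 1) * p.eval t) (Set.Icc z x) := by
      apply monotoneOn_of_deriv_nonneg (convex_Icc z x)
      · exact Continuous.continuousOn (by fun_prop)
      · exact Differentiable.differentiableOn (by fun_prop)
      · intro t ht
        rw [interior_Icc] at ht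
        have hd : HasDerivAt (fun t => (t - z) ^ (i + 1) * p.eval t)
            ((((i + 1 : ℕ) : ℝ) * (t - z) ^ (i + 1 - 1) * 1) * p.eval t
              + (t - z) ^ (i + 1) * (derivative p).eval t) t := by
          have h1 : HasDerivAt (fun t : ℝ => t - z) 1 t := by
            simpa using (hasDerivAt_id t).sub_const z
          exact (h1.pow (i + 1)).mul (p.hasDerivAt t)
        rw [hd.deriv]
        have h2 := he t
        have h3 : (((i + 1 : ℕ) : ℝ) * (t - z) ^ (i + 1 - 1) * 1) * p.eval t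
              + (t - z) ^ (i + 1) * (derivative p).eval t
            = ((i : ℝ) + 1) * (t - z) ^ i * q.eval t := by
          rw [Nat.add_sub_cancel, pow_succ]
          push_cast
          linear_combination ((t - z) ^ i) * h2
        rw [h3]
        have h4 : 0 ≤ q.eval t :=
          hq t ⟨hz.1.trans ht.1.le, ht.2.le.trans hx.2⟩
        have h5 : 0 ≤ (t - z) ^ i := pow_nonneg (by linarith [ht.1]) i
        exact mul_nonneg (mul_nonneg hi.le h5) h4
    have h7 := hmono (Set.left_mem_Icc.mpr hxz.le) (Set.right_mem_Icc.mpr hxz.le) hxz.le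
    simp only [sub_self, ne_eq, Nat.succ_ne_zero, not_false_eq_true, zero_pow, zero_mul] at h7
    exact (mul_nonneg_iff_of_pos_left (pow_pos (by linarith) (i + 1))).mp h7

/-- The ode argument for derivatives. -/
private theorem cneAux51 {A B z : ℝ} (hz : z ∈ Set.Icc A B) (m : ℕ) (F1 F : ℝ[X])
    (h : ∀ x, (x - z) * dv F1 (m + 1) x + ((m : ℝ) + 1) * dv F1 m x = dv F (m + 1) x)
    (hpos : ∀ x ∈ Set.Icc A B, 0 ≤ dv F (m + 1) x) : ∀ x ∈ Set.Icc A B, 0 ≤ dv F1 m x := by
  have hm : ((m : ℝ) + 1) ≠ 0 := by positivity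
  refine ode_pos hz m (derivative^[m] F1) (C (((m : ℝ) + 1)⁻¹) * derivative^[m + 1] F) ?_ ?_
  · apply Polynomial.funext
    intro t
    have h1 := h t
    simp only [dv, Function.iterate_succ_apply'] at h1
    simp only [Polynomial.eval_add, Polynomial.eval_mul, Polynomial.eval_sub, Polynomial.eval_X,
      Polynomial.eval_C, Function.iterate_succ_apply']
    rw [h1, mul_inv_cancel_left₀ hm]
  · intro x hx
    rw [Polynomial.eval_mul, Polynomial.eval_C]
    exact mul_nonneg (by positivity) (hpos x hx)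

private theorem cneAuxRefl51 (F : ℝ[X]) (j : ℕ) (x : ℝ) :
    dv (F.comp (-X)) j x = (-1 : ℝ) ^ j * dv F j (-x) := by
  induction j generalizing F with
  | zero => simp [dv]
  | succ j ih =>
    have h1 : derivative (F.comp (-X)) = C (-1) * (derivative F).comp (-X) := by
      rw [Polynomial.derivative_comp, Polynomial.derivative_neg, Polynomial.derivative_X]
      simp
    have h2 : dv (F.comp (-X)) (j + 1) x = dv (derivative (F.comp (-X))) j x := by
      simp only [dv, Function.iterate_succ_apply]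
    have h3 : dv F (j + 1) (-x) = dv (derivative F) j (-x) := by
      simp only [dv, Function.iterate_succ_apply]
    rw [h2, h1, dv_C_mul, ih, h3, pow_succ]
    ring

theorem exists_div {F : ℝ[X]} {ξ : ℝ} (h : F.eval ξ = 0) : ∃ F1 : ℝ[X], F = (X - C ξ) * F1 := by
  obtain ⟨F1, hF1⟩ := Polynomial.dvd_iff_isRoot.mpr h
  exact ⟨F1, hF1⟩

theorem cone_div {A B : ℝ} {Y : Finset ℝ} {F F1 : ℝ[X]} {ξ : ℝ} (hF : Cone A B Y F)
    (hξ : ξ ∈ Y) (hξI : ξ ∈ Set.Icc A B) (h : F = (X - C ξ) * F1) :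
    Cone A B (Y.erase ξ) F1 := by
  have hpos : 0 < Y.card := Finset.card_pos.mpr ⟨ξ, hξ⟩
  obtain ⟨m, hm⟩ : ∃ m, Y.card = m + 1 := ⟨Y.card - 1, by omega⟩
  have hcard : (Y.erase ξ).card = m := by
    rw [Finset.card_erase_of_mem hξ, hm, Nat.add_sub_cancel]
  refine ⟨fun y hy => ?_, fun x hx => ?_⟩
  · have h1 := hF.zero y (Finset.mem_of_mem_erase hy)
    have h2 : y ≠ ξ := Finset.ne_of_mem_erase hy
    rw [h, Polynomial.eval_mul] at h1
    rcases mul_eq_zero.mp h1 with h3 | h3
    · exfalso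
      apply h2
      simp at h3
      linarith
    · exact h3
  · rw [hcard]
    refine cneAux51 hξI m F1 F (fun t => ?_) (fun t ht => ?_) x hx
    · rw [h, dv_X_sub_C_mul]
    · have h1 := hF.pos t ht
      rwa [hm] at h1

/-- The quotient at an arbitrary point `x0` of `[A,B]` outside `Y`. -/
theorem cone_quot {A B : ℝ} {Y : Finset ℝ} {F F1 : ℝ[X]} {l x0 : ℝ} (hF : Cone A B Y F)
    (hl : l ∈ Y) (hx0 : x0 ∈ Set.Icc A B) (hx0Y : x0 ∉ Y)
    (h : (X - C x0) * F1 = F - C (F.eval x0 / (nod (Y.erase l)).eval x0) * nod (Y.erase l)) :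
    Cone A B (Y.erase l) F1 := by
  have hpos : 0 < Y.card := Finset.card_pos.mpr ⟨l, hl⟩
  obtain ⟨m, hm⟩ : ∃ m, Y.card = m + 1 := ⟨Y.card - 1, by omega⟩
  have hcard : (Y.erase l).card = m := by
    rw [Finset.card_erase_of_mem hl, hm, Nat.add_sub_cancel]
  refine ⟨fun y hy => ?_, fun x hx => ?_⟩
  · have h1 := hF.zero y (Finset.mem_of_mem_erase hy)
    have h2 : y ≠ x0 := fun h3 => hx0Y (h3 ▸ Finset.mem_of_mem_erase hy)
    have h4 := congrArg (Polynomial.eval y) h
    rw [Polynomial.eval_mul, Polynomial.eval_sub F, Polynomial.eval_mul, nod_eval_mem hy, h1,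
      mul_zero, sub_zero] at h4
    rcases mul_eq_zero.mp h4 with h3 | h3
    · exfalso
      apply h2
      simp at h3
      linarith
    · exact h3
  · rw [hcard]
    refine cneAux51 hx0 m F1 F (fun t => ?_) (fun t ht => ?_) x hx
    · rw [← dv_X_sub_C_mul, h, dv_sub, dv_C_mul]
      have h5 : dv (nod (Y.erase l)) (m + 1) t = 0 := by
        rw [← tc_dv, tc_eq_zero_of_lt _ _ _ (by rw [nod_natDegree, hcard]; exact Nat.lt_succ_self m),
          mul_zero]
      rw [h5, mul_zero, sub_zero]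
    · have h1 := hF.pos t ht
      rwa [hm] at h1

theorem cone_quot_exists (F : ℝ[X]) {Y : Finset ℝ} {l x0 : ℝ} (hx0Y : x0 ∉ Y) :
    ∃ F1 : ℝ[X], (X - C x0) * F1 =
      F - C (F.eval x0 / (nod (Y.erase l)).eval x0) * nod (Y.erase l) := by
  have h1 : x0 ∉ Y.erase l := fun h => hx0Y (Finset.mem_of_mem_erase h)
  have h2 := nod_eval_ne h1
  have h3 : (F - C (F.eval x0 / (nod (Y.erase l)).eval x0) * nod (Y.erase l)).eval x0 = 0 := by
    rw [Polynomial.eval_sub, Polynomial.eval_mul, Polynomial.eval_C, div_mul_cancel₀ _ h2, sub_self]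
  obtain ⟨F1, hF1⟩ := exists_div h3
  exact ⟨F1, hF1.symm⟩

theorem cone_right {A B : ℝ} {Y : Finset ℝ} {F : ℝ[X]} (hY : ∀ y ∈ Y, y ∈ Set.Icc A B)
    (hF : Cone A B Y F) {x : ℝ} (hx : x ∈ Set.Icc A B) (hxY : ∀ y ∈ Y, y ≤ x) {q : ℕ}
    (hq : q ≤ Y.card) : 0 ≤ dv F q x := by
  obtain ⟨n, hn⟩ : ∃ n, Y.card = n := ⟨_, rfl⟩
  induction n generalizing Y F q with
  | zero =>
    have h1 : q = Y.card := by omega
    rw [h1]
    exact hF.pos x hx
  | succ n ih =>
    rcases Nat.lt_or_ge q Y.card with hlt | hge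
    · obtain ⟨ξ, hξ⟩ : Y.Nonempty := Finset.card_pos.mp (by omega)
      obtain ⟨F1, hF1⟩ := exists_div (hF.zero ξ hξ)
      have hc := cone_div hF hξ (hY ξ hξ) hF1
      have hcard : (Y.erase ξ).card = n := by
        rw [Finset.card_erase_of_mem hξ, hn, Nat.add_sub_cancel]
      have hrec : ∀ r, r ≤ n → 0 ≤ dv F1 r x := fun r hr =>
        ih (fun y hy => hY y (Finset.mem_of_mem_erase hy)) hc
          (fun y hy => hxY y (Finset.mem_of_mem_erase hy)) (by omega) hcard
      have hx1 : 0 ≤ x - ξ := by linarith [hxY ξ hξ]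
      rcases q with _ | q
      · rw [hF1, dv_zero, Polynomial.eval_mul]
        have h2 := hrec 0 (Nat.zero_le _)
        rw [dv_zero] at h2
        refine mul_nonneg ?_ h2
        simpa using hx1
      · rw [hF1, dv_X_sub_C_mul]
        have h2 := hrec (q + 1) (by omega)
        have h3 := hrec q (by omega)
        positivity
    · have h1 : q = Y.card := le_antisymm hq hge
      rw [h1]
      exact hF.pos x hx

theorem cone_left {A B : ℝ} {Y : Finset ℝ} {F : ℝ[X]} (hY : ∀ y ∈ Y, y ∈ Set.Icc A B)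
    (hF : Cone A B Y F) {x : ℝ} (hx : x ∈ Set.Icc A B) (hxY : ∀ y ∈ Y, x ≤ y) {q : ℕ}
    (hq : q ≤ Y.card) : 0 ≤ (-1 : ℝ) ^ (Y.card - q) * dv F q x := by
  obtain ⟨n, hn⟩ : ∃ n, Y.card = n := ⟨_, rfl⟩
  induction n generalizing Y F q with
  | zero =>
    have h1 : q = Y.card := by omega
    rw [h1, Nat.sub_self, pow_zero, one_mul]
    exact hF.pos x hx
  | succ n ih =>
    rcases Nat.lt_or_ge q Y.card with hlt | hge
    · obtain ⟨ξ, hξ⟩ : Y.Nonempty := Finset.card_pos.mp (by omega)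
      obtain ⟨F1, hF1⟩ := exists_div (hF.zero ξ hξ)
      have hc := cone_div hF hξ (hY ξ hξ) hF1
      have hcard : (Y.erase ξ).card = n := by
        rw [Finset.card_erase_of_mem hξ, hn, Nat.add_sub_cancel]
      have hrec : ∀ r, r ≤ n → 0 ≤ (-1 : ℝ) ^ (n - r) * dv F1 r x := fun r hr => by
        have h5 := ih (q := r) (fun y hy => hY y (Finset.mem_of_mem_erase hy)) hc
          (fun y hy => hxY y (Finset.mem_of_mem_erase hy)) (by omega) hcard
        rwa [hcard] at h5
      have hx1 : 0 ≤ ξ - x := by linarith [hxY ξ hξ]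
      rcases q with _ | q
      · rw [hF1, dv_zero, Polynomial.eval_mul, hn, Nat.sub_zero, pow_succ]
        have h2 := hrec 0 (Nat.zero_le _)
        rw [dv_zero, Nat.sub_zero] at h2
        have h4 : (-1 : ℝ) ^ n * -1 * (Polynomial.eval x (X - C ξ) * Polynomial.eval x F1)
            = (ξ - x) * ((-1) ^ n * Polynomial.eval x F1) := by
          rw [Polynomial.eval_sub, Polynomial.eval_X, Polynomial.eval_C]
          ring
        rw [h4]
        exact mul_nonneg hx1 h2
      · rw [hF1, dv_X_sub_C_mul]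
        have h2 := hrec (q + 1) (by omega)
        have h3 := hrec q (by omega)
        obtain ⟨s, hs⟩ : ∃ s, n - (q + 1) = s := ⟨_, rfl⟩
        have h6 : n - q = s + 1 := by omega
        have h7 : Y.card - (q + 1) = s + 1 := by omega
        rw [hs] at h2
        rw [h6] at h3
        rw [h7]
        have h4 : (-1 : ℝ) ^ (s + 1) * ((x - ξ) * dv F1 (q + 1) x + ((q : ℝ) + 1) * dv F1 q x)
            = (ξ - x) * ((-1) ^ s * dv F1 (q + 1) x)
              + ((q : ℝ) + 1) * ((-1) ^ (s + 1) * dv F1 q x) := by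
          rw [pow_succ]; ring
        rw [h4]
        positivity
    · have h1 : q = Y.card := le_antisymm hq hge
      rw [h1, Nat.sub_self, pow_zero, one_mul]
      exact hF.pos x hx

theorem cone_mul_nonneg {A B : ℝ} {Y : Finset ℝ} {F G : ℝ[X]} (hY : ∀ y ∈ Y, y ∈ Set.Icc A B)
    (hF : Cone A B Y F) (hG : Cone A B Y G) {x : ℝ} (hx : x ∈ Set.Icc A B) :
    0 ≤ F.eval x * G.eval x := by
  obtain ⟨n, hn⟩ : ∃ n, Y.card = n := ⟨_, rfl⟩
  induction n generalizing Y F G with
  | zero =>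
    have h1 := hF.pos x hx
    have h2 := hG.pos x hx
    rw [hn, dv_zero] at h1 h2
    exact mul_nonneg h1 h2
  | succ n ih =>
    obtain ⟨ξ, hξ⟩ : Y.Nonempty := Finset.card_pos.mp (by omega)
    obtain ⟨F1, hF1⟩ := exists_div (hF.zero ξ hξ)
    obtain ⟨G1, hG1⟩ := exists_div (hG.zero ξ hξ)
    have hcF := cone_div hF hξ (hY ξ hξ) hF1
    have hcG := cone_div hG hξ (hY ξ hξ) hG1
    have hcard : (Y.erase ξ).card = n := by
      rw [Finset.card_erase_of_mem hξ, hn, Nat.add_sub_cancel]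
    have h1 := ih (fun y hy => hY y (Finset.mem_of_mem_erase hy)) hcF hcG hcard
    have h2 : F.eval x * G.eval x
        = ((X - C ξ : ℝ[X]).eval x) ^ 2 * (F1.eval x * G1.eval x) := by
      rw [hF1, hG1, Polynomial.eval_mul, Polynomial.eval_mul]; ring
    rw [h2]
    positivity

theorem cone_add {A B : ℝ} {Y : Finset ℝ} {F G : ℝ[X]} (hF : Cone A B Y F) (hG : Cone A B Y G) :
    Cone A B Y (F + G) := by
  refine ⟨fun y hy => ?_, fun x hx => ?_⟩
  · rw [Polynomial.eval_add, hF.zero y hy, hG.zero y hy, add_zero]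
  · rw [dv_add]
    exact add_nonneg (hF.pos x hx) (hG.pos x hx)

theorem cone_nod (A B : ℝ) (Y : Finset ℝ) : Cone A B Y (nod Y) := by
  refine ⟨fun y hy => nod_eval_mem hy, fun x _ => ?_⟩
  rw [dv_nod_card]
  positivity

theorem cone_mono {A B A' B' : ℝ} {Y : Finset ℝ} {F : ℝ[X]} (hA : A ≤ A') (hB : B' ≤ B)
    (hF : Cone A B Y F) : Cone A' B' Y F := by
  exact ⟨hF.zero, fun x hx => hF.pos x ⟨hA.trans hx.1, hx.2.trans hB⟩⟩

/-- Translation. -/
theorem cone_taylor {A B : ℝ} {Y : Finset ℝ} {F : ℝ[X]} (c : ℝ) (hF : Cone A B Y F) :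
    Cone (A - c) (B - c) (Y.image (fun y => y - c)) (taylor c F) := by
  have hcard : (Y.image (fun y => y - c)).card = Y.card :=
    Finset.card_image_of_injective _ (fun a b h => by simpa using h)
  refine ⟨fun y hy => ?_, fun x hx => ?_⟩
  · obtain ⟨y', hy', rfl⟩ := Finset.mem_image.mp hy
    rw [Polynomial.taylor_eval, sub_add_cancel]
    exact hF.zero y' hy'
  · rw [hcard, dv_taylor]
    refine hF.pos (x + c) ⟨?_, ?_⟩
    · linarith [hx.1]
    · linarith [hx.2]

/-- Reflection. -/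
theorem cone_refl {A B : ℝ} {Y : Finset ℝ} {F : ℝ[X]} (hF : Cone A B Y F) :
    Cone (-B) (-A) (Y.image (fun y => -y)) (rfl' Y.card F) := by
  have hcard : (Y.image (fun y => -y)).card = Y.card :=
    Finset.card_image_of_injective _ neg_injective
  refine ⟨fun y hy => ?_, fun x hx => ?_⟩
  · obtain ⟨y', hy', rfl⟩ := Finset.mem_image.mp hy
    rw [rfl', Polynomial.eval_mul, Polynomial.eval_comp, Polynomial.eval_neg, Polynomial.eval_X,
      neg_neg, hF.zero y' hy', mul_zero]
  · rw [hcard, rfl', dv_C_mul, cneAuxRefl51, ← mul_assoc, ← pow_add, ← two_mul, pow_mul]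
    norm_num
    exact hF.pos (-x) ⟨by linarith [hx.2], by linarith [hx.1]⟩

theorem tc_refl (n : ℕ) (F : ℝ[X]) (j : ℕ) (x : ℝ) :
    tc (rfl' n F) j x = (-1 : ℝ) ^ (n + j) * tc F j (-x) := by
  have hf : (j.factorial : ℝ) ≠ 0 := by exact_mod_cast j.factorial_ne_zero
  apply mul_left_cancel₀ hf
  rw [tc_dv, rfl', dv_C_mul, cneAuxRefl51, ← tc_dv, pow_add]
  ring

theorem nod_refl (Y : Finset ℝ) : rfl' Y.card (nod Y) = nod (Y.image (fun y => -y)) := by
  apply Polynomial.funext
  intro x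
  rw [rfl', Polynomial.eval_mul, Polynomial.eval_comp, Polynomial.eval_C, Polynomial.eval_neg,
    Polynomial.eval_X, nod_eval, nod_eval, Finset.prod_image (fun a _ b _ h => neg_injective h),
    ← Finset.prod_const, ← Finset.prod_mul_distrib]
  refine Finset.prod_congr rfl fun y _ => ?_
  ring

theorem exists_h {A B : ℝ} {Y : Finset ℝ} {F : ℝ[X]} (G : ℝ[X]) (hF : Cone A B Y F) :
    ∃ h : ℝ[X], F * G = nod Y * h := by
  obtain ⟨c, hc⟩ := nod_dvd hF.zero
  exact ⟨c * G, by rw [← mul_assoc, ← hc]⟩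

end Pool.Agent.LPW
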