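import Pool.Agent.LPW.AOD
import Pool.Agent.LPW.CNE

/-!
# LPW / AOP: positivity of the polynomials `aP n F z i`, `i ≤ n`

If `F^(n) ≥ 0` on `[A,B]` and `z` is in `[A,B]`, then `aP n F z i ≥ 0` on `[A,B]` for all `i ≤ n`:
downward induction on `i` (induction on `n - i`).  For `i = n`: `aP_top` and `n! tc F n x = dv F n x`.
Step: by `aP_ode`, `p = aP n F z i`, `q = aP n F z (i+1)` satisfy
`(X-z) p' + (i+1) p = (i+1) q`; apply `ode_pos`.
-/

set_option autoImplicit false

open Polynomial Finset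

namespace Pool.Agent.LPW

theorem aP_nonneg {A B z : ℝ} {n : ℕ} {F : ℝ[X]} (hz : z ∈ Set.Icc A B)
    (hF : ∀ x ∈ Set.Icc A B, 0 ≤ dv F n x) {i : ℕ} (hi : i ≤ n) :
    ∀ x ∈ Set.Icc A B, 0 ≤ (aP n F z i).eval x := by
  obtain ⟨k, hk⟩ : ∃ k, n = i + k := ⟨n - i, by omega⟩
  clear hi
  induction k generalizing i with
  | zero =>
    intro x hx
    have h0 : i = n := by omega
    subst h0
    rw [aP_top]
    have h1 := hF x hx
    rw [← tc_dv] at h1
    have h2 : (0 : ℝ) < (i.factorial : ℝ) := by positivity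
    exact (mul_nonneg_iff_of_pos_left h2).1 h1
  | succ k ih =>
    have h1 := ih (i := i + 1) (by omega)
    refine ode_pos hz i (aP n F z i) (aP n F z (i + 1)) ?_ h1
    rw [aP_ode]
    ring

end Pool.Agent.LPW
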