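import Pool.Agent.LPW.Defs

/-!
# LPW / APA: approximation of a 1-Lipschitz function by polynomials with derivative at most 1

1. Extend `g` to a 1-Lipschitz function on the real line: `G(x) = g (projIcc (-1) 1 x)`
   (`LipschitzOnWith.extend_real` gives an extension directly).
2. Let `δ = ε/4` (positive) and `G1(x) = (1/δ) int_x^(x+δ) G`.  `G1` is `C^1`,
   `G1'(x) = (G(x+δ) - G(x))/δ`, so `|G1'| ≤ 1`, and `|G1(x) - G(x)| ≤ δ` (average of `G` over
   `[x,x+δ]`).
3. By the Weierstrass theorem (`exists_polynomial_near_of_continuousOn`) there is a polynomial `r0` with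
   `|r0 - G1'| ≤ η` on `[-1,1]`, where `η = ε/8` (we may also assume `ε ≤ 1`).  Then `|r0| ≤ 1 + η`
   and `r = r0/(1+η)` satisfies `|r| ≤ 1` and `|r - G1'| ≤ |r0 - G1'| + η |r0|/(1+η) ≤ 2 η`.
4. Let `q` be a polynomial with `q' = r` and `q(-1) = G1(-1)` (antiderivative of a polynomial: e.g.
   `q = sum_j C (r_j/(j+1)) X^(j+1)` plus a constant).  Then `|q - G1| ≤ 2 * 2 η = ε/2` on `[-1,1]`
   (`Convex.norm_image_sub_le_of_norm_deriv_le` or an integral), so
   `|q - g| ≤ ε/2 + ε/4 ≤ ε`.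
-/

set_option autoImplicit false

open Polynomial Finset MeasureTheory

namespace Pool.Agent.LPW

/-- Antiderivatives of polynomials. -/
theorem exists_antideriv (r : ℝ[X]) (a v : ℝ) : ∃ q : ℝ[X], derivative q = r ∧ q.eval a = v := by
  set q0 : ℝ[X] := ∑ j ∈ range (r.natDegree + 1), C (r.coeff j / ((j : ℝ) + 1)) * X ^ (j + 1)
    with hq0
  have hd : derivative q0 = r := by
    rw [hq0, derivative_sum]
    conv_rhs => rw [r.as_sum_range_C_mul_X_pow]
    refine Finset.sum_congr rfl fun j _ => ?_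
    rw [derivative_C_mul, derivative_X_pow, ← mul_assoc, ← C_mul]
    congr 2
    have : ((j : ℝ) + 1) ≠ 0 := by positivity
    push_cast
    field_simp
  refine ⟨q0 + C (v - q0.eval a), by simp [hd], by simp⟩

theorem lip_approx {g : ℝ → ℝ} (hg : LipschitzOnWith 1 g (Set.Icc (-1) 1)) {ε : ℝ}
    (hε : 0 < ε) :
    ∃ q : ℝ[X], (∀ x ∈ Set.Icc (-1 : ℝ) 1, |(derivative q).eval x| ≤ 1) ∧
      ∀ x ∈ Set.Icc (-1 : ℝ) 1, |q.eval x - g x| ≤ ε := by
  obtain ⟨G, hG, hGg⟩ := hg.extend_real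
  have hGc : Continuous G := hG.continuous
  have hGl : ∀ x y : ℝ, |G x - G y| ≤ |x - y| := fun x y => by
    have := hG.dist_le_mul x y
    rw [Real.dist_eq, Real.dist_eq] at this
    simpa using this
  set δ : ℝ := ε / 4 with hδ
  have hδ0 : 0 < δ := by positivity
  set F : ℝ → ℝ := fun x => ∫ t in (0 : ℝ)..x, G t with hF
  have hFd : ∀ x, HasDerivAt F (G x) x := fun x =>
    (hGc.integral_hasStrictDerivAt 0 x).hasDerivAt
  set G1 : ℝ → ℝ := fun x => (F (x + δ) - F x) / δ with hG1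
  set G1' : ℝ → ℝ := fun x => (G (x + δ) - G x) / δ with hG1'
  have hG1d : ∀ x, HasDerivAt G1 (G1' x) x := fun x => by
    have h1 : HasDerivAt (fun x => F (x + δ)) (G (x + δ)) x := (hFd (x + δ)).comp_add_const x δ
    exact (h1.sub (hFd x)).div_const δ
  have hG1b : ∀ x, |G1' x| ≤ 1 := fun x => by
    have h1 := hGl (x + δ) x
    rw [add_sub_cancel_left, abs_of_pos hδ0] at h1
    simp only [hG1']
    rw [abs_div, abs_of_pos hδ0, div_le_one hδ0]
    exact h1
  have hG1c : Continuous G1' := by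
    simp only [hG1']
    exact ((hGc.comp (continuous_id.add continuous_const)).sub hGc).div_const δ
  have hG1G : ∀ x, |G1 x - G x| ≤ δ := fun x => by
    obtain ⟨c, hc, hcs⟩ := exists_hasDerivAt_eq_slope F G (by linarith : x < x + δ)
      (fun y _ => (hFd y).continuousAt.continuousWithinAt) (fun y _ => hFd y)
    have h1 : G1 x = G c := by
      rw [hcs]
      simp only [hG1]
      congr 1
      ring
    rw [h1]
    refine (hGl c x).trans ?_
    rw [abs_of_pos (by linarith [hc.1])]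
    linarith [hc.2]
  set η : ℝ := ε / 8 with hη
  have hη0 : 0 < η := by positivity
  obtain ⟨r0, hr0⟩ := exists_polynomial_near_of_continuousOn (-1) 1 G1' hG1c.continuousOn η hη0
  set r : ℝ[X] := C (1 / (1 + η)) * r0 with hr
  have hrv : ∀ x, r.eval x = r0.eval x / (1 + η) := fun x => by
    rw [hr, eval_mul, eval_C]
    ring
  have hr0b : ∀ x ∈ Set.Icc (-1 : ℝ) 1, |r0.eval x| ≤ 1 + η := fun x hx => by
    have h1 := (hr0 x hx).le
    have h2 := hG1b x
    calc |r0.eval x| = |(r0.eval x - G1' x) + G1' x| := by ring_nf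
      _ ≤ |r0.eval x - G1' x| + |G1' x| := abs_add_le _ _
      _ ≤ 1 + η := by linarith
  have hrb : ∀ x ∈ Set.Icc (-1 : ℝ) 1, |r.eval x| ≤ 1 := fun x hx => by
    rw [hrv, abs_div, abs_of_pos (by linarith : 0 < 1 + η), div_le_one (by linarith)]
    exact hr0b x hx
  have hrG : ∀ x ∈ Set.Icc (-1 : ℝ) 1, |r.eval x - G1' x| ≤ 2 * η := fun x hx => by
    have h1 := (hr0 x hx).le
    have h3 := hrb x hx
    have h4 : r.eval x - G1' x = (r0.eval x - G1' x) - η * r.eval x := by
      have : r0.eval x = r.eval x * (1 + η) := by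
        rw [hrv, div_mul_cancel₀]
        linarith
      rw [this]
      ring
    rw [h4]
    refine (abs_sub _ _).trans ?_
    rw [abs_mul, abs_of_pos hη0]
    nlinarith
  obtain ⟨q, hq1, hq2⟩ := exists_antideriv r (-1) (G1 (-1))
  refine ⟨q, fun x hx => by rw [hq1]; exact hrb x hx, fun x hx => ?_⟩
  have hqG : |q.eval x - G1 x| ≤ 4 * η := by
    have hd : ∀ y ∈ Set.Icc (-1 : ℝ) 1, HasDerivWithinAt (fun y => q.eval y - G1 y)
        (r.eval y - G1' y) (Set.Icc (-1 : ℝ) 1) y := fun y _ => by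
      have h1 := q.hasDerivAt y
      rw [hq1] at h1
      exact (h1.sub (hG1d y)).hasDerivWithinAt
    have h1 := (convex_Icc (-1 : ℝ) 1).norm_image_sub_le_of_norm_hasDerivWithin_le (C := 2 * η) hd
      (fun y hy => by rw [Real.norm_eq_abs]; exact hrG y hy)
      (Set.left_mem_Icc.2 (by norm_num : (-1 : ℝ) ≤ 1)) hx
    simp only [Real.norm_eq_abs] at h1
    rw [hq2, sub_self, sub_zero] at h1
    refine h1.trans ?_
    rw [abs_of_nonneg (by linarith [hx.1])]
    nlinarith [hx.2]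
  have hG := hG1G x
  rw [hGg hx]
  calc |q.eval x - G x| = |(q.eval x - G1 x) + (G1 x - G x)| := by ring_nf
    _ ≤ |q.eval x - G1 x| + |G1 x - G x| := abs_add_le _ _
    _ ≤ 4 * η + δ := add_le_add hqG hG
    _ ≤ ε := by rw [hη, hδ]; linarith

end Pool.Agent.LPW
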