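import Pool.Agent.LPW.APA

/-!
# LPW / APB: lifting the approximation of `f^(N)` to an approximation of `f`

Induction on `N`, for all `f`.  `N = 0`: `P = q`.  `N + 1`: `deriv f` is `C^N` and
`iteratedDeriv N (deriv f) = iteratedDeriv (N+1) f` (`iteratedDeriv_succ'`); the induction hypothesis
gives `P1` with `D^N P1 = q` and `|dv P1 j x - iteratedDeriv (j+1) f x| ≤ 2^(N-j) ε`.  Let `P' = P1`,
`P(-1) = f(-1)` (`exists_antideriv`).  Then `dv P (j+1) = dv P1 j`, and for `j = 0`:
`P - f` vanishes at `-1` and its derivative `P1 - f'` is at most `2^N ε` in absolute value on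
`[-1,1]`, so `|P(x) - f(x)| ≤ 2^N ε * 2` (mean value inequality).
-/

set_option autoImplicit false

open Polynomial Finset MeasureTheory

namespace Pool.Agent.LPW

theorem lift_approx (N : ℕ) : ∀ (f : ℝ → ℝ), ContDiff ℝ (N : WithTop ℕ∞) f → ∀ (q : ℝ[X]) (ε : ℝ),
    (∀ x ∈ Set.Icc (-1 : ℝ) 1, |q.eval x - iteratedDeriv N f x| ≤ ε) →
    ∃ P : ℝ[X], derivative^[N] P = q ∧ ∀ j ≤ N, ∀ x ∈ Set.Icc (-1 : ℝ) 1,
      |dv P j x - iteratedDeriv j f x| ≤ 2 ^ (N - j) * ε := by
  induction N with
  | zero =>
    intro f _ q ε hq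
    refine ⟨q, rfl, ?_⟩
    intro j hj x hx
    obtain rfl : j = 0 := by omega
    have h := hq x hx
    simpa [dv] using h
  | succ N ih =>
    intro f hf q ε hq
    have hf' : ContDiff ℝ (N : WithTop ℕ∞) (deriv f) := by
      have h := (contDiff_succ_iff_deriv (n := (N : WithTop ℕ∞)) (f := f)).1 (by exact_mod_cast hf)
      exact h.2.2
    have hdf : Differentiable ℝ f := hf.differentiable (by
      intro h
      have : N + 1 = 0 := by exact_mod_cast h
      omega)
    obtain ⟨P1, hP1, hb⟩ := ih (deriv f) hf' q ε (by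
      intro x hx
      rw [← iteratedDeriv_succ']
      exact hq x hx)
    obtain ⟨P, hP, hPv⟩ := exists_antideriv P1 (-1) (f (-1))
    refine ⟨P, ?_, ?_⟩
    · rw [Function.iterate_succ_apply, hP]
      exact hP1
    · intro j hj x hx
      rcases j with _ | j
      · have hB : ∀ y ∈ Set.Icc (-1 : ℝ) 1, |P1.eval y - deriv f y| ≤ 2 ^ N * ε := by
          intro y hy
          have h := hb 0 (Nat.zero_le _) y hy
          simpa [dv] using h
        have hderiv : ∀ y ∈ Set.Icc (-1 : ℝ) 1,
            HasDerivWithinAt (fun z => P.eval z - f z) (P1.eval y - deriv f y) (Set.Icc (-1) 1) y := by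
          intro y _
          have h1 : HasDerivAt (fun z => P.eval z) ((derivative P).eval y) y := P.hasDerivAt y
          rw [hP] at h1
          exact (h1.sub (hdf y).hasDerivAt).hasDerivWithinAt
        have hmv := (convex_Icc (-1 : ℝ) 1).norm_image_sub_le_of_norm_hasDerivWithin_le
          (f := fun z => P.eval z - f z) (f' := fun y => P1.eval y - deriv f y) (C := 2 ^ N * ε)
          hderiv (fun y hy => by rw [Real.norm_eq_abs]; exact hB y hy)
          (show (-1 : ℝ) ∈ Set.Icc (-1 : ℝ) 1 by constructor <;> norm_num) hx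
        have h0 : P.eval (-1) - f (-1) = 0 := by rw [hPv, sub_self]
        have hC : 0 ≤ 2 ^ N * ε := le_trans (abs_nonneg _) (hB x hx)
        have hx2 : ‖x - -1‖ ≤ 2 := by
          rw [Real.norm_eq_abs, abs_le]
          constructor <;> linarith [hx.1, hx.2]
        have hfin : |P.eval x - f x| ≤ 2 ^ N * ε * 2 := by
          calc |P.eval x - f x| = ‖(P.eval x - f x) - (P.eval (-1) - f (-1))‖ := by
                rw [h0, sub_zero, Real.norm_eq_abs]
            _ ≤ 2 ^ N * ε * ‖x - -1‖ := hmv
            _ ≤ 2 ^ N * ε * 2 := mul_le_mul_of_nonneg_left hx2 hC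
        have h2 : (2 : ℝ) ^ (N + 1 - 0) * ε = 2 ^ N * ε * 2 := by
          rw [Nat.sub_zero, pow_succ]
          ring
        rw [h2, iteratedDeriv_zero]
        simpa [dv] using hfin
      · have h := hb j (by omega) x hx
        have h1 : dv P (j + 1) x = dv P1 j x := by
          simp only [dv]
          rw [Function.iterate_succ_apply, hP]
        have h2 : iteratedDeriv (j + 1) f x = iteratedDeriv j (deriv f) x := by
          rw [iteratedDeriv_succ']
        have h3 : N + 1 - (j + 1) = N - j := by omega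
        rw [h1, h2, h3]
        exact h

end Pool.Agent.LPW
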