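import Pool.Agent.LPW.Defs

/-!
# LPW / BAS: elementary facts on `tc`, `dv`, `nod`

Everything here is routine algebra with `hasseDeriv`, `taylor` and `derivative^[j]`.
Useful facts: `Polynomial.factorial_smul_hasseDeriv : k! • hasseDeriv k = derivative^[k]` (as linear
maps), `Polynomial.taylor_coeff : (taylor r f).coeff n = (hasseDeriv n f).eval r`,
`Polynomial.taylor_mul`, `Polynomial.coeff_mul`, `Polynomial.hasseDeriv_zero`,
`Polynomial.iterate_derivative_sub/add/C_mul`, `Polynomial.taylor_taylor`.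
For the products with `X - C c`: `taylor x (X - C c) = X + C (x - c)` and `coeff_X_mul`.
`dv_X_sub_C_mul` follows from `tc_X_sub_C_mul_succ` and `tc_dv` (multiply by `(j+1)!`).
`taylor_nod`: `taylor c (X - C y) = X - C (y - c)`, `taylor` is a ring homomorphism, and
`y ↦ y - c` is injective (`Finset.prod_image`).
-/

set_option autoImplicit false

open Polynomial Finset

namespace Pool.Agent.LPW

theorem tc_eq_coeff (F : ℝ[X]) (j : ℕ) (x : ℝ) : tc F j x = (taylor x F).coeff j := by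
  rw [tc, Polynomial.taylor_coeff]

theorem tc_dv (F : ℝ[X]) (j : ℕ) (x : ℝ) : (j.factorial : ℝ) * tc F j x = dv F j x := by
  have h := congrArg (fun L => L F) (Polynomial.factorial_smul_hasseDeriv (R := ℝ) j)
  have h2 : (j.factorial) • (hasseDeriv j F) = derivative^[j] F := h
  rw [tc, dv, ← h2, eval_smul, nsmul_eq_mul]

theorem tc_zero (F : ℝ[X]) (x : ℝ) : tc F 0 x = F.eval x := by
  rw [tc, Polynomial.hasseDeriv_zero]
  rfl

theorem dv_zero (F : ℝ[X]) (x : ℝ) : dv F 0 x = F.eval x := by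
  rfl

/-- At the point `0` the Taylor coefficients are the coefficients. -/
theorem tc_at_zero (F : ℝ[X]) (j : ℕ) : tc F j 0 = F.coeff j := by
  rw [tc_eq_coeff, Polynomial.taylor_zero]

theorem tc_add (F G : ℝ[X]) (j : ℕ) (x : ℝ) : tc (F + G) j x = tc F j x + tc G j x := by
  rw [tc, tc, tc, map_add, eval_add]

theorem tc_sub (F G : ℝ[X]) (j : ℕ) (x : ℝ) : tc (F - G) j x = tc F j x - tc G j x := by
  rw [tc, tc, tc, map_sub, eval_sub]

theorem tc_C_mul (a : ℝ) (F : ℝ[X]) (j : ℕ) (x : ℝ) : tc (C a * F) j x = a * tc F j x := by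
  rw [tc, tc, ← smul_eq_C_mul, map_smul, eval_smul, smul_eq_mul]

theorem tc_sum {ι : Type*} (s : Finset ι) (F : ι → ℝ[X]) (j : ℕ) (x : ℝ) :
    tc (∑ a ∈ s, F a) j x = ∑ a ∈ s, tc (F a) j x := by
  simp only [tc, map_sum, eval_finsetSum]

theorem dv_add (F G : ℝ[X]) (j : ℕ) (x : ℝ) : dv (F + G) j x = dv F j x + dv G j x := by
  rw [dv, dv, dv, iterate_map_add, eval_add]

theorem dv_sub (F G : ℝ[X]) (j : ℕ) (x : ℝ) : dv (F - G) j x = dv F j x - dv G j x := by
  rw [dv, dv, dv, iterate_derivative_sub, eval_sub]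

theorem dv_C_mul (a : ℝ) (F : ℝ[X]) (j : ℕ) (x : ℝ) : dv (C a * F) j x = a * dv F j x := by
  rw [dv, dv, iterate_derivative_C_mul, eval_mul, eval_C]

theorem tc_mul (F G : ℝ[X]) (n : ℕ) (x : ℝ) :
    tc (F * G) n x = ∑ ij ∈ antidiagonal n, tc F ij.1 x * tc G ij.2 x := by
  simp only [tc_eq_coeff, taylor_mul, coeff_mul]

theorem tc_X_sub_C_mul_zero (F : ℝ[X]) (c x : ℝ) :
    tc ((X - C c) * F) 0 x = (x - c) * tc F 0 x := by
  rw [tc_zero, tc_zero, eval_mul, eval_sub, eval_X, eval_C]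

theorem tc_X_sub_C_mul_succ (F : ℝ[X]) (c x : ℝ) (j : ℕ) :
    tc ((X - C c) * F) (j + 1) x = (x - c) * tc F (j + 1) x + tc F j x := by
  rw [tc_eq_coeff, tc_eq_coeff, tc_eq_coeff, taylor_mul]
  have h : taylor x (X - C c) = X + C (x - c) := by
    rw [map_sub, taylor_X, taylor_C, C_sub]
    ring
  rw [h, add_mul, coeff_add, coeff_X_mul, coeff_C_mul]
  ring

/-- Multiplication by `X - x` shifts the Taylor coefficients at `x`. -/
theorem tc_shift (F : ℝ[X]) (x : ℝ) (j : ℕ) : tc ((X - C x) * F) (j + 1) x = tc F j x := by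
  rw [tc_X_sub_C_mul_succ, sub_self, zero_mul, zero_add]

theorem tc_pow_shift (F : ℝ[X]) (x : ℝ) (m j : ℕ) :
    tc ((X - C x) ^ m * F) (j + m) x = tc F j x := by
  induction m with
  | zero => rw [pow_zero, one_mul, add_zero]
  | succ m ih =>
    rw [pow_succ', mul_assoc, ← add_assoc, tc_shift, ih]

theorem dv_X_sub_C_mul (F : ℝ[X]) (c x : ℝ) (j : ℕ) :
    dv ((X - C c) * F) (j + 1) x = (x - c) * dv F (j + 1) x + ((j : ℝ) + 1) * dv F j x := by
  rw [← tc_dv, ← tc_dv, ← tc_dv, tc_X_sub_C_mul_succ, Nat.factorial_succ]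
  push_cast
  ring

theorem hasDerivAt_dv (F : ℝ[X]) (j : ℕ) (x : ℝ) :
    HasDerivAt (fun t => dv F j t) (dv F (j + 1) x) x := by
  unfold dv
  rw [Function.iterate_succ_apply']
  exact Polynomial.hasDerivAt _ x

theorem hasDerivAt_tc (F : ℝ[X]) (j : ℕ) (x : ℝ) :
    HasDerivAt (fun t => tc F j t) (((j : ℝ) + 1) * tc F (j + 1) x) x := by
  have h := (hasDerivAt_dv F j x).div_const (j.factorial : ℝ)
  have hj : (j.factorial : ℝ) ≠ 0 := by positivity
  have e1 : (fun t => tc F j t) = fun t => dv F j t / (j.factorial : ℝ) := by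
    funext t
    rw [← tc_dv]
    field_simp
  have e2 : ((j : ℝ) + 1) * tc F (j + 1) x = dv F (j + 1) x / (j.factorial : ℝ) := by
    rw [← tc_dv, Nat.factorial_succ]
    push_cast
    field_simp
  rw [e1, e2]
  exact h

theorem continuous_dv (F : ℝ[X]) (j : ℕ) : Continuous (fun t => dv F j t) := by
  unfold dv
  exact Polynomial.continuous _

theorem continuous_tc (F : ℝ[X]) (j : ℕ) : Continuous (fun t => tc F j t) := by
  unfold tc
  exact Polynomial.continuous _

theorem tc_eq_zero_of_lt (F : ℝ[X]) (j : ℕ) (x : ℝ) (h : F.natDegree < j) : tc F j x = 0 := by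
  rw [tc_eq_coeff]
  apply coeff_eq_zero_of_natDegree_lt
  rw [natDegree_taylor]
  exact h

theorem tc_taylor (F : ℝ[X]) (c x : ℝ) (j : ℕ) : tc (taylor c F) j x = tc F j (x + c) := by
  rw [tc_eq_coeff, tc_eq_coeff, taylor_taylor]

theorem dv_taylor (F : ℝ[X]) (c x : ℝ) (j : ℕ) : dv (taylor c F) j x = dv F j (x + c) := by
  rw [← tc_dv, ← tc_dv, tc_taylor]

theorem nod_monic (Y : Finset ℝ) : (nod Y).Monic := by
  exact monic_prod_of_monic _ _ (fun y _ => monic_X_sub_C y)

theorem nod_natDegree (Y : Finset ℝ) : (nod Y).natDegree = Y.card := by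
  rw [nod, natDegree_prod_of_monic _ _ (fun y _ => monic_X_sub_C y)]
  simp

theorem nod_eval (Y : Finset ℝ) (x : ℝ) : (nod Y).eval x = ∏ y ∈ Y, (x - y) := by
  rw [nod, eval_prod]
  simp

theorem nod_eval_mem {Y : Finset ℝ} {y : ℝ} (hy : y ∈ Y) : (nod Y).eval y = 0 := by
  rw [nod_eval]
  exact Finset.prod_eq_zero hy (sub_self y)

theorem nod_eval_ne {Y : Finset ℝ} {x : ℝ} (hx : x ∉ Y) : (nod Y).eval x ≠ 0 := by
  rw [nod_eval]
  refine Finset.prod_ne_zero_iff.2 (fun y hy h => hx ?_)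
  rw [sub_eq_zero.1 h]
  exact hy

theorem nod_erase {Y : Finset ℝ} {y : ℝ} (hy : y ∈ Y) :
    nod Y = (X - C y) * nod (Y.erase y) := by
  rw [nod, nod, Finset.mul_prod_erase Y (fun y => X - C y) hy]

theorem nod_dvd {Y : Finset ℝ} {F : ℝ[X]} (hF : ∀ y ∈ Y, F.eval y = 0) : nod Y ∣ F := by
  refine Finset.prod_dvd_of_coprime ?_ (fun y hy => dvd_iff_isRoot.2 (hF y hy))
  intro a _ b _ hab
  exact pairwise_coprime_X_sub_C Function.injective_id hab

theorem tc_nod_card (Y : Finset ℝ) (x : ℝ) : tc (nod Y) Y.card x = 1 := by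
  rw [tc_eq_coeff]
  have h1 : (taylor x (nod Y)).Monic := by
    rw [Monic, leadingCoeff_taylor]
    exact nod_monic Y
  have h2 : (taylor x (nod Y)).natDegree = Y.card := by
    rw [natDegree_taylor, nod_natDegree]
  rw [← h2]
  exact h1

theorem dv_nod_card (Y : Finset ℝ) (x : ℝ) : dv (nod Y) Y.card x = (Y.card.factorial : ℝ) := by
  rw [← tc_dv, tc_nod_card, mul_one]

theorem taylor_nod (Y : Finset ℝ) (c : ℝ) : taylor c (nod Y) = nod (Y.image (fun y => y - c)) := by
  rw [nod, nod, Finset.prod_image (fun a _ b _ h => sub_left_injective h)]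
  have h1 : ∀ s : Finset ℝ, taylor c (∏ y ∈ s, (X - C y)) = ∏ y ∈ s, (X - C (y - c)) := by
    intro s
    induction s using Finset.induction_on with
    | empty => simp
    | insert a s ha ih =>
      rw [Finset.prod_insert ha, Finset.prod_insert ha, taylor_mul, ih, map_sub, taylor_X,
        taylor_C, C_sub]
      ring
  exact h1 Y

/-- `sum_l w_l = w'`, where `w_l = w/(X-l)`. -/
theorem sum_nod_erase (Y : Finset ℝ) : ∑ l ∈ Y, nod (Y.erase l) = derivative (nod Y) := by
  rw [nod, derivative_prod_finset]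
  refine Finset.sum_congr rfl (fun l hl => ?_)
  rw [derivative_X_sub_C, mul_one]
  rfl

/-- `tc (F') j = (j+1) tc F (j+1)`. -/
theorem tc_derivative (F : ℝ[X]) (j : ℕ) (x : ℝ) :
    tc (derivative F) j x = ((j : ℝ) + 1) * tc F (j + 1) x := by
  have hj : (j.factorial : ℝ) ≠ 0 := by positivity
  have h1 : (j.factorial : ℝ) * tc (derivative F) j x = dv F (j + 1) x := by
    rw [tc_dv, dv, dv, Function.iterate_succ_apply]
  apply mul_left_cancel₀ hj
  rw [h1, ← tc_dv, Nat.factorial_succ]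
  push_cast
  ring

end Pool.Agent.LPW
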