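import Pool.Agent.LPW.APB
import Pool.Agent.LPW.BAS

/-!
# LPW / APC: approximation with exact zeros at the nodes

Let `n = |Y| ≥ 1`, `N = n - 1`.  Let `M ≥ 0` be a bound for `|dv (Lagrange.basis Y id y) j x|` for all `y` in
`Y`, `j ≤ N`, `x` in `[-1,1]` (continuous functions on a compact set, finitely many).  Choose `δ > 0` with
`2^N δ (1 + n M) ≤ ε`.  By `lip_approx` and `lift_approx` there is `P0` with
`|dv P0 n x| ≤ 1` on `[-1,1]` (as `D^N P0 = q`, `D^n P0 = q'`) and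
`|dv P0 j x - iteratedDeriv j f x| ≤ 2^N δ` for `j ≤ N`.  Let
`L = sum_(y in Y) C (P0(y)) * Lagrange.basis Y id y` (`Lagrange.interpolate`), a polynomial of degree `< n`
with `L(y) = P0(y)` on `Y`, and `P = P0 - L`.  `|P0(y)| = |P0(y) - f(y)| ≤ 2^N δ`, so
`|dv L j x| ≤ n M 2^N δ`; `D^n L = 0`.
-/

set_option autoImplicit false

open Polynomial Finset MeasureTheory

namespace Pool.Agent.LPW

private theorem APC_dv_sum {ι : Type*} (s : Finset ι) (F : ι → ℝ[X]) (j : ℕ) (x : ℝ) :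
    dv (∑ a ∈ s, F a) j x = ∑ a ∈ s, dv (F a) j x := by
  unfold dv
  rw [iterate_derivative_sum, eval_finset_sum]

theorem approx_nodes {n : ℕ} (hn : 1 ≤ n) {Y : Finset ℝ} (hYn : Y.card = n)
    (hY : ∀ y ∈ Y, y ∈ Set.Icc (-1 : ℝ) 1) {f : ℝ → ℝ}
    (hf : ContDiff ℝ ((n - 1 : ℕ) : WithTop ℕ∞) f)
    (hL : LipschitzOnWith 1 (iteratedDeriv (n - 1) f) (Set.Icc (-1 : ℝ) 1))
    (hz : ∀ y ∈ Y, f y = 0) {ε : ℝ} (hε : 0 < ε) :
    ∃ P : ℝ[X], (∀ y ∈ Y, P.eval y = 0) ∧ (∀ x ∈ Set.Icc (-1 : ℝ) 1, |dv P n x| ≤ 1) ∧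
      ∀ j ≤ n - 1, ∀ x ∈ Set.Icc (-1 : ℝ) 1, |dv P j x - iteratedDeriv j f x| ≤ ε := by
  obtain ⟨N, rfl⟩ : ∃ N, n = N + 1 := ⟨n - 1, by omega⟩
  rw [Nat.add_sub_cancel] at hf hL ⊢
  have hb : ∀ (y : ℝ) (j : ℕ), ∃ K : ℝ, ∀ x ∈ Set.Icc (-1 : ℝ) 1,
      |dv (Lagrange.basis Y id y) j x| ≤ K := by
    intro y j
    obtain ⟨K, hK⟩ := isCompact_Icc.exists_bound_of_continuousOn
      (continuous_dv (Lagrange.basis Y id y) j).continuousOn (s := Set.Icc (-1 : ℝ) 1)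
    exact ⟨K, hK⟩
  choose K hK using hb
  set M : ℝ := ∑ y ∈ Y, ∑ j ∈ range (N + 1), |K y j| with hM
  have hM0 : 0 ≤ M := sum_nonneg fun y _ => sum_nonneg fun j _ => abs_nonneg _
  have hKM : ∀ y ∈ Y, ∀ j ≤ N, ∀ x ∈ Set.Icc (-1 : ℝ) 1,
      |dv (Lagrange.basis Y id y) j x| ≤ M := by
    intro y hy j hj x hx
    refine (hK y j x hx).trans ((le_abs_self _).trans ?_)
    refine le_trans ?_ (single_le_sum (f := fun y => ∑ j ∈ range (N + 1), |K y j|)
      (fun y _ => sum_nonneg fun j _ => abs_nonneg _) hy)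
    exact single_le_sum (f := fun j => |K y j|) (fun j _ => abs_nonneg _)
      (mem_range.mpr (by omega))
  have hD : 0 < (2 : ℝ) ^ N * (1 + ((N : ℝ) + 1) * M) := by positivity
  set δ : ℝ := ε / ((2 : ℝ) ^ N * (1 + ((N : ℝ) + 1) * M)) with hδ
  have hδ0 : 0 < δ := div_pos hε hD
  have hδe : (2 : ℝ) ^ N * δ * (1 + ((N : ℝ) + 1) * M) = ε := by
    rw [hδ]
    field_simp
  obtain ⟨q, hq1, hq2⟩ := lip_approx hL hδ0
  obtain ⟨P0, hP0, hP1⟩ := lift_approx N f hf q δ hq2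
  have hP0y : ∀ y ∈ Y, |P0.eval y| ≤ 2 ^ N * δ := by
    intro y hy
    have h1 := hP1 0 (Nat.zero_le _) y (hY y hy)
    rw [dv_zero, iteratedDeriv_zero, hz y hy, sub_zero, Nat.sub_zero] at h1
    exact h1
  have hinj : Set.InjOn (id : ℝ → ℝ) (Y : Set ℝ) := Function.injective_id.injOn
  set L : ℝ[X] := Lagrange.interpolate Y id (fun y => P0.eval y) with hLdef
  have hLe : ∀ y ∈ Y, L.eval y = P0.eval y := fun y hy =>
    Lagrange.eval_interpolate_at_node (fun y => P0.eval y) hinj hy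
  have hLn : ∀ x, dv L (N + 1) x = 0 := by
    intro x
    have h1 : L.degree < (Y.card : WithBot ℕ) :=
      Lagrange.degree_interpolate_lt (fun y => P0.eval y) hinj
    have h2 : L.natDegree < N + 1 := by
      rw [← hYn]
      by_cases hL0 : L = 0
      · rw [hL0, natDegree_zero, hYn]
        omega
      · exact (natDegree_lt_iff_degree_lt hL0).mpr h1
    unfold dv
    rw [iterate_derivative_eq_zero h2, eval_zero]
  have hLj : ∀ j ≤ N, ∀ x ∈ Set.Icc (-1 : ℝ) 1,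
      |dv L j x| ≤ ((N : ℝ) + 1) * (2 ^ N * δ * M) := by
    intro j hj x hx
    rw [hLdef, Lagrange.interpolate_apply, APC_dv_sum]
    refine (abs_sum_le_sum_abs _ _).trans ?_
    have h1 : ∀ y ∈ Y, |dv (C (P0.eval y) * Lagrange.basis Y id y) j x| ≤ 2 ^ N * δ * M := by
      intro y hy
      rw [dv_C_mul, abs_mul]
      exact mul_le_mul (hP0y y hy) (hKM y hy j hj x hx) (abs_nonneg _) (by positivity)
    refine (sum_le_card_nsmul _ _ _ h1).trans ?_
    rw [hYn, nsmul_eq_mul]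
    push_cast
    exact le_refl _
  refine ⟨P0 - L, fun y hy => ?_, fun x hx => ?_, fun j hj x hx => ?_⟩
  · rw [eval_sub, hLe y hy, sub_self]
  · rw [dv_sub, hLn, sub_zero]
    have h1 : dv P0 (N + 1) x = (derivative q).eval x := by
      unfold dv
      rw [Function.iterate_succ_apply', hP0]
    rw [h1]
    exact hq1 x hx
  · rw [dv_sub]
    have h1 := hP1 j hj x hx
    have h2 := hLj j hj x hx
    have h3 : (2 : ℝ) ^ (N - j) * δ ≤ 2 ^ N * δ := by
      refine mul_le_mul_of_nonneg_right ?_ hδ0.le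
      exact pow_le_pow_right₀ (by norm_num) (Nat.sub_le _ _)
    have h4 : dv P0 j x - dv L j x - iteratedDeriv j f x =
        (dv P0 j x - iteratedDeriv j f x) - dv L j x := by ring
    rw [h4]
    have h5 := abs_sub (dv P0 j x - iteratedDeriv j f x) (dv L j x)
    have h6 : (2 : ℝ) ^ N * δ * (1 + ((N : ℝ) + 1) * M) =
        2 ^ N * δ + ((N : ℝ) + 1) * (2 ^ N * δ * M) := by ring
    linarith

end Pool.Agent.LPW
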