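import Pool.Agent.LPW.BAS

/-!
# LPW / APD: passage to the limit

Take `P_m` for `ε = 1/(m+1)`.  Then `|dv P_m k x|^p → |g x|^p` for every `x` in `[-1,1]`, and
`|dv P_m k x| ≤ |g x| + 1` is bounded on `[-1,1]`, so the integrals converge
(`intervalIntegral.tendsto_integral_filter_of_dominated_convergence`), and the limit is `≤ I`
(`le_of_tendsto'`).
-/

set_option autoImplicit false

open Polynomial Finset MeasureTheory

namespace Pool.Agent.LPW

theorem limit_ineq {k : ℕ} {g : ℝ → ℝ} (hg : Continuous g) {p I : ℝ} (hp : 0 < p)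
    (H : ∀ ε > 0, ∃ P : ℝ[X], (∀ x ∈ Set.Icc (-1 : ℝ) 1, |dv P k x - g x| ≤ ε) ∧
      ∫ x in (-1 : ℝ)..1, |dv P k x| ^ p ≤ I) :
    ∫ x in (-1 : ℝ)..1, |g x| ^ p ≤ I := by
  have hpos : ∀ m : ℕ, (0 : ℝ) < 1 / ((m : ℝ) + 1) := fun m => by positivity
  choose P hP1 hP2 using fun m : ℕ => H (1 / ((m : ℝ) + 1)) (hpos m)
  have hsub : Set.uIoc (-1 : ℝ) 1 ⊆ Set.Icc (-1 : ℝ) 1 := by
    rw [Set.uIoc_of_le (by norm_num)]
    exact Set.Ioc_subset_Icc_self
  have hcont : ∀ m, Continuous fun x => |dv (P m) k x| ^ p := by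
    intro m
    have h1 : Continuous fun x => dv (P m) k x := by
      unfold dv
      exact Polynomial.continuous _
    exact h1.abs.rpow_const fun x => Or.inr hp.le
  have hlim : Filter.Tendsto (fun m : ℕ => ∫ x in (-1 : ℝ)..1, |dv (P m) k x| ^ p) Filter.atTop
      (nhds (∫ x in (-1 : ℝ)..1, |g x| ^ p)) := by
    refine intervalIntegral.tendsto_integral_filter_of_dominated_convergence
      (fun x => (|g x| + 1) ^ p) ?_ ?_ ?_ ?_
    · exact Filter.Eventually.of_forall fun m => (hcont m).aestronglyMeasurable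
    · refine Filter.Eventually.of_forall fun m => Filter.Eventually.of_forall fun x hx => ?_
      have h1 := hP1 m x (hsub hx)
      have h2 : (1 : ℝ) / ((m : ℝ) + 1) ≤ 1 := by
        rw [div_le_one (by positivity)]
        have : (0 : ℝ) ≤ m := Nat.cast_nonneg m
        linarith
      have h3 : |dv (P m) k x| ≤ |g x| + 1 := by
        have h4 : |dv (P m) k x| ≤ |dv (P m) k x - g x| + |g x| := by
          have := abs_add_le (dv (P m) k x - g x) (g x)
          rwa [sub_add_cancel] at this
        linarith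
      rw [Real.norm_of_nonneg (Real.rpow_nonneg (abs_nonneg _) _)]
      exact Real.rpow_le_rpow (abs_nonneg _) h3 hp.le
    · have h1 : Continuous fun x => (|g x| + 1) ^ p :=
        (hg.abs.add continuous_const).rpow_const fun x => Or.inr hp.le
      exact h1.intervalIntegrable _ _
    · refine Filter.Eventually.of_forall fun x hx => ?_
      have h1 : Filter.Tendsto (fun m : ℕ => dv (P m) k x) Filter.atTop (nhds (g x)) := by
        rw [tendsto_iff_dist_tendsto_zero]
        refine squeeze_zero (fun _ => dist_nonneg) (fun m => ?_)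
          tendsto_one_div_add_atTop_nhds_zero_nat
        rw [Real.dist_eq]
        exact hP1 m x (hsub hx)
      exact (h1.abs).rpow_const (Or.inr hp.le)
  exact le_of_tendsto' hlim hP2

end Pool.Agent.LPW
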