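import Pool.Agent.LPW.Defs

/-!
# LPW / DNS: an inequality between continuous functions off a finite set

`[A,B]` minus a finite set is dense in `[A,B]` if `A < B`: every `x` in `[A,B]` is a limit of points of
`(A,B)` not in `Y` (e.g. `Set.Finite.countable` / `Dense.diff_finset`, or: the set
`{x | f x ≤ g x}` is closed and contains `Ioo A B \ Y`, whose closure contains `Icc A B`;
`Set.Countable.dense_compl`, `IsOpen.closure_inter...`, or use `𝓝[>] x`/`𝓝[<] x` filters:
`Y` finite implies that eventually in `𝓝[≠] x` the point is not in `Y`).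
-/

set_option autoImplicit false

open Polynomial Finset

namespace Pool.Agent.LPW

theorem le_of_off_finset {A B : ℝ} (hAB : A < B) (Y : Finset ℝ) (f g : ℝ → ℝ)
    (hf : Continuous f) (hg : Continuous g)
    (h : ∀ x ∈ Set.Icc A B, x ∉ Y → f x ≤ g x) : ∀ x ∈ Set.Icc A B, f x ≤ g x := by
  have hd : Dense ((Y : Set ℝ)ᶜ) := (Finset.finite_toSet Y).countable.dense_compl ℝ
  have hcl : IsClosed {x : ℝ | f x ≤ g x} := isClosed_le hf hg
  have hsub : Set.Ioo A B ∩ ((Y : Set ℝ)ᶜ) ⊆ {x : ℝ | f x ≤ g x} := by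
    rintro x ⟨hx, hxY⟩
    exact h x (Set.Ioo_subset_Icc_self hx) (by simpa using hxY)
  have h1 : Set.Ioo A B ⊆ closure (Set.Ioo A B ∩ ((Y : Set ℝ)ᶜ)) :=
    hd.open_subset_closure_inter isOpen_Ioo
  have h2 : Set.Icc A B ⊆ closure (Set.Ioo A B ∩ ((Y : Set ℝ)ᶜ)) := by
    rw [← closure_Ioo hAB.ne]
    exact closure_minimal h1 isClosed_closure
  intro x hx
  exact (closure_minimal hsub hcl) (h2 hx)

theorem lt_of_two_le_card {A B : ℝ} {Y : Finset ℝ} (hY : ∀ y ∈ Y, y ∈ Set.Icc A B)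
    (h2 : 2 ≤ Y.card) : A < B := by
  obtain ⟨a, ha, b, hb, hab⟩ := Finset.one_lt_card.mp (by omega : 1 < Y.card)
  have h3 := hY a ha
  have h4 := hY b hb
  rcases lt_or_gt_of_ne hab with h | h
  · exact lt_of_le_of_lt h3.1 (lt_of_lt_of_le h h4.2)
  · exact lt_of_le_of_lt h4.1 (lt_of_lt_of_le h h3.2)

end Pool.Agent.LPW
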