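import Pool.Agent.LPW.AZ
import Pool.Agent.LPW.DNS

/-!
# LPW / AT: the inequality alpha at every point of `[A,B]`

* `k = 0`: `tc ((X-x) h) 0 x = 0` (`tc_X_sub_C_mul_zero`), so the claim is `0 ≤ F(x) G(x)`:
  `cone_mul_nonneg`.
* `k = k'+1`: `tc ((X-x) h) (k'+1) x = tc h k' x` (`tc_shift`).  If `x` is not in `Y`: apply `alpha_zero`
  to `taylor x F`, `taylor x G`, `taylor x h`, `Y.image (· - x)` on `[A-x, B-x]` (`cone_taylor`,
  `taylor_nod`, `taylor_mul`, `tc_eq_coeff`, the cardinality of the image by a translation is the same).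
  If `x` is in `Y`: by continuity (`le_of_off_finset`, `continuous_tc`, both sides are continuous
  functions of `x`: state the inequality as
  `tc (nod Y) (k'+2) x * tc h k' x ≤ tc F (k'+1) x * tc G (k'+1) x`), `A < B` by `lt_of_two_le_card`.
-/

set_option autoImplicit false

open Polynomial Finset

namespace Pool.Agent.LPW

theorem alpha_nonneg {A B : ℝ} {Y : Finset ℝ} {F G h : ℝ[X]} (k : ℕ)
    (hY : ∀ y ∈ Y, y ∈ Set.Icc A B) (hF : Cone A B Y F) (hG : Cone A B Y G)
    (hh : F * G = nod Y * h) (hn : k + 2 ≤ Y.card) {x : ℝ} (hx : x ∈ Set.Icc A B) :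
    tc (nod Y) (k + 1) x * tc ((X - C x) * h) k x ≤ tc F k x * tc G k x := by
  rcases k with _ | k
  · rw [tc_X_sub_C_mul_zero, sub_self, zero_mul, mul_zero, tc_zero, tc_zero]
    exact cone_mul_nonneg hY hF hG hx
  · rw [tc_shift]
    have hAB : A < B := lt_of_two_le_card hY (by omega)
    have key : ∀ z ∈ Set.Icc A B, z ∉ Y →
        tc (nod Y) (k + 1 + 1) z * tc h k z ≤ tc F (k + 1) z * tc G (k + 1) z := by
      intro z hz hzY
      have hinj : Function.Injective fun y : ℝ => y - z := fun a b hab => by
        simpa using hab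
      have hh' : taylor z F * taylor z G = nod (Y.image fun y => y - z) * taylor z h := by
        rw [← taylor_nod, ← taylor_mul, hh, taylor_mul]
      have hcard : (Y.image fun y : ℝ => y - z).card = Y.card :=
        Finset.card_image_of_injective Y hinj
      have h1 := alpha_zero (A := A - z) (B := B - z) (Y := Y.image fun y => y - z)
        (F := taylor z F) (G := taylor z G) (h := taylor z h) (k := k + 1)
        (by
          intro y hy
          obtain ⟨w, hw, rfl⟩ := Finset.mem_image.1 hy
          have := hY w hw
          exact ⟨by linarith [this.1], by linarith [this.2]⟩)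
        ⟨by linarith [hz.1], by linarith [hz.2]⟩
        (by
          intro h0
          obtain ⟨w, hw, hw0⟩ := Finset.mem_image.1 h0
          have : w = z := by linarith
          exact hzY (this ▸ hw))
        (cone_taylor z hF) (cone_taylor z hG) hh' (by omega) (by rw [hcard]; omega)
      rw [← taylor_nod, Nat.add_sub_cancel] at h1
      simpa only [tc_eq_coeff] using h1
    exact le_of_off_finset hAB Y
      (fun z => tc (nod Y) (k + 1 + 1) z * tc h k z) (fun z => tc F (k + 1) z * tc G (k + 1) z)
      ((continuous_tc _ _).mul (continuous_tc _ _)) ((continuous_tc _ _).mul (continuous_tc _ _))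
      key x hx

end Pool.Agent.LPW
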