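import Pool.Agent.LPW.Defs

/-!
# LPW / THT: theta calculus

Let `(X-z) a_i' = (i+1) (a_(i+1) - a_i)` and `(X-z) b_i' = (i+1) (b_(i+1) - b_i)`, and put
`E_M = sum_(i+j=M) a_i b_j`, `θ f = (X-z) f'`.
1. `θ E_M = sum_(i+j=M) ((i+1) a_(i+1) b_j + (j+1) a_i b_(j+1)) - (M+2) E_M = (M+1) E_(M+1) - (M+2) E_M`:
   the sum is `sum_(i'+j=M+1) i' a_i' b_j + sum_(i+j'=M+1) j' a_i b_j' = (M+1) E_(M+1)`
   (`Finset.Nat.antidiagonal_succ`, `Finset.Nat.antidiagonal_succ'`, `Finset.Nat.sum_antidiagonal_succ`).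
   So `(θ + M + 2) E_M = (M+1) E_(M+1)` (`theta_step`).
2. For every polynomial `f`: `D^(M+1) ((X-z)^(M+2) f) = D^M ((X-z)^(M+1) ((M+2) f + θ f))`, since
   `D ((X-z)^(M+2) f) = (X-z)^(M+1) ((M+2) f + θ f)`.
3. Define `L_0 f = f`, `L_(M+1) f = L_M ((M+2) f + θ f)`.  By 2 and induction
   `D^M ((X-z)^(M+1) f) = (X-z) L_M f` for all `f`.  `L_M` is linear and commutes with `θ`, so
   `L_(M+1) f = (M+2) L_M f + θ (L_M f)` (induction on `M`).
4. Hence by induction `L_M E_0 = M! E_M`: `L_(M+1) E_0 = (θ + M+2)(M! E_M) = M! (M+1) E_(M+1)`.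
-/

set_option autoImplicit false

open Polynomial Finset

namespace Pool.Agent.LPW

private noncomputable def thtE (a b : ℕ → ℝ[X]) (M : ℕ) : ℝ[X] :=
  ∑ ij ∈ antidiagonal M, a ij.1 * b ij.2

private theorem theta_step (z : ℝ) (a b : ℕ → ℝ[X])
    (ha : ∀ i : ℕ, (X - C z) * derivative (a i) = C ((i : ℝ) + 1) * (a (i + 1) - a i))
    (hb : ∀ i : ℕ, (X - C z) * derivative (b i) = C ((i : ℝ) + 1) * (b (i + 1) - b i))
    (M : ℕ) :
    C ((M : ℝ) + 2) * thtE a b M + (X - C z) * derivative (thtE a b M) =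
      C ((M : ℝ) + 1) * thtE a b (M + 1) := by
  have h1 : (X - C z) * derivative (thtE a b M) =
      ∑ ij ∈ antidiagonal M, (C ((ij.1 : ℝ) + 1) * (a (ij.1 + 1) - a ij.1) * b ij.2 +
        a ij.1 * (C ((ij.2 : ℝ) + 1) * (b (ij.2 + 1) - b ij.2))) := by
    unfold thtE
    rw [derivative_sum, mul_sum]
    refine sum_congr rfl fun ij _ => ?_
    rw [derivative_mul, ← ha, ← hb]
    ring
  have h2 : C ((M : ℝ) + 1) * thtE a b (M + 1) =
      ∑ ij ∈ antidiagonal (M + 1), C (ij.1 : ℝ) * (a ij.1 * b ij.2) +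
      ∑ ij ∈ antidiagonal (M + 1), C (ij.2 : ℝ) * (a ij.1 * b ij.2) := by
    unfold thtE
    rw [mul_sum, ← sum_add_distrib]
    refine sum_congr rfl fun ij hij => ?_
    rw [HasAntidiagonal.mem_antidiagonal] at hij
    have : ((M : ℝ) + 1) = (ij.1 : ℝ) + (ij.2 : ℝ) := by
      exact_mod_cast hij.symm
    rw [this, C_add]
    ring
  rw [h1, h2, Finset.Nat.sum_antidiagonal_succ (n := M) (f := fun ij => C (ij.1 : ℝ) * (a ij.1 * b ij.2)),
    Finset.Nat.sum_antidiagonal_succ' (n := M) (f := fun ij => C (ij.2 : ℝ) * (a ij.1 * b ij.2))]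
  simp only [Nat.cast_zero, C_0, zero_mul, zero_add]
  unfold thtE
  rw [mul_sum, ← sum_add_distrib, ← sum_add_distrib]
  refine sum_congr rfl fun ij hij => ?_
  rw [HasAntidiagonal.mem_antidiagonal] at hij
  have : ((M : ℝ) + 2) = ((ij.1 : ℝ) + 1) + ((ij.2 : ℝ) + 1) := by
    have : (M : ℝ) = (ij.1 : ℝ) + (ij.2 : ℝ) := by exact_mod_cast hij.symm
    rw [this]; ring
  rw [this, C_add]
  push_cast
  ring

/-- The operators `L_M`. -/
private noncomputable def thtL (z : ℝ) : ℕ → ℝ[X] → ℝ[X]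
  | 0, f => f
  | M + 1, f => thtL z M (C ((M : ℝ) + 2) * f + (X - C z) * derivative f)

private theorem thtL_zero (z : ℝ) (f : ℝ[X]) : thtL z 0 f = f := rfl

private theorem thtL_succ (z : ℝ) (M : ℕ) (f : ℝ[X]) : thtL z (M + 1) f =
    thtL z M (C ((M : ℝ) + 2) * f + (X - C z) * derivative f) := rfl

private theorem thtL_der (z : ℝ) (M : ℕ) : ∀ f : ℝ[X],
    derivative^[M] ((X - C z) ^ (M + 1) * f) = (X - C z) * thtL z M f := by
  induction M with
  | zero => intro f; rw [thtL_zero]; simp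
  | succ M ih =>
    intro f
    have h : derivative ((X - C z) ^ (M + 1 + 1) * f) =
        (X - C z) ^ (M + 1) * (C ((M : ℝ) + 2) * f + (X - C z) * derivative f) := by
      rw [derivative_mul, derivative_pow]
      simp only [derivative_sub, derivative_X, derivative_C, sub_zero, mul_one, Nat.add_sub_cancel]
      have : ((M + 1 + 1 : ℕ) : ℝ) = (M : ℝ) + 2 := by push_cast; ring
      rw [this]
      ring
    rw [Function.iterate_succ_apply, h, ih, thtL_succ]

private theorem tht_der (z c : ℝ) (f : ℝ[X]) :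
    derivative (C c * f + (X - C z) * derivative f) =
      C c * derivative f + (derivative f + (X - C z) * derivative (derivative f)) := by
  rw [derivative_add, derivative_C_mul, derivative_mul, derivative_sub, derivative_X,
    derivative_C, sub_zero, one_mul]

private theorem tht_alg (A K Y f g h : ℝ[X]) :
    A * (K * f + Y * g) + Y * (K * g + (g + Y * h)) =
      K * (A * f + Y * g) + Y * (A * g + (g + Y * h)) := by ring

private theorem thtL_comm (z : ℝ) (M : ℕ) : ∀ (f : ℝ[X]) (c : ℝ),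
    thtL z M (C c * f + (X - C z) * derivative f) =
      C c * thtL z M f + (X - C z) * derivative (thtL z M f) := by
  induction M with
  | zero => intro f c; rw [thtL_zero, thtL_zero]
  | succ M ih =>
    intro f c
    have e : C ((M : ℝ) + 2) * (C c * f + (X - C z) * derivative f) +
        (X - C z) * derivative (C c * f + (X - C z) * derivative f) =
        C c * (C ((M : ℝ) + 2) * f + (X - C z) * derivative f) +
        (X - C z) * derivative (C ((M : ℝ) + 2) * f + (X - C z) * derivative f) := by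
      rw [tht_der, tht_der]
      exact tht_alg _ _ _ _ _ _
    rw [thtL_succ, thtL_succ, e, ih]

private theorem thtL_E (z : ℝ) (a b : ℕ → ℝ[X])
    (ha : ∀ i : ℕ, (X - C z) * derivative (a i) = C ((i : ℝ) + 1) * (a (i + 1) - a i))
    (hb : ∀ i : ℕ, (X - C z) * derivative (b i) = C ((i : ℝ) + 1) * (b (i + 1) - b i))
    (M : ℕ) : thtL z M (thtE a b 0) = C (M.factorial : ℝ) * thtE a b M := by
  induction M with
  | zero => rw [thtL_zero]; simp
  | succ M ih =>
    rw [thtL_succ, thtL_comm, ih, derivative_C_mul]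
    have h := theta_step z a b ha hb M
    have e : C ((M : ℝ) + 2) * (C (M.factorial : ℝ) * thtE a b M) +
        (X - C z) * (C (M.factorial : ℝ) * derivative (thtE a b M)) =
        C (M.factorial : ℝ) * (C ((M : ℝ) + 2) * thtE a b M +
          (X - C z) * derivative (thtE a b M)) := by ring
    rw [e, h, Nat.factorial_succ, Nat.cast_mul, C_mul]
    push_cast
    ring

theorem theta_calc (z : ℝ) (a b : ℕ → ℝ[X])
    (ha : ∀ i : ℕ, (X - C z) * derivative (a i) = C ((i : ℝ) + 1) * (a (i + 1) - a i))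
    (hb : ∀ i : ℕ, (X - C z) * derivative (b i) = C ((i : ℝ) + 1) * (b (i + 1) - b i))
    (M : ℕ) :
    derivative^[M] ((X - C z) ^ (M + 1) * (a 0 * b 0)) =
      (X - C z) * (C (M.factorial : ℝ) * ∑ ij ∈ antidiagonal M, a ij.1 * b ij.2) := by
  have h0 : a 0 * b 0 = thtE a b 0 := by simp [thtE]
  rw [h0, thtL_der, thtL_E z a b ha hb M]
  rfl

end Pool.Agent.LPW
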