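import Pool.Agent.LPW.WDG
import Pool.Agent.LPW.THT
import Pool.Agent.LPW.AOP

/-!
# LPW / HHP: positivity of the kernel of the families `shp n (fu n a)`, `shp n (fv n Q R a)`

Let `n ≥ 1`, `N = n-1`, `Q = divX^N F`, `R = divX^N G`.
1. `divX (fu n a) = fu N a` and `divX (fv n Q R a) = fv N Q R a` (`Polynomial.divX_X_pow`, or: both
   polynomials are `X` times the claimed one; `Polynomial.divX_mul_X`-like lemma:
   `divX (X * p) = p`).  So `shp n (fu n a) = D^N (fu N a)`, `shp n (fv n Q R a) = D^N (fv N Q R a)`.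
2. Hence `Ker d (shp u) (shp v) y z = (D^N (Rz n d Q R z)).eval y` (definition of `Rz`, `dv`,
   linearity of `D^N`).
3. By `wedge_mod` and `theta_calc` with `M = N`, `a_i = aP n F z i`, `b_i = aP n G z i` (`aP_ode`):
   this equals `- N! * (y - z) * N! * sum_(i+j=N) a_i(y) b_j(y)`.
4. For `y ≤ z`, both in `[A,B]`, `-(y-z) ≥ 0` and all `a_i(y), b_j(y) ≥ 0` (`aP_nonneg`, `i ≤ N ≤ n`).
-/

set_option autoImplicit false

open Polynomial Finset

namespace Pool.Agent.LPW

private theorem HHP_divX (p : ℝ[X]) : divX (X * p) = p := by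
  ext i
  rw [coeff_divX, coeff_X_mul]

private theorem HHP_fu (N a : ℕ) : shp (N + 1) (fu (N + 1) a) = derivative^[N] (fu N a) := by
  unfold shp fu
  rw [Nat.add_sub_cancel, show N + 1 + a = (N + a) + 1 by ring, pow_succ', HHP_divX]

private theorem HHP_fv (N : ℕ) (Q R : ℝ[X]) (a : ℕ) :
    shp (N + 1) (fv (N + 1) Q R a) = derivative^[N] (fv N Q R a) := by
  unfold shp fv
  rw [Nat.add_sub_cancel, pow_succ', mul_assoc, mul_assoc, HHP_divX, mul_assoc]

theorem hh_formula {n d : ℕ} (hn : 1 ≤ n) (F G : ℝ[X]) (hd : (divX^[n - 1] G).natDegree ≤ d)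
    (y z : ℝ) :
    Ker d (fun a => shp n (fu n a)) (fun a => shp n (fv n (divX^[n - 1] F) (divX^[n - 1] G) a)) y z =
      (z - y) * (((n - 1).factorial : ℝ) ^ 2 *
        ∑ ij ∈ antidiagonal (n - 1), (aP n F z ij.1).eval y * (aP n G z ij.2).eval y) := by
  have h1 := wedge_mod hn F G hd z
  have h2 := theta_calc z (aP n F z) (aP n G z) (aP_ode n F z) (aP_ode n G z) (n - 1)
  rw [Nat.sub_add_cancel hn] at h2
  rw [iterate_derivative_C_mul, h2] at h1
  have h3 := congrArg (eval y) h1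
  obtain ⟨N, rfl⟩ : ∃ N, n = N + 1 := ⟨n - 1, (Nat.sub_add_cancel hn).symm⟩
  rw [Nat.add_sub_cancel] at h3 ⊢
  have h4 : Ker d (fun a => shp (N + 1) (fu (N + 1) a))
      (fun a => shp (N + 1) (fv (N + 1) (divX^[N] F) (divX^[N] G) a)) y z =
      eval y (derivative^[N] (Rz (N + 1) d (divX^[N] F) (divX^[N] G) z)) := by
    unfold Ker Rz
    rw [iterate_derivative_sum, eval_finsetSum]
    refine Finset.sum_congr rfl fun a _ => ?_
    rw [iterate_derivative_sub, iterate_derivative_C_mul, iterate_derivative_C_mul, eval_sub,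
      eval_C_mul, eval_C_mul, Nat.add_sub_cancel]
    simp only [HHP_fu, HHP_fv, dv]
    ring
  rw [h4, h3]
  simp only [eval_neg, eval_mul, eval_C, eval_sub, eval_X, eval_finsetSum]
  ring

theorem hh_nonneg {A B : ℝ} {n d : ℕ} (hn : 1 ≤ n) {F G : ℝ[X]}
    (hF : ∀ x ∈ Set.Icc A B, 0 ≤ dv F n x) (hG : ∀ x ∈ Set.Icc A B, 0 ≤ dv G n x)
    (hd : (divX^[n - 1] G).natDegree ≤ d) :
    ∀ y ∈ Set.Icc A B, ∀ z ∈ Set.Icc A B, y ≤ z →
      0 ≤ Ker d (fun a => shp n (fu n a))
        (fun a => shp n (fv n (divX^[n - 1] F) (divX^[n - 1] G) a)) y z := by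
  intro y hy z hz hyz
  rw [hh_formula hn F G hd]
  refine mul_nonneg (by linarith) (mul_nonneg (sq_nonneg _) (Finset.sum_nonneg fun ij hij => ?_))
  have h1 := Finset.HasAntidiagonal.mem_antidiagonal.1 hij
  exact mul_nonneg (aP_nonneg hz hF (by omega) y hy) (aP_nonneg hz hG (by omega) y hy)

end Pool.Agent.LPW
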