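import Pool.Agent.LPW.Defs

/-!
# LPW / LAG: the determinant in terms of interpolation coefficients

Let `V = (y_i^j)` be the Vandermonde matrix and let `E` be the identity matrix with the column `k`
replaced by `(lc y j u)_j` and the column `k+1` replaced by `(lc y j v)_j`.  Since
`sum_j y_i^j (lc y j u)` is the value at `y_i` of the interpolating polynomial
`sum_i u(y_i) * Lagrange.basis univ y i` (degree `< n`), it equals `u(y_i)`
(`Lagrange.eval_basis_self`, `Lagrange.eval_basis_of_ne`; `Polynomial.eval_eq_sum_range'` with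
`natDegree < n`).  Hence the matrix of `Vd n k u v y` is `V * E` and
`Vd = det V * det E`, `Matrix.det_vandermonde`.
`det E = lc k u * lc (k+1) v - lc (k+1) u * lc k v`: `E = ((1).updateCol k a).updateCol (k+1) b`.
Proof of the last fact: by `Matrix.cramer`: `det (M.updateCol i b) = M.cramer b i` is linear in `b`, so
it is enough to know `det (((1).updateCol k a).updateCol (k+1) e_j)`: it is `0` for
`j ≠ k, k+1` (the row `j` of the matrix... is `a_j e_k + ...`; alternatively two proportional columns
after subtracting), `a_k` for `j = k+1` and `-a_(k+1)` for `j = k`.  Or expand along rows: every row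
`j ≠ k, k+1` of `E` is `e_j + a_j e_k + b_j e_(k+1)`; or reindex: `Matrix.det_fromBlocks_zero₂₁` for the
block decomposition into `{k,k+1}` and its complement (`Matrix.twoBlockTriangular_det'` with the
predicate `j = k ∨ j = k+1`, which gives directly a `2 x 2` determinant times `det 1`).
-/

set_option autoImplicit false

open Polynomial Finset

namespace Pool.Agent.LPW

theorem lc_eval {n : ℕ} (y : Fin n → ℝ) (hy : Function.Injective y) (u : ℝ[X]) (i : Fin n) :
    ∑ j : Fin n, y i ^ (j : ℕ) * lc y (j : ℕ) u = u.eval (y i) := by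
  classical
  have hn : 0 < n := (Nat.zero_le _).trans_lt i.2
  have h1 : ∀ m : Fin n, ∑ j : Fin n, (Lagrange.basis univ y m).coeff (j : ℕ) * y i ^ (j : ℕ) =
      (Lagrange.basis univ y m).eval (y i) := by
    intro m
    have hd : (Lagrange.basis univ y m).natDegree < n := by
      rw [Lagrange.natDegree_basis (hy.injOn) (Finset.mem_univ m), Finset.card_univ,
        Fintype.card_fin]
      omega
    rw [Polynomial.eval_eq_sum_range' hd, ← Fin.sum_univ_eq_sum_range
      (fun j => (Lagrange.basis univ y m).coeff j * y i ^ j) n]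
  have h2 : ∀ m : Fin n, (Lagrange.basis univ y m).eval (y i) = if m = i then 1 else 0 := by
    intro m
    split_ifs with h
    · subst h
      exact Lagrange.eval_basis_self hy.injOn (Finset.mem_univ m)
    · exact Lagrange.eval_basis_of_ne h (Finset.mem_univ i)
  unfold lc
  calc ∑ j : Fin n, y i ^ (j : ℕ) * ∑ m, u.eval (y m) * (Lagrange.basis univ y m).coeff (j : ℕ)
      = ∑ j : Fin n, ∑ m, u.eval (y m) *
          ((Lagrange.basis univ y m).coeff (j : ℕ) * y i ^ (j : ℕ)) := by
        refine Finset.sum_congr rfl fun j _ => ?_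
        rw [Finset.mul_sum]
        refine Finset.sum_congr rfl fun m _ => ?_
        ring
    _ = ∑ m, u.eval (y m) * ∑ j : Fin n,
          (Lagrange.basis univ y m).coeff (j : ℕ) * y i ^ (j : ℕ) := by
        rw [Finset.sum_comm]
        refine Finset.sum_congr rfl fun m _ => ?_
        rw [Finset.mul_sum]
    _ = ∑ m, u.eval (y m) * (if m = i then 1 else 0) := by
        refine Finset.sum_congr rfl fun m _ => ?_
        rw [h1, h2]
    _ = u.eval (y i) := by simp

private theorem LAG_det {n k : ℕ} (hk : k + 2 ≤ n) (a b : Fin n → ℝ) :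
    Matrix.det (Matrix.of fun i j : Fin n =>
      if (j : ℕ) = k then a i else if (j : ℕ) = k + 1 then b i else if i = j then (1:ℝ) else 0) =
      a ⟨k, by omega⟩ * b ⟨k + 1, by omega⟩ - a ⟨k + 1, by omega⟩ * b ⟨k, by omega⟩ := by
  classical
  rw [Matrix.twoBlockTriangular_det' _ (fun j : Fin n => (j : ℕ) = k ∨ (j : ℕ) = k + 1)]
  · have h1 : (Matrix.toSquareBlockProp (Matrix.of fun i j : Fin n =>
      if (j : ℕ) = k then a i else if (j : ℕ) = k + 1 then b i else if i = j then (1:ℝ) else 0)
        fun j => ¬ ((j : ℕ) = k ∨ (j : ℕ) = k + 1)) = 1 := by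
      ext ⟨i, hi⟩ ⟨j, hj⟩
      rw [not_or] at hj
      simp only [Matrix.toSquareBlockProp_def, Matrix.of_apply, Matrix.one_apply, hj.1, hj.2,
        if_false, Subtype.mk.injEq]
    rw [h1, Matrix.det_one, mul_one]
    let e : Fin 2 ≃ {j : Fin n // (j : ℕ) = k ∨ (j : ℕ) = k + 1} :=
      { toFun := fun t => if t = 0 then ⟨⟨k, by omega⟩, Or.inl rfl⟩
          else ⟨⟨k + 1, by omega⟩, Or.inr rfl⟩
        invFun := fun j => if (j.1 : ℕ) = k then 0 else 1
        left_inv := by
          intro t
          fin_cases t <;> simp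
        right_inv := by
          rintro ⟨j, hj⟩
          rcases hj with hj | hj
          · simp [hj, Fin.ext_iff]
          · simp [hj, Fin.ext_iff] }
    rw [← Matrix.det_submatrix_equiv_self e, Matrix.det_fin_two]
    simp [e, Matrix.toSquareBlockProp_def]
    ring
  · intro i hi j hj
    rw [not_or] at hj
    have hij : i ≠ j := by
      rintro rfl
      rcases hi with h | h
      · exact hj.1 h
      · exact hj.2 h
    simp [hj.1, hj.2, hij]

theorem vd_lag {n k : ℕ} (hk : k + 2 ≤ n) (y : Fin n → ℝ) (hy : Function.Injective y)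
    (u v : ℝ[X]) :
    Vd n k u v y = (∏ i : Fin n, ∏ j ∈ Finset.Ioi i, (y j - y i)) *
      (lc y k u * lc y (k + 1) v - lc y (k + 1) u * lc y k v) := by
  classical
  have h := LAG_det hk (fun j => lc y (j : ℕ) u) (fun j => lc y (j : ℕ) v)
  rw [← Matrix.det_vandermonde, ← h, ← Matrix.det_mul]
  unfold Vd
  congr 1
  ext i j
  rw [Matrix.mul_apply]
  simp only [Matrix.of_apply, Matrix.vandermonde_apply]
  by_cases h1 : (j : ℕ) = k
  · simp only [h1, if_true]
    rw [lc_eval y hy u i]
  · by_cases h2 : (j : ℕ) = k + 1
    · simp only [h1, h2, if_true, if_false]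
      rw [if_neg (by omega)]
      simp only [show ¬ (k + 1 = k) by omega, if_false]
      rw [lc_eval y hy v i]
    · simp only [h1, h2, if_false]
      simp

end Pool.Agent.LPW
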