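import Pool.Agent.LPW.Defs

/-!
# LPW / MOP: the integral formula for the operator `Mop`

Both sides are linear in `u`, and `u` is a linear combination of the monomials `X^(k+m+i)`
(write `u = X^(k+m) * g`, `g = sum_i C g_i X^i`, e.g. by `Polynomial.induction_on` for `g`: additivity and
monomials).  For `u = X^(n+i)`, `n = k+m`:
`D^k u = (n+i)!/(m+i)! X^(m+i)`, dividing by `X^2` gives `X^(m-2+i)`, and
`D^(m-2) X^(m-2+i) = (m-2+i)!/i! X^i`.  So `Mop k m u = (n+i)!/(m+i)! * (m-2+i)!/i! * X^i
= (n+i)!/(i! (m+i)(m+i-1)) X^i`.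
Right side: `divX u = X^(n+i-1)`, `D^(n-1) X^(n-1+i) = (n+i-1)!/i! X^i`, and
`int_0^1 ((k+1) - k t) t^(m-2+i) dt = (k+1)/(m-1+i) - k/(m+i) = (m+k+i)/((m-1+i)(m+i))`, times
`(n+i-1)!/i! z^i`: the same number.
(Use `Polynomial.iterate_derivative_X_pow_eq_smul` / `Polynomial.iterate_derivative_X_pow_eq_C_mul`
with `Nat.descFactorial`, `integral_pow`, `Nat.factorial_mul_descFactorial`.)
-/

set_option autoImplicit false

open Polynomial Finset

namespace Pool.Agent.LPW

private theorem mop_num (k m i : ℕ) :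
    ((k + (m + 2) + i).descFactorial k : ℝ) * ((m + i).descFactorial m : ℝ) *
      (((m : ℝ) + 2 + i) * (m + 1 + i)) =
      ((k : ℝ) + m + 2 + i) * ((k + m + 1 + i).descFactorial (k + m + 1) : ℝ) := by
  have h1 := Nat.factorial_mul_descFactorial (show k ≤ k + (m + 2) + i by omega)
  have h2 := Nat.factorial_mul_descFactorial (show m ≤ m + i by omega)
  have h3 := Nat.factorial_mul_descFactorial (show k + m + 1 ≤ k + m + 1 + i by omega)
  have e1 : k + (m + 2) + i - k = m + i + 1 + 1 := by omega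
  have e2 : m + i - m = i := by omega
  have e3 : k + m + 1 + i - (k + m + 1) = i := by omega
  rw [e1, Nat.factorial_succ, Nat.factorial_succ] at h1
  rw [e2] at h2
  rw [e3] at h3
  have e4 : k + (m + 2) + i = (k + m + 1 + i) + 1 := by omega
  have h4 : (k + (m + 2) + i).factorial = (k + m + 1 + i + 1) * (k + m + 1 + i).factorial := by
    rw [e4, Nat.factorial_succ]
  rw [h4, ← h2, ← h3] at h1
  have hi : (0 : ℝ) < (i.factorial : ℝ) := by exact_mod_cast Nat.factorial_pos i
  have h5 : (((m + i + 1 + 1) * ((m + i + 1) * (i.factorial * (m + i).descFactorial m)) *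
      (k + (m + 2) + i).descFactorial k : ℕ) : ℝ) =
      (((k + m + 1 + i + 1) * (i.factorial * (k + m + 1 + i).descFactorial (k + m + 1)) : ℕ) : ℝ) := by
    exact_mod_cast h1
  push_cast at h5
  have h6 : (i.factorial : ℝ) * (((k + (m + 2) + i).descFactorial k : ℝ) *
      ((m + i).descFactorial m : ℝ) * (((m : ℝ) + 2 + i) * (m + 1 + i))) =
      (i.factorial : ℝ) * (((k : ℝ) + m + 2 + i) *
        ((k + m + 1 + i).descFactorial (k + m + 1) : ℝ)) := by
    linear_combination h5
  exact mul_left_cancel₀ hi.ne' h6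

private theorem mop_left (k m i : ℕ) (c z : ℝ) :
    (Mop k (m + 2) (C c * X ^ (k + (m + 2) + i))).eval z =
      c * ((k + (m + 2) + i).descFactorial k : ℝ) * ((m + i).descFactorial m : ℝ) * z ^ i := by
  unfold Mop
  rw [iterate_derivative_C_mul, iterate_derivative_X_pow_eq_C_mul]
  have e1 : k + (m + 2) + i - k = m + i + 2 := by omega
  rw [e1, divX_C_mul, divX_C_mul, divX_C_mul, divX_C_mul, divX_X_pow, if_neg (by omega),
    divX_X_pow, if_neg (by omega), iterate_derivative_C_mul, iterate_derivative_C_mul,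
    iterate_derivative_X_pow_eq_C_mul]
  have e2 : m + i + 2 - 1 - 1 = m + i := by omega
  have e3 : m + 2 - 2 = m := by omega
  have e4 : m + i - m = i := by omega
  rw [e2, e3, e4]
  simp only [eval_mul, eval_C, eval_pow, eval_X]
  ring

private theorem mop_shp (k m i : ℕ) (c x : ℝ) :
    (shp (k + (m + 2)) (C c * X ^ (k + (m + 2) + i))).eval x =
      c * ((k + m + 1 + i).descFactorial (k + m + 1) : ℝ) * x ^ i := by
  unfold shp
  rw [divX_C_mul, divX_X_pow, if_neg (by omega), iterate_derivative_C_mul,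
    iterate_derivative_X_pow_eq_C_mul]
  have e1 : k + (m + 2) + i - 1 = k + m + 1 + i := by omega
  have e2 : k + (m + 2) - 1 = k + m + 1 := by omega
  have e3 : k + m + 1 + i - (k + m + 1) = i := by omega
  rw [e1, e2, e3]
  simp only [eval_mul, eval_C, eval_pow, eval_X]
  ring

private theorem mop_mono (k m i : ℕ) (c z : ℝ) :
    (Mop k (m + 2) (C c * X ^ (k + (m + 2) + i))).eval z = ∫ t in (0 : ℝ)..1,
      (((k : ℝ) + 1) - k * t) * t ^ m *
        (shp (k + (m + 2)) (C c * X ^ (k + (m + 2) + i))).eval (t * z) := by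
  rw [mop_left]
  simp only [mop_shp]
  obtain ⟨A, hA⟩ : ∃ A : ℝ, A = ((k + m + 1 + i).descFactorial (k + m + 1) : ℝ) := ⟨_, rfl⟩
  have h1 : (fun t : ℝ => (((k : ℝ) + 1) - k * t) * t ^ m *
      (c * ((k + m + 1 + i).descFactorial (k + m + 1) : ℝ) * (t * z) ^ i)) =
      fun t : ℝ => (c * A * z ^ i) * (((k : ℝ) + 1) * t ^ (m + i) - k * t ^ (m + i + 1)) := by
    funext t
    rw [hA, mul_pow, pow_succ, pow_add]
    ring
  rw [h1, intervalIntegral.integral_const_mul, intervalIntegral.integral_sub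
    ((by fun_prop : Continuous fun t : ℝ => ((k : ℝ) + 1) * t ^ (m + i)).intervalIntegrable _ _)
    ((by fun_prop : Continuous fun t : ℝ => (k : ℝ) * t ^ (m + i + 1)).intervalIntegrable _ _),
    intervalIntegral.integral_const_mul, intervalIntegral.integral_const_mul, integral_pow,
    integral_pow]
  have hn := mop_num k m i
  rw [← hA] at hn
  have p1 : (0 : ℝ) < (m : ℝ) + 2 + i := by positivity
  have p2 : (0 : ℝ) < (m : ℝ) + 1 + i := by positivity
  push_cast
  have h2 : ((k : ℝ) + 1) * ((1 ^ (m + i + 1) - 0 ^ (m + i + 1)) / ((m : ℝ) + i + 1)) -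
      k * ((1 ^ (m + i + 1 + 1) - 0 ^ (m + i + 1 + 1)) / ((m : ℝ) + i + 1 + 1)) =
      ((k : ℝ) + m + 2 + i) / (((m : ℝ) + 2 + i) * (m + 1 + i)) := by
    rw [one_pow, one_pow, zero_pow (by omega), zero_pow (by omega)]
    have p3 : (0 : ℝ) < (m : ℝ) + i + 1 := by positivity
    have p4 : (0 : ℝ) < (m : ℝ) + i + 1 + 1 := by positivity
    field_simp
    ring
  rw [h2]
  have h3 : ((k + (m + 2) + i).descFactorial k : ℝ) * ((m + i).descFactorial m : ℝ) =
      ((k : ℝ) + m + 2 + i) * A / (((m : ℝ) + 2 + i) * (m + 1 + i)) := by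
    rw [eq_div_iff (by positivity), hn]
  calc c * ((k + (m + 2) + i).descFactorial k : ℝ) * ((m + i).descFactorial m : ℝ) * z ^ i
      = c * z ^ i * (((k + (m + 2) + i).descFactorial k : ℝ) *
          ((m + i).descFactorial m : ℝ)) := by ring
    _ = _ := by
        rw [h3]
        ring

theorem mop_integral {k m : ℕ} (hm : 2 ≤ m) (u : ℝ[X]) (hu : X ^ (k + m) ∣ u) (z : ℝ) :
    (Mop k m u).eval z = ∫ t in (0 : ℝ)..1,
      (((k : ℝ) + 1) - k * t) * t ^ (m - 2) * (shp (k + m) u).eval (t * z) := by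
  obtain ⟨m, rfl⟩ : ∃ m', m = m' + 2 := ⟨m - 2, by omega⟩
  obtain ⟨g, rfl⟩ := hu
  have e0 : m + 2 - 2 = m := by omega
  rw [e0]
  induction g using Polynomial.induction_on' with
  | add p q hp hq =>
    have h1 : Mop k (m + 2) (X ^ (k + (m + 2)) * (p + q)) =
        Mop k (m + 2) (X ^ (k + (m + 2)) * p) + Mop k (m + 2) (X ^ (k + (m + 2)) * q) := by
      unfold Mop
      rw [mul_add, iterate_map_add, divX_add, divX_add, iterate_map_add]
    have h2 : shp (k + (m + 2)) (X ^ (k + (m + 2)) * (p + q)) =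
        shp (k + (m + 2)) (X ^ (k + (m + 2)) * p) + shp (k + (m + 2)) (X ^ (k + (m + 2)) * q) := by
      unfold shp
      rw [mul_add, divX_add, iterate_map_add]
    rw [h1, h2, eval_add, hp, hq, ← intervalIntegral.integral_add]
    · refine intervalIntegral.integral_congr fun t _ => ?_
      simp only [eval_add]
      ring
    · refine Continuous.intervalIntegrable ?_ _ _
      have := (shp (k + (m + 2)) (X ^ (k + (m + 2)) * p)).continuous
      fun_prop
    · refine Continuous.intervalIntegrable ?_ _ _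
      have := (shp (k + (m + 2)) (X ^ (k + (m + 2)) * q)).continuous
      fun_prop
  | monomial i c =>
    have h1 : (X ^ (k + (m + 2)) * monomial i c : ℝ[X]) = C c * X ^ (k + (m + 2) + i) := by
      rw [← C_mul_X_pow_eq_monomial, pow_add X (k + (m + 2)) i]
      ring
    rw [h1]
    exact mop_mono k m i c z

end Pool.Agent.LPW
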