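import Pool.Agent.LPW.SYA
import Pool.Agent.LPW.MOP

/-!
# LPW / SYM: from the kernel of `shp` to the kernel of `Mop`

Put `H(y,z) = Ker d (shp (k+m) u_a) (shp (k+m) v_a) y z`: continuous, antisymmetric,
`w(t) = ((k+1) - k t) t^(m-2)`.  By `mop_integral`, for all `z1, z2`
`Ker d (Mop u) (Mop v) z1 z2 = int_0^1 int_0^1 w(t) w(s) H(t z1, s z2) ds dt` (`ker_mop`): a product of
two integrals is the iterated integral, and finite sums commute with integrals of continuous functions.
Let `z1 < z2` in `[A,B]`, `0` in `[A,B]`.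
* `z1 ≤ 0 ≤ z2`: `t z1 ≤ 0 ≤ s z2`, both in `[A,B]`; the integrand is `≥ 0`.
* `0 < z1`: `sym_integral` with `p = z1`, `q = z2`.
* `z2 < 0`: put `H'(y,z) = H(-z,-y)`; it is continuous, antisymmetric and `≥ 0` for
  `0 ≤ y ≤ z ≤ -A`.  `H(t z1, s z2) = H'(s (-z2), t (-z1))`; exchange the order of integration
  (`swap_integral`) and apply `sym_integral` with `p = -z2 < q = -z1`.
-/

set_option autoImplicit false

open Polynomial Finset

namespace Pool.Agent.LPW

theorem ker_mop {k m d : ℕ} (hm : 2 ≤ m) (u v : ℕ → ℝ[X]) (hu : ∀ a, X ^ (k + m) ∣ u a)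
    (hv : ∀ a, X ^ (k + m) ∣ v a) (z1 z2 : ℝ) :
    Ker d (fun a => Mop k m (u a)) (fun a => Mop k m (v a)) z1 z2 =
      ∫ t in (0 : ℝ)..1, ∫ s in (0 : ℝ)..1,
        ((((k : ℝ) + 1) - k * t) * t ^ (m - 2)) * ((((k : ℝ) + 1) - k * s) * s ^ (m - 2)) *
          Ker d (fun a => shp (k + m) (u a)) (fun a => shp (k + m) (v a)) (t * z1) (s * z2) := by
  have inner : ∀ t : ℝ, ∫ s in (0 : ℝ)..1,
        ((((k : ℝ) + 1) - k * t) * t ^ (m - 2)) * ((((k : ℝ) + 1) - k * s) * s ^ (m - 2)) *
          Ker d (fun a => shp (k + m) (u a)) (fun a => shp (k + m) (v a)) (t * z1) (s * z2) =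
      ∑ a ∈ range d,
        ((((((k : ℝ) + 1) - k * t) * t ^ (m - 2)) * (shp (k + m) (u a)).eval (t * z1)) *
            (Mop k m (v a)).eval z2 -
          (((((k : ℝ) + 1) - k * t) * t ^ (m - 2)) * (shp (k + m) (v a)).eval (t * z1)) *
            (Mop k m (u a)).eval z2) := by
    intro t
    have e1 : ∀ a ∈ range d,
        ((((((k : ℝ) + 1) - k * t) * t ^ (m - 2)) * (shp (k + m) (u a)).eval (t * z1)) *
            (Mop k m (v a)).eval z2 -
          (((((k : ℝ) + 1) - k * t) * t ^ (m - 2)) * (shp (k + m) (v a)).eval (t * z1)) *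
            (Mop k m (u a)).eval z2) =
        ∫ s in (0 : ℝ)..1, ((((((k : ℝ) + 1) - k * t) * t ^ (m - 2)) *
            (shp (k + m) (u a)).eval (t * z1)) *
            ((((k : ℝ) + 1) - k * s) * s ^ (m - 2) * (shp (k + m) (v a)).eval (s * z2)) -
          (((((k : ℝ) + 1) - k * t) * t ^ (m - 2)) * (shp (k + m) (v a)).eval (t * z1)) *
            ((((k : ℝ) + 1) - k * s) * s ^ (m - 2) * (shp (k + m) (u a)).eval (s * z2))) := by
      intro a _
      rw [mop_integral hm (v a) (hv a) z2, mop_integral hm (u a) (hu a) z2,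
        ← intervalIntegral.integral_const_mul, ← intervalIntegral.integral_const_mul,
        ← intervalIntegral.integral_sub]
      · exact Continuous.intervalIntegrable (by fun_prop) _ _
      · exact Continuous.intervalIntegrable (by fun_prop) _ _
    rw [Finset.sum_congr rfl e1, ← intervalIntegral.integral_finsetSum]
    · congr 1
      funext s
      simp only [Ker, Finset.mul_sum]
      exact Finset.sum_congr rfl fun a _ => by ring
    · intro a _
      exact Continuous.intervalIntegrable (by fun_prop) _ _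
  have e2 : (∫ t in (0 : ℝ)..1, ∫ s in (0 : ℝ)..1,
        ((((k : ℝ) + 1) - k * t) * t ^ (m - 2)) * ((((k : ℝ) + 1) - k * s) * s ^ (m - 2)) *
          Ker d (fun a => shp (k + m) (u a)) (fun a => shp (k + m) (v a)) (t * z1) (s * z2)) =
      ∫ t in (0 : ℝ)..1, ∑ a ∈ range d,
        ((((((k : ℝ) + 1) - k * t) * t ^ (m - 2)) * (shp (k + m) (u a)).eval (t * z1)) *
            (Mop k m (v a)).eval z2 -
          (((((k : ℝ) + 1) - k * t) * t ^ (m - 2)) * (shp (k + m) (v a)).eval (t * z1)) *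
            (Mop k m (u a)).eval z2) := by
    congr 1
    funext t
    exact inner t
  rw [e2, intervalIntegral.integral_finsetSum]
  · unfold Ker
    refine Finset.sum_congr rfl fun a _ => ?_
    rw [intervalIntegral.integral_sub, intervalIntegral.integral_mul_const,
      intervalIntegral.integral_mul_const, ← mop_integral hm (v a) (hv a) z1,
      ← mop_integral hm (u a) (hu a) z1]
    · exact Continuous.intervalIntegrable (by fun_prop) _ _
    · exact Continuous.intervalIntegrable (by fun_prop) _ _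
  · intro a _
    exact Continuous.intervalIntegrable (by fun_prop) _ _

private theorem sym_ker_cont (d : ℕ) (u v : ℕ → ℝ[X]) :
    Continuous (fun z : ℝ × ℝ => Ker d u v z.1 z.2) := by
  unfold Ker
  fun_prop

private theorem sym_ker_anti (d : ℕ) (u v : ℕ → ℝ[X]) (y z : ℝ) :
    Ker d u v z y = -Ker d u v y z := by
  unfold Ker
  rw [← Finset.sum_neg_distrib]
  exact Finset.sum_congr rfl fun a _ => by ring

private theorem sym_w_nonneg (k : ℕ) {t : ℝ} (ht : t ∈ Set.Icc (0 : ℝ) 1) (n : ℕ) :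
    0 ≤ (((k : ℝ) + 1) - k * t) * t ^ n := by
  have h1 : (0 : ℝ) ≤ (k : ℝ) := Nat.cast_nonneg k
  have h2 : (k : ℝ) * t ≤ k * 1 := mul_le_mul_of_nonneg_left ht.2 h1
  exact mul_nonneg (by linarith) (pow_nonneg ht.1 n)

theorem ker_mop_nonneg {k m d : ℕ} (hm : 2 ≤ m) (u v : ℕ → ℝ[X])
    (hu : ∀ a, X ^ (k + m) ∣ u a) (hv : ∀ a, X ^ (k + m) ∣ v a) {A B : ℝ}
    (h0 : (0 : ℝ) ∈ Set.Icc A B)
    (H : ∀ y ∈ Set.Icc A B, ∀ z ∈ Set.Icc A B, y ≤ z →
      0 ≤ Ker d (fun a => shp (k + m) (u a)) (fun a => shp (k + m) (v a)) y z) :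
    ∀ z1 ∈ Set.Icc A B, ∀ z2 ∈ Set.Icc A B, z1 < z2 →
      0 ≤ Ker d (fun a => Mop k m (u a)) (fun a => Mop k m (v a)) z1 z2 := by
  intro z1 hz1 z2 hz2 hlt
  rw [ker_mop hm u v hu hv z1 z2]
  have hcont := sym_ker_cont d (fun a => shp (k + m) (u a)) (fun a => shp (k + m) (v a))
  have hanti := sym_ker_anti d (fun a => shp (k + m) (u a)) (fun a => shp (k + m) (v a))
  rcases lt_or_ge 0 z1 with hp | hp
  · refine sym_integral hp hlt hz2.2 k (m - 2)
      (fun y z => Ker d (fun a => shp (k + m) (u a)) (fun a => shp (k + m) (v a)) y z)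
      hcont hanti ?_
    intro y hy z hz hyz
    exact H y ⟨h0.1.trans hy.1, hy.2⟩ z ⟨h0.1.trans hz.1, hz.2⟩ hyz
  · rcases lt_or_ge z2 0 with hq | hq
    · have hcg : Continuous (fun z : ℝ × ℝ =>
          ((((k : ℝ) + 1) - k * z.1) * z.1 ^ (m - 2)) *
            ((((k : ℝ) + 1) - k * z.2) * z.2 ^ (m - 2)) *
          Ker d (fun a => shp (k + m) (u a)) (fun a => shp (k + m) (v a))
            (z.1 * z1) (z.2 * z2)) := by
        unfold Ker
        fun_prop
      rw [swap_integral (fun t s =>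
          ((((k : ℝ) + 1) - k * t) * t ^ (m - 2)) * ((((k : ℝ) + 1) - k * s) * s ^ (m - 2)) *
          Ker d (fun a => shp (k + m) (u a)) (fun a => shp (k + m) (v a))
            (t * z1) (s * z2)) hcg]
      have key := sym_integral (p := -z2) (q := -z1) (B := -A) (by linarith) (by linarith)
        (by linarith [hz1.1]) k (m - 2)
        (fun y z => Ker d (fun a => shp (k + m) (u a)) (fun a => shp (k + m) (v a)) (-z) (-y))
        (by
          have : Continuous (fun z : ℝ × ℝ => ((-z.2, -z.1) : ℝ × ℝ)) := by fun_prop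
          exact hcont.comp this)
        (fun y z => hanti _ _)
        (by
          intro y hy z hz hyz
          exact H (-z) ⟨by linarith [hz.2], by linarith [hz.1, h0.2]⟩ (-y)
            ⟨by linarith [hy.2], by linarith [hy.1, h0.2]⟩ (by linarith))
      refine key.trans (le_of_eq ?_)
      congr 1
      funext s
      congr 1
      funext t
      have e1 : -(t * -z1) = t * z1 := by ring
      have e2 : -(s * -z2) = s * z2 := by ring
      rw [e1, e2]
      ring
    · refine intervalIntegral.integral_nonneg zero_le_one fun t ht => ?_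
      refine intervalIntegral.integral_nonneg zero_le_one fun s hs => ?_
      refine mul_nonneg (mul_nonneg (sym_w_nonneg k ht _) (sym_w_nonneg k hs _)) ?_
      have ha1 : A ≤ t * z1 := by
        have : t * (-z1) ≤ 1 * (-z1) := mul_le_mul_of_nonneg_right ht.2 (by linarith)
        linarith [hz1.1]
      have ha2 : t * z1 ≤ 0 := mul_nonpos_of_nonneg_of_nonpos ht.1 hp
      have hb1 : 0 ≤ s * z2 := mul_nonneg hs.1 hq
      have hb2 : s * z2 ≤ B := by
        have : s * z2 ≤ 1 * z2 := mul_le_mul_of_nonneg_right hs.2 hq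
        linarith [hz2.2]
      exact H (t * z1) ⟨ha1, ha2.trans h0.2⟩ (s * z2) ⟨h0.1.trans hb1, hb2⟩ (ha2.trans hb1)

end Pool.Agent.LPW
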