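import Pool.Agent.LPW.CHT
import Pool.Agent.LPW.LAG
import Pool.Agent.LPW.ALF
import Pool.Agent.LPW.SYM
import Pool.Agent.LPW.HHP

/-!
# LPW / AZ: alpha at the point 0, for `0` not a node

Let `n = |Y|`, `m = n - k ≥ 2`, `y : Fin n → ℝ` the increasing enumeration of `Y`
(`Y.orderEmbOfFin`), so `nod Y = prod_s (X - C (y s))`; `y_i ≠ 0`.  Let `Q = divX^(n-1) F`,
`R = divX^(n-1) G`, `u_a = fu n a`, `v_a = fv n Q R a`, `d = R.natDegree`.  `X^n` divides all of them.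
1. `hh_nonneg` (hypotheses: `Cone.pos`) gives `0 ≤ Ker d (shp n u_a) (shp n v_a) y z` for `y ≤ z` in `[A,B]`.
2. `ker_mop_nonneg` (with `k + m = n`) gives the hypothesis of `chain_total`.
3. `chain_total`: `0 ≤ sum_a Vd n k (u_a) (v_a) y`.
4. `vd_lag` and `alpha_formula`: this sum is `Delta * (F_k G_k - w_(k+1) h_(k-1))` with
   `Delta = prod_i prod_(j>i) (y_j - y_i) > 0`.
-/

set_option autoImplicit false

open Polynomial Finset

namespace Pool.Agent.LPW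

theorem alpha_zero {A B : ℝ} {Y : Finset ℝ} {F G h : ℝ[X]} {k : ℕ}
    (hY : ∀ y ∈ Y, y ∈ Set.Icc A B) (h0 : (0 : ℝ) ∈ Set.Icc A B) (h0Y : (0 : ℝ) ∉ Y)
    (hF : Cone A B Y F) (hG : Cone A B Y G) (hh : F * G = nod Y * h) (hk : 1 ≤ k)
    (hn : k + 2 ≤ Y.card) :
    (nod Y).coeff (k + 1) * h.coeff (k - 1) ≤ F.coeff k * G.coeff k := by
  obtain ⟨n, hnY⟩ : ∃ n, Y.card = n := ⟨_, rfl⟩
  obtain ⟨m, hm2, hkm⟩ : ∃ m, 2 ≤ m ∧ k + m = n := ⟨n - k, by omega, by omega⟩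
  have hn' : k + 2 ≤ n := by omega
  have hn1 : 1 ≤ n := by omega
  let e := Y.orderEmbOfFin hnY
  let y : Fin n → ℝ := fun i => e i
  have hyY : ∀ i, y i ∈ Y := fun i => Finset.orderEmbOfFin_mem Y hnY i
  have hy : StrictMono y := e.strictMono
  have hinj : Function.Injective y := hy.injective
  have hyI : ∀ i, y i ∈ Set.Icc A B := fun i => hY _ (hyY i)
  have hy0 : ∀ i, y i ≠ 0 := fun i h1 => h0Y (h1 ▸ hyY i)
  have hnod : nod Y = ∏ s, (X - C (y s)) := by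
    unfold nod
    conv_lhs => rw [← Finset.map_orderEmbOfFin_univ Y hnY]
    rw [Finset.prod_map]
    rfl
  have hFp : ∀ x ∈ Set.Icc A B, 0 ≤ dv F n x := by
    have := hF.pos
    rwa [hnY] at this
  have hGp : ∀ x ∈ Set.Icc A B, 0 ≤ dv G n x := by
    have := hG.pos
    rwa [hnY] at this
  set d := (divX^[n - 1] G).natDegree with hd
  have H1 := hh_nonneg hn1 hFp hGp (le_refl d)
  have hu : ∀ a, (X : ℝ[X]) ^ (k + m) ∣ fu n a := by
    intro a
    rw [hkm]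
    exact pow_dvd_pow _ (Nat.le_add_right _ _)
  have hv : ∀ a, (X : ℝ[X]) ^ (k + m) ∣ fv n (divX^[n - 1] F) (divX^[n - 1] G) a := by
    intro a
    rw [hkm]
    unfold fv
    rw [mul_assoc]
    exact dvd_mul_right _ _
  have H2 := ker_mop_nonneg (d := d) hm2 (fun a => fu n a)
    (fun a => fv n (divX^[n - 1] F) (divX^[n - 1] G) a) hu hv h0 (by rw [hkm]; exact H1)
  have H3 := chain_total hm2 _ _ hu hv H2 hkm.symm y hy hyI
  have H4 : ∑ a ∈ range d, Vd n k (fu n a) (fv n (divX^[n - 1] F) (divX^[n - 1] G) a) y =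
      (∏ i : Fin n, ∏ j ∈ Finset.Ioi i, (y j - y i)) *
        (F.coeff k * G.coeff k - (∏ s, (X - C (y s))).coeff (k + 1) * h.coeff (k - 1)) := by
    rw [← alpha_formula hk hn' y hinj hy0 (fun i => hF.zero _ (hyY i))
      (fun i => hG.zero _ (hyY i)) (hnod ▸ hh) (le_refl d), mul_sum]
    exact sum_congr rfl fun a _ => vd_lag hn' y hinj _ _
  rw [H4] at H3
  have hD : 0 < ∏ i : Fin n, ∏ j ∈ Finset.Ioi i, (y j - y i) :=
    prod_pos fun i _ => prod_pos fun j hj => sub_pos.2 (hy (Finset.mem_Ioi.1 hj))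
  have H5 := nonneg_of_mul_nonneg_right H3 hD
  rw [hnod]
  linarith

end Pool.Agent.LPW
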