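import Pool.Agent.LPW.AOP
import Pool.Agent.LPW.THT

/-!
# LPW / BN1: the Taylor coefficient of index `n-1` of `h` at the last node

Let `b = max Y`, `n = |Y|`, `N = n - 1`, `F G = nod Y * h`.  Claim: `tc h N b ≥ 0`.

If `N = 0`: `Y = {b}`, `F = (X-b) F1`, `G = (X-b) G1`, `h = (X-b) F1 G1`, `tc h 0 b = h(b) = 0`.
Let `N ≥ 1`, `w1 = nod (Y.erase b)` (degree `N`), `F = (X-b) Fh`, `G = (X-b) Gh`; cancelling `X - b`:
`w1 h = (X-b) Fh Gh`.  Let `a_i = aP n F b i`, `b_i = aP n G b i`, and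
`T_F = sum_(j<N) C (tc F (j+1) b) (X-b)^j`, degree `≤ N-1`; by `aP_taylor` and `F(b) = 0`,
`Fh = T_F + (X-b)^N a_0` (cancel `X-b`), `Gh = T_G + (X-b)^N b_0`.
Let `V` be the polynomial of degree `< N` interpolating `f0 := - (X-b)^N a_0 b_0` at the `N` points of
`Y.erase b` (`Lagrange.interpolate`).  At `y` in `Y.erase b`: `Fh(y) = Gh(y) = 0`, so
`T_F(y) T_G(y) = (y-b)^(2N) a_0(y) b_0(y)` and `T_F T_G + (X-b)^N V` vanishes at `y`.  So
`T_F T_G + (X-b)^N V = w1 * c` (`nod_dvd`), where the left side has degree `≤ 2N-1`, so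
`natDegree c ≤ N-1`, and comparing the coefficients of `X^(2N-1)` (`T_F T_G` has degree `≤ 2N-2`,
`w1` and `(X-b)^N` are monic of degree `N`) `c.coeff (N-1) = V.coeff (N-1)`.
Now `w1 (h - (X-b) c) = (X-b) (Fh Gh - T_F T_G - (X-b)^N V)
 = (X-b)^(N+1) (T_F b_0 + T_G a_0 + (X-b)^N a_0 b_0 - V)`, and `w1` is coprime to `X-b`
(`w1(b) ≠ 0`; e.g. `Prime`/`IsCoprime.pow_right`...), so `(X-b)^(N+1)` divides `h - (X-b) c`; hence
`tc h N b = tc ((X-b) c) N b = tc c (N-1) b = c.coeff (N-1)` (`natDegree c ≤ N-1`)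
`= V.coeff (N-1)`.
ROLLE: `f0 - V` vanishes at the `N` points of `Y.erase b`, so its derivative of order `N-1` vanishes at
some `x0` in the hull of `Y.erase b` (for polynomials: `rolle_poly` below).  `D^(N-1) V` is the constant
`(N-1)! V.coeff (N-1)`; and by `theta_calc` with `M = N-1`
`D^(N-1) ((X-b)^N a_0 b_0) = (X-b) (N-1)! sum_(i+j=N-1) a_i b_j`, so
`(N-1)! V.coeff (N-1) = (D^(N-1) f0)(x0) = (b - x0) (N-1)! sum a_i(x0) b_j(x0) ≥ 0` by `aP_nonneg`
(`b`, `x0` in `[A,B]`, `x0 ≤ b`).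

`rolle_poly`: induction on `M`: between consecutive zeros of `f` there is a zero of `f'`
(`exists_deriv_eq_zero`); for `M+1` zeros in `[A',B']` we get `M` zeros of `f'` in `[A',B']`.
-/

set_option autoImplicit false

open Polynomial Finset

namespace Pool.Agent.LPW

theorem rolle_poly (M : ℕ) (f : ℝ[X]) (Z : Finset ℝ) (hZ : Z.card = M + 1) {A' B' : ℝ}
    (hZI : ∀ z ∈ Z, z ∈ Set.Icc A' B') (h0 : ∀ z ∈ Z, f.eval z = 0) :
    ∃ x0 ∈ Set.Icc A' B', (derivative^[M] f).eval x0 = 0 := by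
  induction M generalizing f Z with
  | zero =>
    obtain ⟨z, hz⟩ : Z.Nonempty := Finset.card_pos.mp (by omega)
    exact ⟨z, hZI z hz, by simpa using h0 z hz⟩
  | succ M ih =>
    set e := Z.orderEmbOfFin hZ with he
    have hmem : ∀ i, e i ∈ Z := fun i => Z.orderEmbOfFin_mem hZ i
    have hex : ∀ i : Fin (M + 1), ∃ c ∈ Set.Ioo (e i.castSucc) (e i.succ),
        (derivative f).eval c = 0 := by
      intro i
      have hlt : e i.castSucc < e i.succ := e.strictMono (Fin.castSucc_lt_succ)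
      obtain ⟨c, hc, hd⟩ := exists_deriv_eq_zero (f := fun t => f.eval t) hlt
        f.continuous.continuousOn (by rw [h0 _ (hmem _), h0 _ (hmem _)])
      exact ⟨c, hc, by simpa using hd⟩
    choose c hc hd using hex
    have hmono : StrictMono c := by
      intro i j hij
      have h1 : e i.succ ≤ e j.castSucc := e.monotone (by
        rw [Fin.le_def]
        simp only [Fin.val_succ, Fin.val_castSucc]
        exact hij)
      exact (hc i).2.trans_le (h1.trans (hc j).1.le)
    obtain ⟨x0, hx0, hx⟩ := ih (derivative f) (Finset.univ.image c)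
      (by rw [Finset.card_image_of_injective _ hmono.injective]; simp)
      (by
        intro z hz
        obtain ⟨i, -, rfl⟩ := Finset.mem_image.1 hz
        exact ⟨(hZI _ (hmem i.castSucc)).1.trans (hc i).1.le,
          (hc i).2.le.trans (hZI _ (hmem i.succ)).2⟩)
      (by
        intro z hz
        obtain ⟨i, -, rfl⟩ := Finset.mem_image.1 hz
        exact hd i)
    exact ⟨x0, hx0, by rw [Function.iterate_succ_apply]; exact hx⟩

private theorem BN1_tc_top {V : ℝ[X]} {M : ℕ} (hV : V.natDegree ≤ M) (x : ℝ) :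
    tc V M x = V.coeff M := by
  have h1 : hasseDeriv M V = C (V.coeff M) := by
    ext j
    rw [hasseDeriv_coeff, coeff_C]
    rcases Nat.eq_zero_or_pos j with hj | hj
    · subst hj
      simp
    · rw [if_neg hj.ne', coeff_eq_zero_of_natDegree_lt (by omega), mul_zero]
  unfold tc
  rw [h1, eval_C]

/-- the quotient by the node `b` -/
private theorem BN1_split {F : ℝ[X]} {b : ℝ} (N : ℕ) (hF : F.eval b = 0) :
    F = (X - C b) * ((∑ j ∈ range N, C (tc F (j + 1) b) * (X - C b) ^ j) +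
      (X - C b) ^ N * aP (N + 1) F b 0) := by
  have h1 := aP_taylor (N + 1) F b
  rw [Finset.sum_range_succ'] at h1
  rw [tc_zero, hF] at h1
  conv_lhs => rw [h1]
  rw [mul_add, Finset.mul_sum]
  congr 1
  · rw [map_zero, zero_mul, add_zero]
    refine Finset.sum_congr rfl fun j _ => ?_
    ring
  · ring

private theorem BN1_deg (F : ℝ[X]) (b : ℝ) (M : ℕ) :
    (∑ j ∈ range (M + 1), C (tc F (j + 1) b) * (X - C b) ^ j).natDegree ≤ M := by
  apply natDegree_sum_le_of_forall_le
  intro j hj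
  rw [Finset.mem_range] at hj
  refine (natDegree_C_mul_le _ _).trans ?_
  rw [natDegree_pow, natDegree_X_sub_C]
  omega

theorem tc_h_top {A B : ℝ} {Y : Finset ℝ} {F G h : ℝ[X]} {b : ℝ}
    (hY : ∀ y ∈ Y, y ∈ Set.Icc A B) (hF : Cone A B Y F) (hG : Cone A B Y G)
    (hh : F * G = nod Y * h) (hb : b ∈ Y) (hbY : ∀ y ∈ Y, y ≤ b) :
    0 ≤ tc h (Y.card - 1) b := by
  have hXb : (X - C b : ℝ[X]) ≠ 0 := X_sub_C_ne_zero b
  have hcard := Finset.card_erase_of_mem hb
  have hpos : 0 < Y.card := Finset.card_pos.mpr ⟨b, hb⟩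
  obtain ⟨N, hN⟩ : ∃ N, Y.card = N + 1 := ⟨Y.card - 1, by omega⟩
  have hZcard : (Y.erase b).card = N := by rw [hcard, hN]; rfl
  rw [hN, Nat.add_sub_cancel]
  set a : ℕ → ℝ[X] := aP (N + 1) F b with ha
  set b' : ℕ → ℝ[X] := aP (N + 1) G b with hb'
  set TF : ℝ[X] := ∑ j ∈ range N, C (tc F (j + 1) b) * (X - C b) ^ j with hTF
  set TG : ℝ[X] := ∑ j ∈ range N, C (tc G (j + 1) b) * (X - C b) ^ j with hTG
  have hFs : F = (X - C b) * (TF + (X - C b) ^ N * a 0) := BN1_split N (hF.zero b hb)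
  have hGs : G = (X - C b) * (TG + (X - C b) ^ N * b' 0) := BN1_split N (hG.zero b hb)
  have hh1 : (X - C b) * ((TF + (X - C b) ^ N * a 0) * (TG + (X - C b) ^ N * b' 0)) =
      nod (Y.erase b) * h := by
    apply mul_left_cancel₀ hXb
    calc _ = ((X - C b) * (TF + (X - C b) ^ N * a 0)) *
        ((X - C b) * (TG + (X - C b) ^ N * b' 0)) := by ring
      _ = F * G := by rw [← hFs, ← hGs]
      _ = nod Y * h := hh
      _ = _ := by rw [nod_erase hb]; ring
  rcases Nat.eq_zero_or_pos N with hN0 | hNpos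
  · subst hN0
    have h1 : Y.erase b = ∅ := Finset.card_eq_zero.1 hZcard
    have h2 : nod (Y.erase b) = 1 := by rw [h1]; simp [nod]
    rw [h2, one_mul] at hh1
    rw [← hh1, tc_X_sub_C_mul_zero]
    simp
  obtain ⟨M, hM⟩ : ∃ M, N = M + 1 := ⟨N - 1, by omega⟩
  subst hM
  set Z := Y.erase b with hZ
  set f0 : ℝ[X] := -((X - C b) ^ (M + 1) * (a 0 * b' 0)) with hf0
  set V : ℝ[X] := Lagrange.interpolate Z id (fun y => f0.eval y) with hV
  have hinj : Set.InjOn (id : ℝ → ℝ) (Z : Set ℝ) := Set.injOn_id _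
  have hVdeg : V.degree < (Z.card : ℕ) := Lagrange.degree_interpolate_lt _ hinj
  have hVnat : V.natDegree ≤ M := by
    rw [hZcard] at hVdeg
    have h1 : V.degree ≤ (M : ℕ) := by
      by_cases hV0 : V = 0
      · rw [hV0, degree_zero]; exact bot_le
      · rw [degree_eq_natDegree hV0] at hVdeg ⊢
        have h2 : V.natDegree < M + 1 := by exact_mod_cast hVdeg
        have h3 : V.natDegree ≤ M := by omega
        exact_mod_cast h3
    exact natDegree_le_of_degree_le h1
  have hVev : ∀ y ∈ Z, V.eval y = f0.eval y := fun y hy =>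
    Lagrange.eval_interpolate_at_node (v := id) (fun y => f0.eval y) hinj hy
  have hZne : ∀ y ∈ Z, y - b ≠ 0 := fun y hy => sub_ne_zero.2 (Finset.ne_of_mem_erase hy)
  have hFy : ∀ y ∈ Z, TF.eval y = -((y - b) ^ (M + 1) * (a 0).eval y) := by
    intro y hy
    have h1 := hF.zero y (Finset.mem_of_mem_erase hy)
    rw [hFs] at h1
    simp only [eval_mul, eval_sub, eval_X, eval_C, eval_add, eval_pow] at h1
    rcases mul_eq_zero.1 h1 with h2 | h2
    · exact absurd h2 (hZne y hy)
    · linarith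
  have hGy : ∀ y ∈ Z, TG.eval y = -((y - b) ^ (M + 1) * (b' 0).eval y) := by
    intro y hy
    have h1 := hG.zero y (Finset.mem_of_mem_erase hy)
    rw [hGs] at h1
    simp only [eval_mul, eval_sub, eval_X, eval_C, eval_add, eval_pow] at h1
    rcases mul_eq_zero.1 h1 with h2 | h2
    · exact absurd h2 (hZne y hy)
    · linarith
  obtain ⟨c, hc⟩ : nod Z ∣ TF * TG + (X - C b) ^ (M + 1) * V := by
    apply nod_dvd
    intro y hy
    have h1 := hVev y hy
    rw [hf0] at h1
    simp only [eval_neg, eval_mul, eval_sub, eval_X, eval_C, eval_add, eval_pow] at h1 ⊢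
    rw [hFy y hy, hGy y hy, h1]
    ring
  have hTFd : TF.natDegree ≤ M := BN1_deg F b M
  have hTGd : TG.natDegree ≤ M := BN1_deg G b M
  have hpow : ((X - C b : ℝ[X]) ^ (M + 1)).natDegree ≤ M + 1 := by
    rw [natDegree_pow, natDegree_X_sub_C, mul_one]
  have hEd : (TF * TG + (X - C b) ^ (M + 1) * V).natDegree ≤ M + 1 + M := by
    apply natDegree_add_le_of_degree_le
    · exact natDegree_mul_le.trans (by omega)
    · exact natDegree_mul_le.trans (by omega)
  have hcd : c.natDegree ≤ M := by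
    by_cases hc0 : c = 0
    · rw [hc0]; simp
    · rw [hc, natDegree_mul (nod_monic Z).ne_zero hc0, nod_natDegree, hZcard] at hEd
      omega
  have hcoef : c.coeff M = V.coeff M := by
    have h1 := congrArg (fun q => q.coeff (M + 1 + M)) hc
    simp only [coeff_add] at h1
    rw [coeff_mul_add_eq_of_natDegree_le hpow hVnat,
      coeff_mul_add_eq_of_natDegree_le (by rw [nod_natDegree, hZcard]) hcd,
      coeff_eq_zero_of_natDegree_lt (natDegree_mul_le.trans_lt (by omega))] at h1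
    have h2 : (nod Z).coeff (M + 1) = 1 := by
      have := (nod_monic Z).coeff_natDegree
      rwa [nod_natDegree, hZcard] at this
    have h3 : ((X - C b : ℝ[X]) ^ (M + 1)).coeff (M + 1) = 1 := by
      have h4 := (monic_X_sub_C b).pow (M + 1)
      have h5 := h4.coeff_natDegree
      rwa [natDegree_pow, natDegree_X_sub_C, mul_one] at h5
    rw [h2, h3, one_mul, one_mul, zero_add] at h1
    exact h1.symm
  have hprod : nod Z * (h - (X - C b) * c) = (X - C b) ^ (M + 1 + 1) *
      (TF * b' 0 + TG * a 0 + (X - C b) ^ (M + 1) * (a 0 * b' 0) - V) := by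
    calc _ = nod Z * h - (X - C b) * (nod Z * c) := by ring
      _ = _ := by rw [← hh1, ← hc]; ring
  have hcop : IsCoprime ((X - C b) ^ (M + 1 + 1)) (nod Z) := by
    apply IsCoprime.pow_left
    rw [(irreducible_X_sub_C b).coprime_iff_not_dvd, dvd_iff_isRoot]
    intro h1
    exact nod_eval_ne (Finset.notMem_erase b Y) h1
  obtain ⟨D, hD⟩ : (X - C b) ^ (M + 1 + 1) ∣ h - (X - C b) * c := by
    apply hcop.dvd_of_dvd_mul_left
    rw [hprod]
    exact dvd_mul_right _ _
  have htc : tc h (M + 1) b = V.coeff M := by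
    have h1 : tc (h - (X - C b) * c) (M + 1) b = 0 := by
      rw [hD]
      have h2 : (X - C b) ^ (M + 1 + 1) * D = (X - C b) ^ (M + 1) * ((X - C b) * D) := by ring
      have h3 := tc_pow_shift ((X - C b) * D) b (M + 1) 0
      rw [zero_add] at h3
      rw [h2, h3, tc_X_sub_C_mul_zero, sub_self, zero_mul]
    rw [tc_sub, tc_shift, BN1_tc_top hcd, hcoef] at h1
    linarith
  rw [htc]
  obtain ⟨x0, hx0, hroll⟩ := rolle_poly M (f0 - V) Z hZcard (A' := A) (B' := b)
    (fun z hz => ⟨(hY z (Finset.mem_of_mem_erase hz)).1, hbY z (Finset.mem_of_mem_erase hz)⟩)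
    (fun z hz => by rw [eval_sub, hVev z hz, sub_self])
  have hx0' : x0 ∈ Set.Icc A B := ⟨hx0.1, hx0.2.trans (hY b hb).2⟩
  have h1 : dv f0 M x0 = dv V M x0 := by
    have h2 : dv (f0 - V) M x0 = 0 := hroll
    rw [dv_sub] at h2
    linarith
  rw [← tc_dv V, BN1_tc_top hVnat] at h1
  have h2 : dv f0 M x0 = (b - x0) * ((M.factorial : ℝ) *
      ∑ ij ∈ antidiagonal M, (a ij.1).eval x0 * (b' ij.2).eval x0) := by
    have h3 := theta_calc b a b' (fun i => aP_ode (M + 1 + 1) F b i)
      (fun i => aP_ode (M + 1 + 1) G b i) M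
    unfold dv
    rw [hf0, iterate_derivative_neg, h3, eval_neg]
    simp only [eval_mul, eval_sub, eval_X, eval_C, eval_finsetSum]
    ring
  have h3 : 0 ≤ dv f0 M x0 := by
    rw [h2]
    apply mul_nonneg (by linarith [hx0.2])
    apply mul_nonneg (by positivity)
    apply Finset.sum_nonneg
    intro ij hij
    have hij2 : ij.1 + ij.2 = M := mem_antidiagonal.1 hij
    have hFp : ∀ x ∈ Set.Icc A B, 0 ≤ dv F (M + 1 + 1) x := by
      intro x hx
      have := hF.pos x hx
      rwa [hN] at this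
    have hGp : ∀ x ∈ Set.Icc A B, 0 ≤ dv G (M + 1 + 1) x := by
      intro x hx
      have := hG.pos x hx
      rwa [hN] at this
    exact mul_nonneg (aP_nonneg (hY b hb) hFp (by omega) x0 hx0')
      (aP_nonneg (hY b hb) hGp (by omega) x0 hx0')
  rw [h1] at h3
  have h4 : (0 : ℝ) < (M.factorial : ℝ) := by positivity
  exact (mul_nonneg_iff_of_pos_left h4).1 h3

end Pool.Agent.LPW
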