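import Pool.Agent.LPW.BN1

/-!
# LPW / BN2: all Taylor coefficients of `h` at the last and at the first node

`tc_h_last`: let `b = max Y`, `j + 1 ≤ n = |Y|`.  Induction on `n`.  If `j = n-1`: `tc_h_top`.  If
`j ≤ n-2`, then there is a node `a ≠ b` (`a < b`); `F = (X-a) Fa`, `G = (X-a) Ga` with `Fa, Ga` in the cone
of `Y.erase a` (`exists_div`, `cone_div`), `Fa Ga = nod (Y.erase a) * ha` (`exists_h`).  Then
`nod Y * h = F G = (X-a)^2 nod (Y.erase a) ha = (X-a) nod Y ha`, so `h = (X-a) ha`, and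
`tc h j b = (b-a) tc ha j b + tc ha (j-1) b` (only the first term for `j = 0`;
`tc_X_sub_C_mul_succ`, `tc_X_sub_C_mul_zero`), both `≥ 0` by induction: `j + 1 ≤ n - 1`.

`tc_h_first`: reflection.  With `a = min Y`, `F' = rfl' n F`, `G' = rfl' n G`, `h' = rfl' n h`
(`n = |Y|`), `Y' = Y.image (-·)`: `F' G' = nod Y' * h'` (`nod_refl`; `(-1)^(2n) = 1`), cones by
`cone_refl`; `tc_h_last` at `-a = max Y'` gives `0 ≤ tc h' j (-a) = (-1)^(n+j) tc h j a` (`tc_refl`).
-/

set_option autoImplicit false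

open Polynomial Finset

namespace Pool.Agent.LPW

private theorem BN2_last {A B : ℝ} (n : ℕ) : ∀ (Y : Finset ℝ) (F G h : ℝ[X]) (b : ℝ) (j : ℕ),
    Y.card = n → (∀ y ∈ Y, y ∈ Set.Icc A B) → Cone A B Y F → Cone A B Y G →
    F * G = nod Y * h → b ∈ Y → (∀ y ∈ Y, y ≤ b) → j + 1 ≤ Y.card → 0 ≤ tc h j b := by
  induction n with
  | zero =>
    intro Y F G h b j hn _ _ _ _ _ _ hj
    omega
  | succ n ih =>
    intro Y F G h b j hn hY hF hG hh hb hbY hj
    by_cases hjt : j + 1 = Y.card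
    · have h1 := tc_h_top hY hF hG hh hb hbY
      rw [← hjt, Nat.add_sub_cancel] at h1
      exact h1
    · have hc : 1 < Y.card := by omega
      obtain ⟨a, ha, hab⟩ := Finset.exists_mem_ne hc b
      obtain ⟨Fa, hFa⟩ := exists_div (hF.zero a ha)
      obtain ⟨Ga, hGa⟩ := exists_div (hG.zero a ha)
      have cF := cone_div hF ha (hY a ha) hFa
      have cG := cone_div hG ha (hY a ha) hGa
      obtain ⟨ha', hha⟩ := exists_h Ga cF
      have hhe : h = (X - C a) * ha' := by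
        apply mul_left_cancel₀ (nod_monic Y).ne_zero
        rw [← hh, nod_erase ha, hFa, hGa]
        linear_combination (X - C a) * (X - C a) * hha
      have hcard : (Y.erase a).card = n := by
        rw [Finset.card_erase_of_mem ha, hn]
        rfl
      have hbe : b ∈ Y.erase a := Finset.mem_erase.2 ⟨hab.symm, hb⟩
      have hrec : ∀ i, i + 1 ≤ (Y.erase a).card → 0 ≤ tc ha' i b := fun i hi =>
        ih (Y.erase a) Fa Ga ha' b i hcard (fun y hy => hY y (Finset.mem_of_mem_erase hy)) cF cG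
          hha hbe (fun y hy => hbY y (Finset.mem_of_mem_erase hy)) hi
      have hba : 0 ≤ b - a := sub_nonneg.2 (hbY a ha)
      rw [hhe]
      cases j with
      | zero =>
        rw [tc_X_sub_C_mul_zero]
        exact mul_nonneg hba (hrec 0 (by omega))
      | succ j =>
        rw [tc_X_sub_C_mul_succ]
        exact add_nonneg (mul_nonneg hba (hrec (j + 1) (by omega))) (hrec j (by omega))

theorem tc_h_last {A B : ℝ} {Y : Finset ℝ} {F G h : ℝ[X]} {b : ℝ}
    (hY : ∀ y ∈ Y, y ∈ Set.Icc A B) (hF : Cone A B Y F) (hG : Cone A B Y G)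
    (hh : F * G = nod Y * h) (hb : b ∈ Y) (hbY : ∀ y ∈ Y, y ≤ b) {j : ℕ}
    (hj : j + 1 ≤ Y.card) : 0 ≤ tc h j b :=
  BN2_last Y.card Y F G h b j rfl hY hF hG hh hb hbY hj

theorem tc_h_first {A B : ℝ} {Y : Finset ℝ} {F G h : ℝ[X]} {a : ℝ}
    (hY : ∀ y ∈ Y, y ∈ Set.Icc A B) (hF : Cone A B Y F) (hG : Cone A B Y G)
    (hh : F * G = nod Y * h) (ha : a ∈ Y) (haY : ∀ y ∈ Y, a ≤ y) {j : ℕ}
    (hj : j + 1 ≤ Y.card) : 0 ≤ (-1 : ℝ) ^ (Y.card + j) * tc h j a := by
  have hcard : (Y.image (fun y => -y)).card = Y.card :=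
    Finset.card_image_of_injective _ neg_injective
  have hh' : rfl' Y.card F * rfl' Y.card G = nod (Y.image (fun y => -y)) * rfl' Y.card h := by
    rw [← nod_refl]
    unfold rfl'
    have h1 : F.comp (-X) * G.comp (-X) = (nod Y).comp (-X) * h.comp (-X) := by
      rw [← Polynomial.mul_comp, hh, Polynomial.mul_comp]
    linear_combination (C ((-1 : ℝ) ^ Y.card) * C ((-1 : ℝ) ^ Y.card)) * h1
  have h2 := tc_h_last (A := -B) (B := -A) (Y := Y.image (fun y => -y)) (b := -a) (j := j)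
    (by
      intro y hy
      obtain ⟨z, hz, rfl⟩ := Finset.mem_image.1 hy
      exact ⟨neg_le_neg (hY z hz).2, neg_le_neg (hY z hz).1⟩)
    (cone_refl hF) (cone_refl hG) hh' (Finset.mem_image.2 ⟨a, ha, rfl⟩)
    (by
      intro y hy
      obtain ⟨z, hz, rfl⟩ := Finset.mem_image.1 hy
      exact neg_le_neg (haY z hz)) (by rw [hcard]; exact hj)
  rw [tc_refl, neg_neg] at h2
  exact h2

end Pool.Agent.LPW
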