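import Pool.Agent.LPW.CFR
import Pool.Agent.LPW.CNE

/-!
# LPW / CFB: removing the first node

Let `ξ = min Y`, `F = (X-ξ) F1`, `G = (X-ξ) G1`; `F1, G1` are in the cone of `Y.erase ξ` on `[ξ,B]`
(`cone_div`).
1. For all `k'` and `r'` (with `F^(j)` the derivatives):
   `int_ξ^B (x-ξ)^r' F^(k') G^(k') dx = int_ξ^B [(x-ξ)^(r'+2) F1^(k') G1^(k')
      + k' (k'-1-r') (x-ξ)^r' F1^(k'-1) G1^(k'-1)] dx + k' (B-ξ)^(r'+1) F1^(k'-1)(B) G1^(k'-1)(B)`.
   Proof: `F^(k') = (X-ξ) F1^(k') + k' F1^(k'-1)`, so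
   `F^(k') G^(k') = (X-ξ)^2 F1^(k') G1^(k') + k' (X-ξ) (F1^(k'-1) G1^(k'-1))' + k'^2 F1^(k'-1) G1^(k'-1)`,
   and `int_ξ^B (x-ξ)^(r'+1) P'(x) dx = (B-ξ)^(r'+1) P(B) - (r'+1) int_ξ^B (x-ξ)^r' P(x) dx`
   (fundamental theorem of calculus for the polynomial `(X-ξ)^(r'+1) P`).  For `k' = 0` only the first
   term is present.
2. Multiply by `cfc i k r l ≥ 0` (`cfc_nonneg`, `r + i ≤ k`) with `k' = k - l`, `r' = r + 2(i-l)`,
   `l ≤ min(i,k)`, and sum.  The boundary terms are `≥ 0`: `F1^(k'-1)(B), G1^(k'-1)(B) ≥ 0` by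
   `cone_right` (`k' - 1 ≤ |Y| - 1`).  The integrals sum to the integral of `Cf F1 G1 ξ (i+1) k r` by
   `cfc_rem` (the coefficient of index `l+1` comes from the first term with index `l+1` and the second
   term with index `l`; index `0` : `cfc_zero`).  For `l > k` the coefficients vanish (`cfc_eq_zero`).
-/

set_option autoImplicit false

open Polynomial Finset MeasureTheory

namespace Pool.Agent.LPW

private noncomputable def cfbI (A B : ℝ) (g : ℝ[X]) (s : ℕ) (c : ℝ) : ℝ :=
  ∫ x in A..B, (x - c) ^ s * g.eval x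

private theorem cfbI_ii (A B : ℝ) (g : ℝ[X]) (s : ℕ) (c : ℝ) :
    IntervalIntegrable (fun x => (x - c) ^ s * g.eval x) volume A B := by
  apply Continuous.intervalIntegrable
  have := g.continuous
  fun_prop

private theorem cfbI_add (A B : ℝ) (g h : ℝ[X]) (s : ℕ) (c : ℝ) :
    cfbI A B (g + h) s c = cfbI A B g s c + cfbI A B h s c := by
  unfold cfbI
  rw [← intervalIntegral.integral_add (cfbI_ii A B g s c) (cfbI_ii A B h s c)]
  congr 1
  ext x
  simp only [eval_add]
  ring

private theorem cfbI_C (A B a : ℝ) (g : ℝ[X]) (s : ℕ) (c : ℝ) :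
    cfbI A B (C a * g) s c = a * cfbI A B g s c := by
  unfold cfbI
  rw [← intervalIntegral.integral_const_mul]
  congr 1
  ext x
  simp only [eval_mul, eval_C]
  ring

private theorem cfbI_mul (A B : ℝ) (g : ℝ[X]) (s : ℕ) (c : ℝ) :
    cfbI A B ((X - C c) * g) s c = cfbI A B g (s + 1) c := by
  unfold cfbI
  congr 1
  ext x
  simp only [eval_mul, eval_sub, eval_X, eval_C]
  ring

/-- integration by parts -/
private theorem cfbI_ibp (B : ℝ) (g : ℝ[X]) (s : ℕ) (c : ℝ) :
    cfbI c B (derivative g) (s + 1) c =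
      (B - c) ^ (s + 1) * g.eval B - ((s : ℝ) + 1) * cfbI c B g s c := by
  have h1 : ∫ x in c..B, ((x - c) ^ (s + 1) * (derivative g).eval x +
      ((s : ℝ) + 1) * ((x - c) ^ s * g.eval x)) = (B - c) ^ (s + 1) * g.eval B := by
    have h2 : ∀ x ∈ Set.uIcc c B, HasDerivAt (fun x => (x - c) ^ (s + 1) * g.eval x)
        ((x - c) ^ (s + 1) * (derivative g).eval x +
          ((s : ℝ) + 1) * ((x - c) ^ s * g.eval x)) x := by
      intro x _
      have h3 := ((((hasDerivAt_id x).sub_const c).pow (s + 1))).mul (g.hasDerivAt x)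
      refine h3.congr_deriv ?_
      simp only [id, Nat.add_sub_cancel, Pi.pow_apply]
      push_cast
      ring
    rw [intervalIntegral.integral_eq_sub_of_hasDerivAt h2
      ((cfbI_ii c B (derivative g) (s + 1) c).add ((cfbI_ii c B g s c).const_mul _))]
    simp
  rw [intervalIntegral.integral_add (cfbI_ii c B (derivative g) (s + 1) c)
    ((cfbI_ii c B g s c).const_mul _), intervalIntegral.integral_const_mul] at h1
  unfold cfbI
  linarith

private theorem cfb_iter (F1 : ℝ[X]) (ξ : ℝ) (k : ℕ) :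
    derivative^[k] ((X - C ξ) * F1) =
      (X - C ξ) * derivative^[k] F1 + C (k : ℝ) * derivative^[k - 1] F1 := by
  induction k with
  | zero => simp
  | succ k ih =>
    rw [Function.iterate_succ_apply', ih]
    simp only [derivative_add, derivative_mul, derivative_sub, derivative_X, derivative_C,
      sub_zero, one_mul, zero_mul, zero_add, Nat.add_sub_cancel]
    rcases k with _ | k
    · simp
      ring
    · rw [← Function.iterate_succ_apply' derivative, ← Function.iterate_succ_apply' derivative]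
      simp only [Nat.add_sub_cancel]
      push_cast
      simp only [map_add, C_1]
      ring

/-- step 1 -/
private theorem cfb_step (B ξ : ℝ) (F1 G1 : ℝ[X]) (k s : ℕ) :
    cfbI ξ B (derivative^[k] ((X - C ξ) * F1) * derivative^[k] ((X - C ξ) * G1)) s ξ =
      cfbI ξ B (derivative^[k] F1 * derivative^[k] G1) (s + 2) ξ +
      (k : ℝ) * ((k : ℝ) - 1 - s) * cfbI ξ B (derivative^[k - 1] F1 * derivative^[k - 1] G1) s ξ +
      (k : ℝ) * ((B - ξ) ^ (s + 1) *
        ((derivative^[k - 1] F1).eval B * (derivative^[k - 1] G1).eval B)) := by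
  rw [cfb_iter, cfb_iter]
  rcases k with _ | k
  · simp only [Function.iterate_zero, id, Nat.cast_zero, map_zero, zero_mul, add_zero]
    rw [show (X - C ξ) * F1 * ((X - C ξ) * G1) = (X - C ξ) * ((X - C ξ) * (F1 * G1)) by ring,
      cfbI_mul, cfbI_mul]
  · simp only [Nat.add_sub_cancel]
    have h1 : ((X - C ξ) * derivative^[k + 1] F1 + C ((k + 1 : ℕ) : ℝ) * derivative^[k] F1) *
        ((X - C ξ) * derivative^[k + 1] G1 + C ((k + 1 : ℕ) : ℝ) * derivative^[k] G1) =
        (X - C ξ) * ((X - C ξ) * (derivative^[k + 1] F1 * derivative^[k + 1] G1)) +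
        (C ((k + 1 : ℕ) : ℝ) * ((X - C ξ) * derivative (derivative^[k] F1 * derivative^[k] G1)) +
        C ((((k + 1 : ℕ) : ℝ)) ^ 2) * (derivative^[k] F1 * derivative^[k] G1)) := by
      rw [derivative_mul, ← Function.iterate_succ_apply' derivative,
        ← Function.iterate_succ_apply' derivative]
      simp only [map_pow]
      ring
    rw [h1, cfbI_add, cfbI_add, cfbI_mul, cfbI_mul, cfbI_C, cfbI_C, cfbI_mul, cfbI_ibp]
    simp only [eval_mul]
    push_cast
    ring

private theorem cfb_int (A B c : ℝ) (F G : ℝ[X]) (i k r : ℕ) :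
    ∫ x in A..B, (Cf F G c i k r).eval x = ∑ l ∈ range (i + 1), cfc i k r l *
      cfbI A B (derivative^[k - l] F * derivative^[k - l] G) (r + 2 * (i - l)) c := by
  unfold Cf cfbI
  simp only [eval_finsetSum, eval_mul, eval_C, eval_pow, eval_sub, eval_X]
  rw [intervalIntegral.integral_finsetSum]
  · refine Finset.sum_congr rfl fun l _ => ?_
    rw [← intervalIntegral.integral_const_mul]
    congr 1
    ext x
    ring
  · intro l _
    apply Continuous.intervalIntegrable
    have h1 := (derivative^[k - l] F).continuous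
    have h2 := (derivative^[k - l] G).continuous
    fun_prop

theorem Cf_remove {ξ B : ℝ} {Y : Finset ℝ} {F G F1 G1 : ℝ[X]} (hξB : ξ ≤ B)
    (hY : ∀ y ∈ Y, y ∈ Set.Icc ξ B) (hξ : ξ ∈ Y) (hF : Cone ξ B Y F) (hG : Cone ξ B Y G)
    (hF1 : F = (X - C ξ) * F1) (hG1 : G = (X - C ξ) * G1) {i k r : ℕ} (hrk : r + i ≤ k)
    (hkn : k ≤ Y.card) :
    ∫ x in ξ..B, (Cf F1 G1 ξ (i + 1) k r).eval x ≤ ∫ x in ξ..B, (Cf F G ξ i k r).eval x := by
  have hcF := cone_div hF hξ ⟨le_rfl, hξB⟩ hF1
  have hcG := cone_div hG hξ ⟨le_rfl, hξB⟩ hG1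
  have hYe : ∀ y ∈ Y.erase ξ, y ∈ Set.Icc ξ B := fun y hy => hY y (Finset.mem_of_mem_erase hy)
  have hcard : (Y.erase ξ).card = Y.card - 1 := Finset.card_erase_of_mem hξ
  rw [cfb_int, cfb_int, hF1, hG1]
  have hb : ∀ l ∈ range (i + 1), 0 ≤ cfc i k r l * (((k - l : ℕ) : ℝ) *
      ((B - ξ) ^ (r + 2 * (i - l) + 1) *
        ((derivative^[k - l - 1] F1).eval B * (derivative^[k - l - 1] G1).eval B))) := by
    intro l _
    have h1 : 0 ≤ (derivative^[k - l - 1] F1).eval B :=
      cone_right hYe hcF ⟨hξB, le_rfl⟩ (fun y hy => (hYe y hy).2) (q := k - l - 1) (by omega)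
    have h2 : 0 ≤ (derivative^[k - l - 1] G1).eval B :=
      cone_right hYe hcG ⟨hξB, le_rfl⟩ (fun y hy => (hYe y hy).2) (q := k - l - 1) (by omega)
    have h3 : 0 ≤ B - ξ := by linarith
    have h4 := cfc_nonneg l hrk
    positivity
  have hsum : (∑ l ∈ range (i + 1), cfc i k r l *
      cfbI ξ B (derivative^[k - l] ((X - C ξ) * F1) * derivative^[k - l] ((X - C ξ) * G1))
        (r + 2 * (i - l)) ξ) =
      (∑ l ∈ range (i + 1 + 1), cfc (i + 1) k r l *
        cfbI ξ B (derivative^[k - l] F1 * derivative^[k - l] G1) (r + 2 * (i + 1 - l)) ξ) +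
      ∑ l ∈ range (i + 1), cfc i k r l * (((k - l : ℕ) : ℝ) *
      ((B - ξ) ^ (r + 2 * (i - l) + 1) *
        ((derivative^[k - l - 1] F1).eval B * (derivative^[k - l - 1] G1).eval B))) := by
    simp only [cfb_step, mul_add, Finset.sum_add_distrib]
    congr 1
    rw [Finset.sum_range_succ' _ (i + 1)]
    have e1 : (∑ l ∈ range (i + 1), cfc i k r l *
        cfbI ξ B (derivative^[k - l] F1 * derivative^[k - l] G1) (r + 2 * (i - l) + 2) ξ) =
        (∑ l ∈ range (i + 1), cfc i k r (l + 1) *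
        cfbI ξ B (derivative^[k - (l + 1)] F1 * derivative^[k - (l + 1)] G1)
          (r + 2 * (i + 1 - (l + 1))) ξ) +
        cfc (i + 1) k r 0 *
        cfbI ξ B (derivative^[k - 0] F1 * derivative^[k - 0] G1) (r + 2 * (i + 1 - 0)) ξ := by
      rw [Finset.sum_range_succ', Finset.sum_range_succ _ i,
        cfc_eq_zero (i := i) (l := i + 1) (Or.inl (by omega)), cfc_zero, cfc_zero]
      simp only [zero_mul, add_zero]
      congr 1
      refine Finset.sum_congr rfl fun l hl => ?_
      have hl' : l < i := Finset.mem_range.1 hl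
      have : r + 2 * (i - (l + 1)) + 2 = r + 2 * (i + 1 - (l + 1)) := by omega
      rw [this]
    rw [e1, add_right_comm, ← Finset.sum_add_distrib]
    congr 1
    refine Finset.sum_congr rfl fun l hl => ?_
    have hl' : l ≤ i := by
      have := Finset.mem_range.1 hl
      omega
    have e2 : r + 2 * (i + 1 - (l + 1)) = r + 2 * (i - l) := by omega
    have e3 : k - (l + 1) = k - l - 1 := by omega
    rw [e2, e3, cfc_rem, Nat.cast_sub (by omega : l ≤ k)]
    push_cast [Nat.cast_sub hl']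
    ring
  rw [hsum]
  linarith [Finset.sum_nonneg hb]

end Pool.Agent.LPW
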