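import Pool.Agent.LPW.CNE

/-!
# LPW / CFD: the base case of Part I (`|Y| = k + 1`)

Induction on `k`, for all intervals, node sets and weights.
* `k = 0`: `|Y| = 1`; `F(x) G(x) ≥ 0` on `[A,B]` (`cone_mul_nonneg`) and `wt ≥ 0`.
* `k ≥ 1`: let `b = max Y`, `F = (X-b) F1`, `G = (X-b) G1`, `F1, G1` in the cone of `Y1 = Y.erase b`,
  `|Y1| = k` (`exists_div`, `cone_div`; also on the smaller interval `[A,b]`, `cone_mono`).
  1. `int_A^B ≥ int_A^b`: on `[b,B]`, `dv F k x, dv G k x ≥ 0` (`cone_right`, `k ≤ |Y|`), `wt ≥ 0`.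
  2. Put `P = F1^(k-1) G1^(k-1)`.  `F^(k) = -(b-X) F1^(k) + k F1^(k-1)`, so
     `F^(k) G^(k) = (b-X)^2 F1^(k) G1^(k) - k (b-X) P' + k^2 P`.
     `F1^(k), G1^(k) ≥ 0` on `[A,B]` (`Cone.pos`, `|Y1| = k`), so the first term contributes `≥ 0`.
     `- k int_A^b wt (b-x) P' dx = k wt(A) (b-A) P(A) + k int_A^b (wt' (b-x) - wt) P dx` (fundamental theorem
     for the polynomial `wt (b-X) P`), and `P(A) ≥ 0`: `A` is left of all nodes, `cone_left` with
     `q = k-1` for `F1` and `G1` (product of two equal signs).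
  3. Hence `int_A^B wt F^(k) G^(k) ≥ int_A^b wt1 P`, `wt1 = k(k-1) wt + k (b-X) wt'`.  The weight `wt1`
     satisfies the hypothesis for `k-1` on `[A,b]`: its derivative of order `j ≤ k-1` is
     `k(k-1-j) wt^(j) + k (b-X) wt^(j+1) ≥ 0`.  Apply the induction hypothesis to `Y1`, `F1`, `G1`,
     `[A,b]`.
-/

set_option autoImplicit false

open Polynomial Finset MeasureTheory

namespace Pool.Agent.LPW

private theorem CFD_ii (p : ℝ[X]) (a b : ℝ) :
    IntervalIntegrable (fun x => p.eval x) volume a b :=
  p.continuous.intervalIntegrable a b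

theorem base_nonneg (k : ℕ) : ∀ (A B : ℝ), A ≤ B → ∀ (Y : Finset ℝ), Y.card = k + 1 →
    (∀ y ∈ Y, y ∈ Set.Icc A B) → ∀ (F G : ℝ[X]), Cone A B Y F → Cone A B Y G →
    ∀ (wt : ℝ[X]), (∀ j ≤ k, ∀ x ∈ Set.Icc A B, 0 ≤ dv wt j x) →
      0 ≤ ∫ x in A..B, (wt * (derivative^[k] F * derivative^[k] G)).eval x := by
  induction k with
  | zero =>
    intro A B hAB Y hcard hY F G hF hG wt hwt
    refine intervalIntegral.integral_nonneg hAB fun x hx => ?_
    have h1 := hwt 0 le_rfl x hx
    rw [dv_zero] at h1
    have h2 := cone_mul_nonneg hY hF hG hx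
    simp only [Function.iterate_zero, id_eq, eval_mul]
    exact mul_nonneg h1 h2
  | succ k ih =>
    intro A B hAB Y hcard hY F G hF hG wt hwt
    have hne : Y.Nonempty := by
      rw [← Finset.card_pos]; omega
    set b : ℝ := Y.max' hne with hb
    have hbY : b ∈ Y := Finset.max'_mem Y hne
    have hbI := hY b hbY
    have hmax : ∀ y ∈ Y, y ≤ b := fun y hy => Finset.le_max' Y y hy
    obtain ⟨F1, hF1⟩ := exists_div (hF.zero b hbY)
    obtain ⟨G1, hG1⟩ := exists_div (hG.zero b hbY)
    have hcF := cone_div hF hbY hbI hF1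
    have hcG := cone_div hG hbY hbI hG1
    have hcard1 : (Y.erase b).card = k + 1 := by
      rw [Finset.card_erase_of_mem hbY, hcard, Nat.add_sub_cancel]
    have hY1 : ∀ y ∈ Y.erase b, y ∈ Set.Icc A b := fun y hy =>
      ⟨(hY y (Finset.mem_of_mem_erase hy)).1, hmax y (Finset.mem_of_mem_erase hy)⟩
    have hcF' : Cone A b (Y.erase b) F1 := cone_mono le_rfl hbI.2 hcF
    have hcG' : Cone A b (Y.erase b) G1 := cone_mono le_rfl hbI.2 hcG
    have hsplit : (∫ x in A..B, (wt * (derivative^[k + 1] F * derivative^[k + 1] G)).eval x) =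
        (∫ x in A..b, (wt * (derivative^[k + 1] F * derivative^[k + 1] G)).eval x) +
        ∫ x in b..B, (wt * (derivative^[k + 1] F * derivative^[k + 1] G)).eval x :=
      (intervalIntegral.integral_add_adjacent_intervals (CFD_ii _ _ _) (CFD_ii _ _ _)).symm
    have hright : 0 ≤ ∫ x in b..B,
        (wt * (derivative^[k + 1] F * derivative^[k + 1] G)).eval x := by
      refine intervalIntegral.integral_nonneg hbI.2 fun x hx => ?_
      have hx' : x ∈ Set.Icc A B := ⟨hbI.1.trans hx.1, hx.2⟩
      have h1 := hwt 0 (Nat.zero_le _) x hx'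
      rw [dv_zero] at h1
      have h2 := cone_right hY hF hx' (fun y hy => (hmax y hy).trans hx.1)
        (q := k + 1) (by omega)
      have h3 := cone_right hY hG hx' (fun y hy => (hmax y hy).trans hx.1)
        (q := k + 1) (by omega)
      rw [eval_mul, eval_mul]
      exact mul_nonneg h1 (mul_nonneg h2 h3)
    -- the new weight
    set m : ℝ := (k : ℝ) + 1 with hm
    have hm0 : (0 : ℝ) ≤ (k : ℝ) := by positivity
    set wt1 : ℝ[X] := C (m * (m - 1)) * wt - C m * ((X - C b) * derivative wt) with hwt1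
    have hIH : 0 ≤ ∫ x in A..b, (wt1 * (derivative^[k] F1 * derivative^[k] G1)).eval x := by
      refine ih A b hbI.1 (Y.erase b) hcard1 hY1 F1 G1 hcF' hcG' wt1 ?_
      intro j hj x hx
      have hx' : x ∈ Set.Icc A B := ⟨hx.1, hx.2.trans hbI.2⟩
      rw [hwt1, dv_sub, dv_C_mul, dv_C_mul]
      rcases j with _ | i
      · have h1 := hwt 0 (Nat.zero_le _) x hx'
        have h2 := hwt 1 (by omega) x hx'
        have e : dv ((X - C b) * derivative wt) 0 x = (x - b) * dv wt 1 x := by
          simp [dv]
        rw [e]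
        have h3 : 0 ≤ m * (m - 1) * dv wt 0 x := mul_nonneg (by rw [hm]; nlinarith) h1
        have h4 : 0 ≤ m * ((b - x) * dv wt 1 x) :=
          mul_nonneg (by rw [hm]; linarith) (mul_nonneg (by linarith [hx.2]) h2)
        linarith
      · have h1 := hwt (i + 1) (by omega) x hx'
        have h2 := hwt (i + 2) (by omega) x hx'
        have e1 : dv (derivative wt) (i + 1) x = dv wt (i + 2) x := by
          simp only [dv, ← Function.iterate_succ_apply]
        have e2 : dv (derivative wt) i x = dv wt (i + 1) x := by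
          simp only [dv, ← Function.iterate_succ_apply]
        rw [dv_X_sub_C_mul, e1, e2]
        have hik : (i : ℝ) + 1 ≤ (k : ℝ) := by exact_mod_cast hj
        have h3 : 0 ≤ m * (m - 1 - (i + 1)) * dv wt (i + 1) x :=
          mul_nonneg (mul_nonneg (by rw [hm]; linarith) (by rw [hm]; linarith)) h1
        have h4 : 0 ≤ m * ((b - x) * dv wt (i + 2) x) :=
          mul_nonneg (by rw [hm]; linarith) (mul_nonneg (by linarith [hx.2]) h2)
        nlinarith
    -- the boundary term
    set H : ℝ[X] := C m * (wt * ((X - C b) * (derivative^[k] F1 * derivative^[k] G1))) with hH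
    have hint : ∫ x in A..b, (derivative H).eval x = H.eval b - H.eval A :=
      intervalIntegral.integral_eq_sub_of_hasDerivAt (fun x _ => H.hasDerivAt x) (CFD_ii _ _ _)
    have hHb : H.eval b = 0 := by
      rw [hH]
      simp
    have hHA : H.eval A ≤ 0 := by
      have h1 := cone_left hY1 hcF' (x := A) ⟨le_rfl, hbI.1⟩ (fun y hy => (hY1 y hy).1)
        (q := k) (by omega)
      have h2 := cone_left hY1 hcG' (x := A) ⟨le_rfl, hbI.1⟩ (fun y hy => (hY1 y hy).1)
        (q := k) (by omega)
      rw [hcard1, Nat.add_sub_cancel_left, pow_one] at h1 h2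
      have h3 := hwt 0 (Nat.zero_le _) A ⟨le_rfl, hAB⟩
      rw [dv_zero] at h3
      have h4 : 0 ≤ dv F1 k A * dv G1 k A := by nlinarith
      rw [hH]
      simp only [eval_mul, eval_C, eval_sub, eval_X]
      have h5 : 0 ≤ m * (wt.eval A * ((b - A) * (dv F1 k A * dv G1 k A))) :=
        mul_nonneg (by rw [hm]; linarith) (mul_nonneg h3 (mul_nonneg (by linarith [hbI.1]) h4))
      have h6 : m * (wt.eval A * ((A - b) * (eval A (derivative^[k] F1) *
          eval A (derivative^[k] G1)))) = -(m * (wt.eval A * ((b - A) *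
            (dv F1 k A * dv G1 k A)))) := by
        simp only [dv]
        ring
      linarith
    have hpt : ∀ x ∈ Set.Icc A b, (derivative H).eval x +
        (wt1 * (derivative^[k] F1 * derivative^[k] G1)).eval x ≤
        (wt * (derivative^[k + 1] F * derivative^[k + 1] G)).eval x := by
      intro x hx
      have hx' : x ∈ Set.Icc A B := ⟨hx.1, hx.2.trans hbI.2⟩
      have h1 := hwt 0 (Nat.zero_le _) x hx'
      rw [dv_zero] at h1
      have h2 := hcF.pos x hx'
      have h3 := hcG.pos x hx'
      rw [hcard1] at h2 h3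
      have e1 : (derivative^[k + 1] F).eval x =
          (x - b) * dv F1 (k + 1) x + m * dv F1 k x := by
        have := dv_X_sub_C_mul F1 b x k
        rw [← hF1] at this
        exact this
      have e2 : (derivative^[k + 1] G).eval x =
          (x - b) * dv G1 (k + 1) x + m * dv G1 k x := by
        have := dv_X_sub_C_mul G1 b x k
        rw [← hG1] at this
        exact this
      have e3 : (derivative (derivative^[k] F1)).eval x = dv F1 (k + 1) x := by
        rw [dv, Function.iterate_succ_apply']
      have e4 : (derivative (derivative^[k] G1)).eval x = dv G1 (k + 1) x := by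
        rw [dv, Function.iterate_succ_apply']
      have e5 : (derivative^[k] F1).eval x = dv F1 k x := rfl
      have e6 : (derivative^[k] G1).eval x = dv G1 k x := rfl
      have h4 : 0 ≤ wt.eval x * ((x - b) ^ 2 * (dv F1 (k + 1) x * dv G1 (k + 1) x)) :=
        mul_nonneg h1 (mul_nonneg (sq_nonneg _) (mul_nonneg h2 h3))
      rw [hH, hwt1]
      simp only [derivative_mul, derivative_C, derivative_sub, derivative_X, eval_add, eval_mul,
        eval_sub, eval_C, eval_X, eval_one, e1, e2, e3, e4, e5, e6, zero_mul, sub_zero,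
        zero_add]
      nlinarith
    have hle : (∫ x in A..b, (derivative H).eval x) +
        ∫ x in A..b, (wt1 * (derivative^[k] F1 * derivative^[k] G1)).eval x ≤
        ∫ x in A..b, (wt * (derivative^[k + 1] F * derivative^[k + 1] G)).eval x := by
      rw [← intervalIntegral.integral_add (CFD_ii _ _ _) (CFD_ii _ _ _)]
      exact intervalIntegral.integral_mono_on hbI.1 ((CFD_ii _ _ _).add (CFD_ii _ _ _))
        (CFD_ii _ _ _) hpt
    rw [hsplit]
    rw [hint, hHb] at hle
    linarith

end Pool.Agent.LPW
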