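import Pool.Agent.LPW.CFS
import Pool.Agent.LPW.CFB
import Pool.Agent.LPW.CFD

/-!
# LPW / CFF: Part I

CLAIM(n'): for all `c ≤ A ≤ B`, `Y` in `[A,B]` with `|Y| = n'`, `F, G` in the cone, and all `i, k, r` with
`k + 1 ≤ n'` and `r + i + n' ≤ 2k + 1` (hence `r + i ≤ k`): `int_A^B Cf F G c i k r ≥ 0`.
Induction on `n'`.  Fix `n' ≥ 1` and assume CLAIM(n'-1).
(a) The case `k + 2 ≤ n'`, by induction on `r + 2 i` (for all `k`, `c`, `A`, `B`, `Y`, `F`, `G` with the same
    `n'`).  Let `y1 = min Y`.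
    1. On `[A,y1]` the integrand is `≥ 0`: all `cfc ≥ 0`, `x ≥ c`, and
       `F^(j)(x) G^(j)(x) ≥ 0` for `j ≤ k ≤ n'` (`cone_left`) (`Cf_nonneg_left`).  So it is enough to
       consider `[y1,B]`, with `c ≤ y1` (`cone_mono`).
    2. By `Cf_shift` on `[y1,B]` (i.e. with `A = y1`) it is enough to consider `c = y1`: the hypotheses of
       `Cf_shift` are cases of (a) with smaller `r + 2i`: `(i', k, r+1)` with `i = i'+1`: the sum
       `r + 1 + i' = r + i`; `(i', k-1, r-1)`: `(k-1) + 2 ≤ n'` and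
       `(r-1) + i' + n' ≤ 2(k-1) + 1` since `r + i + n' ≤ 2k+1`; note `k ≥ r + i ≥ 1`;
       `(0, k, r-1)`.
    3. By `Cf_remove` (with `ξ = y1`) the integral is `≥ int_(y1)^B Cf F1 G1 y1 (i+1) k r`, where
       `F1, G1` are in the cone of `Y.erase y1` (`cone_div`), `k + 1 ≤ n' - 1` and
       `r + (i+1) + (n'-1) ≤ 2k+1`: this is `≥ 0` by CLAIM(n'-1).
(b) The case `k + 1 = n'` (then `r + i ≤ k`), by induction on `i` (for all `k, r`).
    If `i = 0` (`Cf_zero`) or `r + i = k` (`Cf_diag`) the form is `(X-c)^s F^(k) G^(k)`, `s = r + 2i`, and the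
    claim follows from `base_nonneg` with `wt = (X-c)^s`, all whose derivatives are `≥ 0` on
    `[A,B]` as `c ≤ A`.
    If `i = i'+1` and `r + i < k`: by `Cf_rec`
    `Cf (i'+1) k r = Cf i' k (r+2) + k (k-1-r) Cf i' (k-1) r`; the first term is covered by the induction
    on `i` (`r + 2 + i' = r + i + 1 ≤ k`), the second one is a case of (a): `(k-1) + 2 = n'`,
    `r + i' + n' ≤ 2(k-1)+1` because `r + i ≤ k - 1`; `k - 1 - r ≥ 0`.

`part_one`: `i = 0`, `r = 0`, `c = A`: `Cf_zero` and `(D^k F * D^k G).eval x = dv F k x * dv G k x`.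
-/

set_option autoImplicit false

open Polynomial Finset MeasureTheory

namespace Pool.Agent.LPW

theorem Cf_nonneg_left {A B c : ℝ} {Y : Finset ℝ} {F G : ℝ[X]}
    (hY : ∀ y ∈ Y, y ∈ Set.Icc A B) (hF : Cone A B Y F) (hG : Cone A B Y G) {i k r : ℕ}
    (hrk : r + i ≤ k) (hkn : k ≤ Y.card) {x : ℝ} (hcx : c ≤ x) (hx : x ∈ Set.Icc A B)
    (hxY : ∀ y ∈ Y, x ≤ y) : 0 ≤ (Cf F G c i k r).eval x := by
  unfold Cf
  rw [Polynomial.eval_finsetSum]
  refine Finset.sum_nonneg fun l _ => ?_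
  have hq : k - l ≤ Y.card := by omega
  have h1 := cone_left hY hF hx hxY hq
  have h2 := cone_left hY hG hx hxY hq
  have h3 := mul_nonneg h1 h2
  have h4 : ((-1 : ℝ) ^ (Y.card - (k - l))) * ((-1 : ℝ) ^ (Y.card - (k - l))) = 1 := by
    rw [← mul_pow]; norm_num
  have h5 : 0 ≤ dv F (k - l) x * dv G (k - l) x := by
    have h6 : (-1 : ℝ) ^ (Y.card - (k - l)) * dv F (k - l) x *
        ((-1 : ℝ) ^ (Y.card - (k - l)) * dv G (k - l) x) =
        ((-1 : ℝ) ^ (Y.card - (k - l)) * (-1 : ℝ) ^ (Y.card - (k - l))) *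
          (dv F (k - l) x * dv G (k - l) x) := by ring
    rw [h6, h4, one_mul] at h3
    exact h3
  rw [eval_mul, eval_mul, eval_mul, eval_C, eval_pow, eval_sub, eval_X, eval_C]
  exact mul_nonneg (mul_nonneg (cfc_nonneg l hrk) (pow_nonneg (by linarith) _)) h5

private theorem wt_nonneg {A B c : ℝ} (hcA : c ≤ A) (s j : ℕ) (x : ℝ) (hx : x ∈ Set.Icc A B) :
    0 ≤ dv ((X - C c) ^ s) j x := by
  unfold dv
  rw [Polynomial.iterate_derivative_X_sub_pow, nsmul_eq_mul, eval_mul, eval_natCast, eval_pow,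
    eval_sub, eval_X, eval_C]
  have : 0 ≤ x - c := by linarith [hx.1]
  positivity

private theorem ii (p : ℝ[X]) (a b : ℝ) :
    IntervalIntegrable (fun x => p.eval x) volume a b :=
  p.continuous.intervalIntegrable a b

private def PP (n' i k r : ℕ) : Prop :=
  ∀ (A B c : ℝ), c ≤ A → A ≤ B → ∀ (Y : Finset ℝ),
    Y.card = n' → (∀ y ∈ Y, y ∈ Set.Icc A B) → ∀ (F G : ℝ[X]), Cone A B Y F →
    Cone A B Y G → 0 ≤ ∫ x in A..B, (Cf F G c i k r).eval x

private theorem part_a (n' : ℕ)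
    (IH : ∀ i k r : ℕ, k + 1 ≤ n' → r + i + n' ≤ 2 * k + 1 → PP n' i k r) :
    ∀ s i k r : ℕ, r + 2 * i = s → k + 2 ≤ n' + 1 → r + i + (n' + 1) ≤ 2 * k + 1 →
      PP (n' + 1) i k r := by
  intro s
  induction s using Nat.strong_induction_on with
  | _ s ih =>
    intro i k r hs hk hr A B c hcA hAB Y hcard hY F G hF hG
    have hne : Y.Nonempty := by
      rw [← Finset.card_pos]; omega
    set y1 : ℝ := Y.min' hne with hy1
    have hy1Y : y1 ∈ Y := Finset.min'_mem Y hne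
    have hy1I := hY y1 hy1Y
    have hmin : ∀ y ∈ Y, y1 ≤ y := fun y hy => Finset.min'_le Y y hy
    have hrk : r + i ≤ k := by omega
    have hY' : ∀ y ∈ Y, y ∈ Set.Icc y1 B := fun y hy => ⟨hmin y hy, (hY y hy).2⟩
    have hF' : Cone y1 B Y F := cone_mono hy1I.1 le_rfl hF
    have hG' : Cone y1 B Y G := cone_mono hy1I.1 le_rfl hG
    have hleft : 0 ≤ ∫ x in A..y1, (Cf F G c i k r).eval x := by
      refine intervalIntegral.integral_nonneg hy1I.1 fun x hx => ?_
      exact Cf_nonneg_left hY hF hG hrk (by omega) (by linarith [hx.1])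
        ⟨hx.1, hx.2.trans hy1I.2⟩ (fun y hy => hx.2.trans (hmin y hy))
    have hsplit : (∫ x in A..B, (Cf F G c i k r).eval x) =
        (∫ x in A..y1, (Cf F G c i k r).eval x) + ∫ x in y1..B, (Cf F G c i k r).eval x :=
      (intervalIntegral.integral_add_adjacent_intervals (ii _ _ _) (ii _ _ _)).symm
    have hshift : (∫ x in y1..B, (Cf F G y1 i k r).eval x) ≤
        ∫ x in y1..B, (Cf F G c i k r).eval x := by
      refine Cf_shift (hcA.trans hy1I.1) F G hrk ?_ ?_ ?_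
      · intro c' hc' i' hi'
        exact ih (r + 1 + 2 * i') (by omega) i' k (r + 1) rfl hk (by omega) y1 B c' hc' hy1I.2 Y
          hcard hY' F G hF' hG'
      · intro c' hc' i' hi' hr1
        exact ih (r - 1 + 2 * i') (by omega) i' (k - 1) (r - 1) rfl (by omega) (by omega)
          y1 B c' hc' hy1I.2 Y hcard hY' F G hF' hG'
      · intro c' hc' hi0 hr1
        exact ih (r - 1 + 2 * 0) (by omega) 0 k (r - 1) rfl hk (by omega)
          y1 B c' hc' hy1I.2 Y hcard hY' F G hF' hG'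
    obtain ⟨F1, hF1⟩ := exists_div (hF.zero y1 hy1Y)
    obtain ⟨G1, hG1⟩ := exists_div (hG.zero y1 hy1Y)
    have hrem := Cf_remove hy1I.2 hY' hy1Y hF' hG' hF1 hG1 hrk (by omega)
    have hlast : 0 ≤ ∫ x in y1..B, (Cf F1 G1 y1 (i + 1) k r).eval x := by
      refine IH (i + 1) k r (by omega) (by omega) y1 B y1 le_rfl hy1I.2 (Y.erase y1) ?_ ?_ F1 G1
        (cone_div hF' hy1Y ⟨le_rfl, hy1I.2⟩ hF1) (cone_div hG' hy1Y ⟨le_rfl, hy1I.2⟩ hG1)
      · rw [Finset.card_erase_of_mem hy1Y, hcard]; rfl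
      · intro y hy
        exact hY' y (Finset.mem_of_mem_erase hy)
    rw [hsplit]
    linarith

private theorem part_b (n' : ℕ)
    (Ha : ∀ i k r : ℕ, k + 2 ≤ n' + 1 → r + i + (n' + 1) ≤ 2 * k + 1 → PP (n' + 1) i k r) :
    ∀ i r : ℕ, r + i ≤ n' → PP (n' + 1) i n' r := by
  intro i
  induction i with
  | zero =>
    intro r _ A B c hcA hAB Y hcard hY F G hF hG
    rw [Cf_zero]
    exact base_nonneg n' A B hAB Y hcard hY F G hF hG _
      (fun j _ x hx => wt_nonneg hcA r j x hx)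
  | succ i ih =>
    intro r hri A B c hcA hAB Y hcard hY F G hF hG
    rcases Nat.lt_or_ge (r + (i + 1)) n' with hlt | hge
    · have hn1 : 1 ≤ n' := by omega
      rw [Cf_rec hn1]
      have h1 : 0 ≤ ∫ x in A..B, (Cf F G c i n' (r + 2)).eval x :=
        ih (r + 2) (by omega) A B c hcA hAB Y hcard hY F G hF hG
      have h2 : 0 ≤ ∫ x in A..B, (Cf F G c i (n' - 1) r).eval x :=
        Ha i (n' - 1) r (by omega) (by omega) A B c hcA hAB Y hcard hY F G hF hG
      have h3 : (∫ x in A..B, (Cf F G c i n' (r + 2) +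
          C ((n' : ℝ) * ((n' : ℝ) - 1 - r)) * Cf F G c i (n' - 1) r).eval x) =
          (∫ x in A..B, (Cf F G c i n' (r + 2)).eval x) +
            ((n' : ℝ) * ((n' : ℝ) - 1 - r)) * ∫ x in A..B, (Cf F G c i (n' - 1) r).eval x := by
        rw [← intervalIntegral.integral_const_mul, ← intervalIntegral.integral_add (ii _ _ _)
          ((ii _ _ _).const_mul _)]
        refine intervalIntegral.integral_congr fun x _ => ?_
        simp only [eval_add, eval_mul, eval_C]
      rw [h3]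
      have h4 : (0 : ℝ) ≤ (n' : ℝ) * ((n' : ℝ) - 1 - r) := by
        have h5 : (r : ℝ) + 1 ≤ n' := by
          have : r + 1 ≤ n' := by omega
          exact_mod_cast this
        exact mul_nonneg (by positivity) (by linarith)
      exact add_nonneg h1 (mul_nonneg h4 h2)
    · rw [Cf_diag (le_antisymm hri hge)]
      exact base_nonneg n' A B hAB Y hcard hY F G hF hG _
        (fun j _ x hx => wt_nonneg hcA _ j x hx)

theorem part_one_gen (n' : ℕ) : ∀ (A B c : ℝ), c ≤ A → A ≤ B → ∀ (Y : Finset ℝ),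
    Y.card = n' → (∀ y ∈ Y, y ∈ Set.Icc A B) → ∀ (F G : ℝ[X]), Cone A B Y F →
    Cone A B Y G → ∀ i k r : ℕ, k + 1 ≤ n' → r + i + n' ≤ 2 * k + 1 →
      0 ≤ ∫ x in A..B, (Cf F G c i k r).eval x := by
  have key : ∀ i k r : ℕ, k + 1 ≤ n' → r + i + n' ≤ 2 * k + 1 → PP n' i k r := by
    induction n' with
    | zero => intro i k r h1; omega
    | succ m ih =>
      have Ha : ∀ i k r : ℕ, k + 2 ≤ m + 1 → r + i + (m + 1) ≤ 2 * k + 1 → PP (m + 1) i k r :=
        fun i k r h1 h2 => part_a m ih (r + 2 * i) i k r rfl h1 h2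
      intro i k r h1 h2
      rcases Nat.lt_or_ge (k + 1) (m + 1) with h3 | h3
      · exact Ha i k r (by omega) h2
      · have hk : k = m := by omega
        subst hk
        exact part_b k Ha i r (by omega)
  intro A B c hc hAB Y hcard hY F G hF hG i k r h1 h2
  exact key i k r h1 h2 A B c hc hAB Y hcard hY F G hF hG

theorem part_one {A B : ℝ} (hAB : A ≤ B) {Y : Finset ℝ} {F G : ℝ[X]}
    (hY : ∀ y ∈ Y, y ∈ Set.Icc A B) (hF : Cone A B Y F) (hG : Cone A B Y G) {k : ℕ}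
    (hk : k + 1 ≤ Y.card) (hn : Y.card ≤ 2 * k + 1) :
    0 ≤ ∫ x in A..B, dv F k x * dv G k x := by
  have h := part_one_gen Y.card A B A le_rfl hAB Y rfl hY F G hF hG 0 k 0 hk (by omega)
  rw [Cf_zero] at h
  refine h.trans (le_of_eq (intervalIntegral.integral_congr fun x _ => ?_))
  simp only [dv, pow_zero, one_mul, eval_mul]

end Pool.Agent.LPW
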