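import Pool.Agent.LPW.Defs

/-!
# LPW / CFR: algebra of the forms of Part I

`cfc i k r l = binom(i,l) * k(k-1)...(k-l+1) * a(a+1)...(a+l-1)` with `a = k - r - i`.
* `cfc_nonneg`: for `r + i ≤ k`, `a ≥ 0`, so the rising factorial is `≥ 0`
  (`ascPochhammer_nonneg`-like, or induction with `ascPochhammer_succ_eval`).
* `cfc_rem` (used for removing a node): with `l = l'+1`,
  `cfc (i+1) k r (l'+1) = cfc i k r (l'+1) + cfc i k r l' * (k - l') (k - l' - 1 - (r + 2 (i - l')))`.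
  Proof: divide by `k(k-1)...(k-l')` and by `R = a(a+1)...(a+l'-1)`; with `b = a`,
  rising factorials: `(a-1)(a)...(a+l'-1) = (a-1) R` and `a...(a+l') = R (a+l')`; the claim is
  `binom(i+1,l'+1) (a-1) = binom(i,l'+1) (a+l') + binom(i,l') (a - i + l' - 1)`, i.e.
  `(l'+1) binom(i,l'+1) = (i-l') binom(i,l')` (`Nat.succ_mul_choose_eq`-like,
  `Nat.choose_succ_right_eq`).  For `l' > k` both sides vanish (descending factorial); for
  `l' ≤ k` real subtraction agrees with the natural one in `descFactorial_succ`.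
* `Cf_rec`: coefficient of index `l'+1`:
  `cfc (i+1) k r (l'+1) = cfc i k (r+2) (l'+1) + k (k-1-r) cfc i (k-1) r l'`, with the rising
  factorials `(a-1) R`, `(a-2)(a-1)...` etc.: writing `c = k-1-r-i` (`= a-1`),
  `cfc i k (r+2) (l'+1)` has the rising factorial of `c-1` of length `l'+1`, `(c-1) c ... (c+l'-1)`,
  `cfc i (k-1) r l'` that of `c` of length `l'`, and `cfc (i+1) k r (l'+1)` that of `c` of length `l'+1`;
  the claim is `binom(i+1,l'+1)(c+l') = binom(i,l'+1)(c-1) + (c+i) binom(i,l')`, again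
  `(l'+1) binom(i,l'+1) = (i-l') binom(i,l')`.  The powers of `X - c` and the orders of the derivatives
  agree: `r + 2(i+1-(l'+1)) = r + 2(i - l')`, `k - (l'+1) = (k-1) - l'`.
* `Cf_diag`: for `r + i = k`, `a = 0`, so only `l = 0` contributes.
* `Cf_shift_alg` (derivative with respect to `-c`), `i ≥ 1`: coefficientwise
  `binom(i,l)(r+2i-2l) = (r+2i) binom(i-1,l) + r binom(i-1,l-1)`; see the module CFS for its use.  It is
  stated for `i+1` in place of `i`:
  `(r+2(i+1)-2l) cfc (i+1) k r l = (r+2(i+1)) cfc i k (r+1) l + r k (k-r-(i+1)) cfc i (k-1) (r-1) (l-1)`.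
  (`cfc i k (r+1) l` has the same rising factorial of `a = k-r-i-1`; `cfc i (k-1) (r-1) (l-1)` has the
  rising factorial of `a+1` of length `l-1`, and `a * (a+1)...(a+l-1) = a(a+1)...(a+l-1)`.)
-/

set_option autoImplicit false

open Polynomial Finset MeasureTheory

namespace Pool.Agent.LPW

private theorem CFR_succ (l : ℕ) (a : ℝ) :
    (ascPochhammer ℝ (l + 1)).eval a = (ascPochhammer ℝ l).eval a * (a + l) :=
  ascPochhammer_succ_eval _ _

private theorem CFR_left (l : ℕ) (a : ℝ) :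
    (ascPochhammer ℝ (l + 1)).eval a = a * (ascPochhammer ℝ l).eval (a + 1) := by
  rw [ascPochhammer_succ_left, eval_mul, eval_X, eval_comp, eval_add, eval_X, eval_one]

private theorem CFR_nonneg (l : ℕ) {a : ℝ} (ha : 0 ≤ a) : 0 ≤ (ascPochhammer ℝ l).eval a := by
  induction l with
  | zero => simp
  | succ l ih =>
    rw [CFR_succ]
    positivity

private theorem CFR_desc (k l : ℕ) :
    ((k.descFactorial (l + 1) : ℕ) : ℝ) = ((k : ℝ) - l) * (k.descFactorial l : ℝ) := by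
  rw [Nat.descFactorial_succ]
  rcases le_or_gt l k with h | h
  · rw [Nat.cast_mul, Nat.cast_sub h]
  · rw [Nat.descFactorial_of_lt h]
    simp

private theorem CFR_desc' {k : ℕ} (hk : 1 ≤ k) (l : ℕ) :
    ((k.descFactorial (l + 1) : ℕ) : ℝ) = (k : ℝ) * ((k - 1).descFactorial l : ℝ) := by
  obtain ⟨k, rfl⟩ := Nat.exists_eq_add_of_le' hk
  rw [Nat.succ_descFactorial_succ, Nat.add_sub_cancel, Nat.cast_mul]

private theorem CFR_ch (i l : ℕ) :
    ((i.choose (l + 1) : ℕ) : ℝ) * ((l : ℝ) + 1) = (i.choose l : ℝ) * ((i : ℝ) - l) := by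
  have h := Nat.choose_succ_right_eq i l
  rcases le_or_gt l i with h1 | h1
  · have h2 := congrArg (Nat.cast : ℕ → ℝ) h
    rw [Nat.cast_mul, Nat.cast_mul, Nat.cast_sub h1, Nat.cast_add, Nat.cast_one] at h2
    exact h2
  · rw [Nat.choose_eq_zero_of_lt h1, Nat.choose_eq_zero_of_lt (h1.trans (Nat.lt_succ_self l))]
    simp

private theorem CFR_pas (i l : ℕ) :
    (((i + 1).choose (l + 1) : ℕ) : ℝ) = (i.choose l : ℝ) + (i.choose (l + 1) : ℝ) := by
  rw [Nat.choose_succ_succ', Nat.cast_add]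

theorem cfc_nonneg {i k r : ℕ} (l : ℕ) (h : r + i ≤ k) : 0 ≤ cfc i k r l := by
  unfold cfc
  have h1 : (0 : ℝ) ≤ (k : ℝ) - r - i := by
    have : ((r + i : ℕ) : ℝ) ≤ k := by exact_mod_cast h
    push_cast at this
    linarith
  have h2 := CFR_nonneg l h1
  positivity

theorem cfc_zero (i k r : ℕ) : cfc i k r 0 = 1 := by
  simp [cfc]

theorem cfc_eq_zero {i k r l : ℕ} (h : i < l ∨ k < l) : cfc i k r l = 0 := by
  unfold cfc
  rcases h with h | h
  · rw [Nat.choose_eq_zero_of_lt h]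
    simp
  · rw [Nat.descFactorial_of_lt h]
    simp

theorem cfc_rem (i k r l : ℕ) :
    cfc (i + 1) k r (l + 1) = cfc i k r (l + 1) +
      cfc i k r l * (((k : ℝ) - l) * ((k : ℝ) - l - 1 - (r + 2 * ((i : ℝ) - l)))) := by
  unfold cfc
  have e1 : (k : ℝ) - r - ((i + 1 : ℕ) : ℝ) + 1 = (k : ℝ) - r - i := by
    push_cast
    ring
  rw [CFR_left l ((k : ℝ) - r - ((i + 1 : ℕ) : ℝ)), e1, CFR_succ l ((k : ℝ) - r - i), CFR_desc,
    CFR_pas]
  have h := CFR_ch i l
  push_cast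
  linear_combination (-((k : ℝ) - l) * (k.descFactorial l : ℝ) *
    (ascPochhammer ℝ l).eval ((k : ℝ) - r - i)) * h

theorem cfc_rec {k : ℕ} (hk : 1 ≤ k) (i r l : ℕ) :
    cfc (i + 1) k r (l + 1) = cfc i k (r + 2) (l + 1) +
      (k : ℝ) * ((k : ℝ) - 1 - r) * cfc i (k - 1) r l := by
  unfold cfc
  have e0 : ((k - 1 : ℕ) : ℝ) = (k : ℝ) - 1 := by
    rw [Nat.cast_sub hk, Nat.cast_one]
  have e1 : (k : ℝ) - ((r + 2 : ℕ) : ℝ) - i + 1 = (k : ℝ) - 1 - r - i := by
    push_cast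
    ring
  have e2 : (k : ℝ) - r - ((i + 1 : ℕ) : ℝ) = (k : ℝ) - 1 - r - i := by
    push_cast
    ring
  rw [e0, e2, CFR_left l ((k : ℝ) - ((r + 2 : ℕ) : ℝ) - i), e1,
    CFR_succ l ((k : ℝ) - 1 - r - i), CFR_desc' hk, CFR_pas]
  have h := CFR_ch i l
  push_cast
  linear_combination ((k : ℝ) * ((k - 1).descFactorial l : ℝ) *
    (ascPochhammer ℝ l).eval ((k : ℝ) - 1 - r - i)) * h

theorem cfc_shift {k : ℕ} (hk : 1 ≤ k) (i r l : ℕ) (hr : 1 ≤ r) :
    ((r : ℝ) + 2 * ((i : ℝ) + 1) - 2 * ((l : ℝ) + 1)) * cfc (i + 1) k r (l + 1) =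
      ((r : ℝ) + 2 * ((i : ℝ) + 1)) * cfc i k (r + 1) (l + 1) +
        (r : ℝ) * k * ((k : ℝ) - r - (i + 1)) * cfc i (k - 1) (r - 1) l := by
  unfold cfc
  have e0 : ((k - 1 : ℕ) : ℝ) = (k : ℝ) - 1 := by
    rw [Nat.cast_sub hk, Nat.cast_one]
  have e00 : ((r - 1 : ℕ) : ℝ) = (r : ℝ) - 1 := by
    rw [Nat.cast_sub hr, Nat.cast_one]
  have e1 : (k : ℝ) - ((r + 1 : ℕ) : ℝ) - i = (k : ℝ) - r - (i + 1) := by
    push_cast
    ring
  have e2 : (k : ℝ) - r - ((i + 1 : ℕ) : ℝ) = (k : ℝ) - r - (i + 1) := by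
    push_cast
    ring
  have e3 : (k : ℝ) - 1 - ((r : ℝ) - 1) - i = (k : ℝ) - r - (i + 1) + 1 := by
    ring
  rw [e0, e00, e1, e2, e3, CFR_left l ((k : ℝ) - r - (i + 1)), CFR_desc' hk, CFR_pas]
  have h := CFR_ch i l
  linear_combination (-2 * (k : ℝ) * ((k - 1).descFactorial l : ℝ) *
    (((k : ℝ) - r - (i + 1)) * (ascPochhammer ℝ l).eval ((k : ℝ) - r - (i + 1) + 1))) * h

/-- The case `r = 0` of `cfc_shift`. -/
theorem cfc_shift_zero (i k l : ℕ) :
    (2 * ((i : ℝ) + 1) - 2 * (l : ℝ)) * cfc (i + 1) k 0 l =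
      2 * ((i : ℝ) + 1) * cfc i k 1 l := by
  unfold cfc
  have e1 : (k : ℝ) - ((0 : ℕ) : ℝ) - ((i + 1 : ℕ) : ℝ) = (k : ℝ) - ((1 : ℕ) : ℝ) - i := by
    push_cast
    ring
  have h : ((i.choose l : ℕ) : ℝ) * ((i : ℝ) + 1) =
      (((i + 1).choose l : ℕ) : ℝ) * ((i : ℝ) + 1 - l) := by
    have h0 := Nat.choose_mul_succ_eq i l
    rcases le_or_gt l (i + 1) with h1 | h1
    · have h2 := congrArg (Nat.cast : ℕ → ℝ) h0
      rw [Nat.cast_mul, Nat.cast_mul, Nat.cast_sub h1, Nat.cast_add, Nat.cast_one] at h2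
      exact h2
    · rw [Nat.choose_eq_zero_of_lt h1,
        Nat.choose_eq_zero_of_lt ((Nat.lt_succ_self i).trans h1)]
      simp
  rw [e1]
  linear_combination (-2 * (k.descFactorial l : ℝ) *
    (ascPochhammer ℝ l).eval ((k : ℝ) - ((1 : ℕ) : ℝ) - i)) * h

theorem Cf_zero (F G : ℝ[X]) (c : ℝ) (k r : ℕ) :
    Cf F G c 0 k r = (X - C c) ^ r * (derivative^[k] F * derivative^[k] G) := by
  unfold Cf
  rw [zero_add, sum_range_one, cfc_zero, map_one, one_mul, Nat.sub_zero, Nat.sub_zero, mul_zero,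
    add_zero]

theorem Cf_rec {k : ℕ} (hk : 1 ≤ k) (F G : ℝ[X]) (c : ℝ) (i r : ℕ) :
    Cf F G c (i + 1) k r = Cf F G c i k (r + 2) +
      C ((k : ℝ) * ((k : ℝ) - 1 - r)) * Cf F G c i (k - 1) r := by
  have h1 : Cf F G c i k (r + 2) = ∑ l ∈ range (i + 1), C (cfc i k (r + 2) (l + 1)) *
        (X - C c) ^ (r + 2 * (i - l)) * (derivative^[k - (l + 1)] F * derivative^[k - (l + 1)] G) +
      (X - C c) ^ (r + 2 * (i + 1)) * (derivative^[k] F * derivative^[k] G) := by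
    have h2 : Cf F G c i k (r + 2) = ∑ l ∈ range (i + 1 + 1), C (cfc i k (r + 2) l) *
        (X - C c) ^ (r + 2 + 2 * (i - l)) * (derivative^[k - l] F * derivative^[k - l] G) := by
      rw [sum_range_succ _ (i + 1), cfc_eq_zero (Or.inl (Nat.lt_succ_self i)), map_zero, zero_mul,
        zero_mul, add_zero]
      rfl
    rw [h2, sum_range_succ']
    congr 1
    · refine sum_congr rfl fun l hl => ?_
      have hl' := mem_range.1 hl
      rcases (Nat.lt_succ_iff.1 hl').lt_or_eq with h3 | h3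
      · have h4 : r + 2 + 2 * (i - (l + 1)) = r + 2 * (i - l) := by omega
        rw [h4]
      · rw [cfc_eq_zero (Or.inl (by omega)), map_zero, zero_mul, zero_mul, zero_mul, zero_mul]
    · rw [cfc_zero, map_one, one_mul, Nat.sub_zero, Nat.sub_zero]
      have h4 : r + 2 + 2 * i = r + 2 * (i + 1) := by ring
      rw [h4]
  have h5 : Cf F G c (i + 1) k r = ∑ l ∈ range (i + 1), C (cfc (i + 1) k r (l + 1)) *
        (X - C c) ^ (r + 2 * (i - l)) * (derivative^[k - (l + 1)] F * derivative^[k - (l + 1)] G) +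
      (X - C c) ^ (r + 2 * (i + 1)) * (derivative^[k] F * derivative^[k] G) := by
    unfold Cf
    rw [sum_range_succ']
    congr 1
    · refine sum_congr rfl fun l _ => ?_
      have h4 : i + 1 - (l + 1) = i - l := by omega
      rw [h4]
    · rw [cfc_zero, map_one, one_mul, Nat.sub_zero, Nat.sub_zero]
  have h6 : Cf F G c i (k - 1) r = ∑ l ∈ range (i + 1), C (cfc i (k - 1) r l) *
        (X - C c) ^ (r + 2 * (i - l)) *
        (derivative^[k - (l + 1)] F * derivative^[k - (l + 1)] G) := by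
    unfold Cf
    refine sum_congr rfl fun l _ => ?_
    have h4 : k - 1 - l = k - (l + 1) := by omega
    rw [h4]
  rw [h1, h5, h6, mul_sum, add_right_comm, ← sum_add_distrib]
  congr 1
  refine sum_congr rfl fun l _ => ?_
  rw [cfc_rec hk, map_add, map_mul]
  ring

theorem Cf_diag {i k r : ℕ} (h : r + i = k) (F G : ℝ[X]) (c : ℝ) :
    Cf F G c i k r = (X - C c) ^ (r + 2 * i) * (derivative^[k] F * derivative^[k] G) := by
  unfold Cf
  rw [sum_eq_single 0]
  · rw [cfc_zero, map_one, one_mul, Nat.sub_zero, Nat.sub_zero]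
  · intro l _ hl
    obtain ⟨l, rfl⟩ := Nat.exists_eq_succ_of_ne_zero hl
    have h0 : (k : ℝ) - r - i = 0 := by
      rw [← h]
      push_cast
      ring
    have h1 : cfc i k r (l + 1) = 0 := by
      unfold cfc
      rw [h0, CFR_left, zero_mul, mul_zero]
    rw [Nat.succ_eq_add_one, h1, map_zero, zero_mul, zero_mul]
  · intro h0
    exact absurd (mem_range.2 (Nat.succ_pos i)) h0

end Pool.Agent.LPW
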