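import Pool.Agent.LPW.CFR

/-!
# LPW / CFS: moving the centre `c` to the left increases the integral

Let `J(c) = int_A^B (Cf F G c i k r)(x) dx`.  `J` is a polynomial in `c`, differentiable, with
`-J'(c) = int_A^B (d/d(-c)) Cf`, and (`Cf_shift_alg`)
* for `i = i'+1`: `(d/d(-c)) Cf F G c (i'+1) k r = (r+2(i'+1)) Cf F G c i' k (r+1)
  + r k (k-r-(i'+1)) Cf F G c i' (k-1) (r-1)` (the second term is absent for `r = 0`);
* for `i = 0`: `(d/d(-c)) Cf F G c 0 k r = r Cf F G c 0 k (r-1)`;
because `(d/d(-c)) (x-c)^s = s (x-c)^(s-1)` and the coefficient identities `cfc_shift`,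
`cfc_shift_zero` (for the index `l = 0` use `cfc_zero`).
(The orders of the derivatives agree: `k - (l+1) = (k-1) - l`; the exponents:
`r + 2(i'+1-l) - 1 = (r+1) + 2(i'-l)` for `l ≤ i'`, and `r + 2(i'+1-(l+1)) - 1 = (r-1) + 2(i'-l)` for
`r ≥ 1`; the term with `l = i'+1` and `r = 0` has the factor `r + 2(i'+1) - 2l = 0`.)
By the hypotheses `J'(c) ≤ 0` on `(-∞, A]` (the coefficients are `≥ 0` as `r + i ≤ k`), so
`J(A) ≤ J(c)` (`antitoneOn_of_deriv_nonpos`).
To differentiate under the integral sign it is enough that `Cf` is a finite sum of terms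
`(x-c)^s g(x)`, `g` polynomial: `c ↦ int_A^B (x-c)^s g(x) dx` has the derivative
`- s int_A^B (x-c)^(s-1) g(x) dx` (`intervalIntegral.hasDerivAt_integral_of_dominated_loc_of_deriv_le`, or expand
`(x-c)^s` by the binomial theorem, or - simplest - prove `J(A) ≤ J(c)` without derivatives in `c`:
for every `x`, `(Cf F G c i k r)(x) - (Cf F G A i k r)(x) = int_c^A (d/d(-c')) Cf (x) dc'`, and exchange the
two integrals of a continuous function).
-/

set_option autoImplicit false

open Polynomial Finset MeasureTheory

namespace Pool.Agent.LPW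

private noncomputable def cfsI (A B : ℝ) (g : ℝ[X]) (s : ℕ) (c : ℝ) : ℝ :=
  ∫ x in A..B, (x - c) ^ s * g.eval x

private theorem cfsI_ii (A B : ℝ) (g : ℝ[X]) (s : ℕ) (c : ℝ) :
    IntervalIntegrable (fun x => (x - c) ^ s * g.eval x) volume A B := by
  apply Continuous.intervalIntegrable
  have := g.continuous
  fun_prop

private theorem cfsI_succ (A B : ℝ) (g : ℝ[X]) (s : ℕ) (c : ℝ) :
    cfsI A B g (s + 1) c = cfsI A B (X * g) s c - c * cfsI A B g s c := by
  unfold cfsI
  rw [← intervalIntegral.integral_const_mul, ← intervalIntegral.integral_sub (cfsI_ii A B (X * g) s c)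
    ((cfsI_ii A B g s c).const_mul c)]
  congr 1
  ext x
  simp only [eval_mul, eval_X]
  ring

private theorem cfsI_deriv (A B : ℝ) (s : ℕ) : ∀ (g : ℝ[X]) (c : ℝ),
    HasDerivAt (fun c => cfsI A B g s c) (-(s : ℝ) * cfsI A B g (s - 1) c) c := by
  induction s with
  | zero =>
    intro g c
    have h : (fun c => cfsI A B g 0 c) = fun _ => cfsI A B g 0 0 := by
      ext c
      simp [cfsI]
    rw [h]
    simpa using hasDerivAt_const c (cfsI A B g 0 0)
  | succ s ih =>
    intro g c
    have h : (fun c => cfsI A B g (s + 1) c) =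
        fun c => cfsI A B (X * g) s c - c * cfsI A B g s c := by
      ext c
      exact cfsI_succ A B g s c
    rw [h]
    have h1 := (ih (X * g) c).sub ((hasDerivAt_id c).mul (ih g c))
    refine h1.congr_deriv ?_
    simp only [id, Nat.add_sub_cancel]
    rcases s with _ | s
    · simp
    · have h2 := cfsI_succ A B g s c
      simp only [Nat.add_sub_cancel] at *
      push_cast
      linear_combination ((s : ℝ) + 1) * h2

private theorem Cf_int (A B c : ℝ) (F G : ℝ[X]) (i k r : ℕ) :
    ∫ x in A..B, (Cf F G c i k r).eval x = ∑ l ∈ range (i + 1), cfc i k r l *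
      cfsI A B (derivative^[k - l] F * derivative^[k - l] G) (r + 2 * (i - l)) c := by
  unfold Cf cfsI
  simp only [eval_finsetSum, eval_mul, eval_C, eval_pow, eval_sub, eval_X]
  rw [intervalIntegral.integral_finsetSum]
  · refine Finset.sum_congr rfl fun l _ => ?_
    rw [← intervalIntegral.integral_const_mul]
    congr 1
    ext x
    ring
  · intro l _
    apply Continuous.intervalIntegrable
    have h1 := (derivative^[k - l] F).continuous
    have h2 := (derivative^[k - l] G).continuous
    fun_prop

theorem Cf_shift {A B c : ℝ} (hc : c ≤ A) (F G : ℝ[X]) {i k r : ℕ} (hrk : r + i ≤ k)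
    (H1 : ∀ c' ≤ A, ∀ i' : ℕ, i = i' + 1 →
      0 ≤ ∫ x in A..B, (Cf F G c' i' k (r + 1)).eval x)
    (H2 : ∀ c' ≤ A, ∀ i' : ℕ, i = i' + 1 → 1 ≤ r →
      0 ≤ ∫ x in A..B, (Cf F G c' i' (k - 1) (r - 1)).eval x)
    (H3 : ∀ c' ≤ A, i = 0 → 1 ≤ r →
      0 ≤ ∫ x in A..B, (Cf F G c' 0 k (r - 1)).eval x) :
    ∫ x in A..B, (Cf F G A i k r).eval x ≤ ∫ x in A..B, (Cf F G c i k r).eval x := by
  have hd : ∀ c, HasDerivAt (fun c => ∫ x in A..B, (Cf F G c i k r).eval x)
      (∑ l ∈ range (i + 1), cfc i k r l * (-((r + 2 * (i - l) : ℕ) : ℝ) *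
        cfsI A B (derivative^[k - l] F * derivative^[k - l] G) (r + 2 * (i - l) - 1) c)) c := by
    intro c
    have h : (fun c => ∫ x in A..B, (Cf F G c i k r).eval x) =
        fun c => ∑ l ∈ range (i + 1), cfc i k r l *
          cfsI A B (derivative^[k - l] F * derivative^[k - l] G) (r + 2 * (i - l)) c := by
      ext c
      exact Cf_int A B c F G i k r
    rw [h]
    apply HasDerivAt.fun_sum
    intro l _
    exact (cfsI_deriv A B _ _ c).const_mul _
  have hneg : ∀ c ≤ A, (∑ l ∈ range (i + 1), cfc i k r l * (-((r + 2 * (i - l) : ℕ) : ℝ) *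
        cfsI A B (derivative^[k - l] F * derivative^[k - l] G) (r + 2 * (i - l) - 1) c)) ≤ 0 := by
    intro c hc
    rcases i with _ | i
    · simp only [zero_add, range_one, sum_singleton, cfc_zero, Nat.sub_zero, mul_zero, add_zero,
        one_mul, Nat.sub_self]
      rcases r with _ | r
      · simp
      · have h := H3 c hc rfl (by omega)
        rw [Cf_int] at h
        simp only [zero_add, range_one, sum_singleton, cfc_zero, Nat.sub_zero, mul_zero, add_zero,
          one_mul, Nat.sub_self] at h
        have h2 : (0 : ℝ) ≤ ((r + 1 : ℕ) : ℝ) := by positivity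
        nlinarith [mul_nonneg h2 h]
    · have h1 := H1 c hc i rfl
      rcases r with _ | r
      · rw [Cf_int] at h1
        have key : (∑ l ∈ range (i + 1 + 1), cfc (i + 1) k 0 l * (-((0 + 2 * (i + 1 - l) : ℕ) : ℝ) *
            cfsI A B (derivative^[k - l] F * derivative^[k - l] G) (0 + 2 * (i + 1 - l) - 1) c)) =
            -(2 * ((i : ℝ) + 1)) * ∑ l ∈ range (i + 1), cfc i k (0 + 1) l *
              cfsI A B (derivative^[k - l] F * derivative^[k - l] G) (0 + 1 + 2 * (i - l)) c := by
          rw [Finset.sum_range_succ]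
          simp only [Nat.sub_self, mul_zero, add_zero, Nat.cast_zero, neg_zero, zero_mul]
          rw [Finset.mul_sum]
          refine Finset.sum_congr rfl fun l hl => ?_
          have hl' : l ≤ i := by
            have := Finset.mem_range.1 hl
            omega
          have h2 := cfc_shift_zero i k l
          have h3 : 0 + 2 * (i + 1 - l) - 1 = 0 + 1 + 2 * (i - l) := by omega
          rw [h3]
          have h4 : ((0 + 2 * (i + 1 - l) : ℕ) : ℝ) = 2 * ((i : ℝ) + 1) - 2 * (l : ℝ) := by
            have : l ≤ i + 1 := by omega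
            push_cast [Nat.cast_sub this]
            ring
          rw [h4]
          simp only [zero_add]
          linear_combination (-cfsI A B (derivative^[k - l] F * derivative^[k - l] G)
            (1 + 2 * (i - l)) c) * h2
        rw [key]
        have : (0 : ℝ) ≤ 2 * ((i : ℝ) + 1) := by positivity
        nlinarith [mul_nonneg this h1]
      · have h2 := H2 c hc i rfl (by omega)
        rw [Cf_int] at h1 h2
        simp only [Nat.add_sub_cancel] at h2
        have hk1 : 1 ≤ k := by omega
        have key : (∑ l ∈ range (i + 1 + 1), cfc (i + 1) k (r + 1) l *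
            (-((r + 1 + 2 * (i + 1 - l) : ℕ) : ℝ) *
            cfsI A B (derivative^[k - l] F * derivative^[k - l] G)
              (r + 1 + 2 * (i + 1 - l) - 1) c)) =
            -(((r : ℝ) + 1) + 2 * ((i : ℝ) + 1)) * (∑ l ∈ range (i + 1), cfc i k (r + 1 + 1) l *
              cfsI A B (derivative^[k - l] F * derivative^[k - l] G) (r + 1 + 1 + 2 * (i - l)) c) -
            ((r : ℝ) + 1) * k * ((k : ℝ) - (r + 1) - (i + 1)) *
              ∑ l ∈ range (i + 1), cfc i (k - 1) r l *
              cfsI A B (derivative^[k - 1 - l] F * derivative^[k - 1 - l] G)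
                (r + 2 * (i - l)) c := by
          rw [Finset.sum_range_succ', Finset.mul_sum, Finset.mul_sum]
          have e1 : (∑ l ∈ range (i + 1), -(((r : ℝ) + 1) + 2 * ((i : ℝ) + 1)) *
              (cfc i k (r + 1 + 1) l *
              cfsI A B (derivative^[k - l] F * derivative^[k - l] G)
                (r + 1 + 1 + 2 * (i - l)) c)) =
              (∑ l ∈ range (i + 1), -(((r : ℝ) + 1) + 2 * ((i : ℝ) + 1)) *
              (cfc i k (r + 1 + 1) (l + 1) *
              cfsI A B (derivative^[k - (l + 1)] F * derivative^[k - (l + 1)] G)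
                (r + 1 + 2 * (i - l) - 1) c)) + -(((r : ℝ) + 1) + 2 * ((i : ℝ) + 1)) *
              (cfc i k (r + 1 + 1) 0 *
              cfsI A B (derivative^[k - 0] F * derivative^[k - 0] G)
                (r + 1 + 2 * (i + 1 - 0) - 1) c) := by
            rw [Finset.sum_range_succ', Finset.sum_range_succ _ i]
            rw [cfc_eq_zero (i := i) (l := i + 1) (Or.inl (by omega))]
            simp only [zero_mul, mul_zero, add_zero]
            congr 1
            · refine Finset.sum_congr rfl fun l hl => ?_
              have hl' : l < i := Finset.mem_range.1 hl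
              have : r + 1 + 1 + 2 * (i - (l + 1)) = r + 1 + 2 * (i - l) - 1 := by omega
              rw [this]
            · have : r + 1 + 1 + 2 * (i - 0) = r + 1 + 2 * (i + 1 - 0) - 1 := by omega
              rw [this]
          rw [e1, add_sub_right_comm, ← Finset.sum_sub_distrib]
          congr 1
          · refine Finset.sum_congr rfl fun l hl => ?_
            have hl' : l ≤ i := by
              have := Finset.mem_range.1 hl
              omega
            have h3 := cfc_shift hk1 i (r + 1) l (by omega)
            simp only [Nat.add_sub_cancel] at h3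
            have e2 : i + 1 - (l + 1) = i - l := by omega
            have e3 : r + 1 + 2 * (i - l) - 1 = r + 2 * (i - l) := by omega
            have e4 : k - (l + 1) = k - 1 - l := by omega
            rw [e2, e3, e4]
            have e5 : ((r + 1 + 2 * (i - l) : ℕ) : ℝ) =
                ((r + 1 : ℕ) : ℝ) + 2 * ((i : ℝ) + 1) - 2 * ((l : ℝ) + 1) := by
              push_cast [Nat.cast_sub hl']
              ring
            rw [e5]
            push_cast at h3 ⊢
            linear_combination (-cfsI A B (derivative^[k - 1 - l] F * derivative^[k - 1 - l] G)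
              (r + 2 * (i - l)) c) * h3
          · rw [cfc_zero, cfc_zero]
            push_cast
            simp only [Nat.sub_zero]
            ring
        rw [key]
        have a1 : (0 : ℝ) ≤ ((r : ℝ) + 1) + 2 * ((i : ℝ) + 1) := by positivity
        have a2 : (0 : ℝ) ≤ ((r : ℝ) + 1) * k * ((k : ℝ) - (r + 1) - (i + 1)) := by
          have : ((r + 1 + (i + 1) : ℕ) : ℝ) ≤ k := by exact_mod_cast hrk
          push_cast at this
          have h3 : (0 : ℝ) ≤ (k : ℝ) - (r + 1) - (i + 1) := by linarith
          positivity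
        nlinarith [mul_nonneg a1 h1, mul_nonneg a2 h2]
  have hanti : AntitoneOn (fun c => ∫ x in A..B, (Cf F G c i k r).eval x) (Set.Iic A) := by
    apply antitoneOn_of_deriv_nonpos (convex_Iic A)
    · exact fun c _ => (hd c).continuousAt.continuousWithinAt
    · exact fun c _ => (hd c).differentiableAt.differentiableWithinAt
    · intro c hc
      rw [(hd c).deriv]
      exact hneg c (by simpa using (interior_subset hc))
  exact hanti (Set.mem_Iic.2 hc) (Set.mem_Iic.2 le_rfl) hc

end Pool.Agent.LPW
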