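import Pool.Agent.LPW.Defs

/-!
# LPW / VDZ: taking a square out of all rows

For `u = X^2 U`, `v = X^2 V` the matrix of `Vd (q+2) 0 u v y` has the rows
`(y_i^2 U(y_i), y_i^2 V(y_i), y_i^2, y_i^3, ..., y_i^(q+1))`.  Take `y_i^2` out of the row `i`
(`Matrix.det_mul_column`: `det (of fun i j => v i * A i j) = (prod_i v i) * det A`) and move the first
two columns to the end.  This is a cyclic shift by two places, i.e. the square of a permutation, so its
sign is `1`.  In Lean: if `σ : Equiv.Perm (Fin (q+2))` then `Matrix.det_permute'` gives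
`det (M.submatrix id σ) = sign σ * det M`; use `σ = finRotate (q+2)` twice
(`finRotate (q+2) i = i + 1`, `sign_finRotate`), or prove it in two steps:
`det (M.submatrix id (finRotate _)) = (-1)^(q+1) * det M` applied twice, and `((-1)^(q+1))^2 = 1`.
The result is `(prod_i y_i^2) * Vd (q+2) q U V y`: in the matrix of `Vd (q+2) q U V y` the columns
`j < q` are `y_i^j`, the column `q` is `U(y_i)` and the column `q+1` is `V(y_i)`.
For `q = 0` nothing has to be moved.
-/

set_option autoImplicit false

open Polynomial Finset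

namespace Pool.Agent.LPW

/-- The value of the cyclic shift by two places. -/
private theorem rot2_val (q : ℕ) (j : Fin (q + 2)) :
    ((finRotate (q + 2) (finRotate (q + 2) j) : Fin (q + 2)) : ℕ) =
      if (j : ℕ) < q then (j : ℕ) + 2 else (j : ℕ) - q := by
  have h1 : ∀ a : Fin (q + 2), ((finRotate (q + 2) a : Fin (q + 2)) : ℕ) =
      if (a : ℕ) = q + 1 then 0 else (a : ℕ) + 1 := by
    intro a
    split_ifs with h
    · rw [show a = Fin.last (q + 1) from Fin.ext (by simpa using h)]
      simp
    · rw [coe_finRotate_of_ne_last]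
      intro h'
      apply h
      rw [h']
      simp
  have hj := j.isLt
  rw [h1 (finRotate (q + 2) j), h1 j]
  by_cases ha : (j : ℕ) = q + 1
  · rw [if_pos ha, if_neg (by omega), if_neg (by omega)]
    omega
  · rw [if_neg ha]
    by_cases hb : (j : ℕ) = q
    · rw [if_pos (by omega), if_neg (by omega)]
      omega
    · rw [if_neg (by omega), if_pos (by omega)]

theorem vd_zero_factor (q : ℕ) (U V : ℝ[X]) (y : Fin (q + 2) → ℝ) :
    Vd (q + 2) 0 (X ^ 2 * U) (X ^ 2 * V) y = (∏ i, y i ^ 2) * Vd (q + 2) q U V y := by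
  unfold Vd
  rw [← Matrix.det_mul_column]
  set M : Matrix (Fin (q + 2)) (Fin (q + 2)) ℝ := Matrix.of fun i j : Fin (q + 2) =>
    if (j : ℕ) = 0 then (X ^ 2 * U).eval (y i)
    else if (j : ℕ) = 0 + 1 then (X ^ 2 * V).eval (y i) else y i ^ (j : ℕ) with hM
  have h1 := Matrix.det_permute' (finRotate (q + 2)) M
  have h2 := Matrix.det_permute' (finRotate (q + 2)) (M.submatrix id (finRotate (q + 2)))
  rw [h1, ← mul_assoc, sign_finRotate, Nat.add_succ_sub_one] at h2
  have h3 : (((((-1 : ℤˣ) ^ (q + 1) : ℤˣ) : ℤ) : ℝ) * ((((-1 : ℤˣ) ^ (q + 1) : ℤˣ) : ℤ) : ℝ)) = 1 := by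
    push_cast
    rw [← pow_add, ← two_mul, pow_mul]
    norm_num
  rw [h3, one_mul] at h2
  rw [← h2]
  congr 1
  ext i j
  simp only [Matrix.submatrix_apply, id_eq, Matrix.of_apply, hM]
  have hv := rot2_val q j
  have hj := j.isLt
  rw [hv]
  by_cases h : (j : ℕ) < q
  · rw [if_pos h, if_neg (by omega), if_neg (by omega), if_neg (by omega), if_neg (by omega)]
    ring
  · rw [if_neg h]
    by_cases h' : (j : ℕ) = q
    · rw [if_pos (by omega), if_pos h', eval_mul, eval_pow, eval_X]
    · rw [if_neg (by omega), if_pos (by omega), if_neg h', if_pos (by omega), eval_mul, eval_pow,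
        eval_X]

end Pool.Agent.LPW
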