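import Pool.Agent.LPW.STP
import Pool.Agent.LPW.VDZ

/-!
# LPW / CHT: the whole chain

* `chain_iter`: apply `chain_step` `s` times (induction on `s`; the interlacing points stay in
  `[A,B]` because `y_i < z_i < y_(i+1)`).
* `vd_two`: `Matrix.det_fin_two`.
* `chain_total`: with `m = q + 2` and `n = k + m`: `chain_iter` with `N = m`, `s = k` reduces the claim
  to `0 ≤ sum_a Vd m 0 (D^k u_a) (D^k v_a) y'` for strictly increasing `y'` in `[A,B]`.  Since
  `X^(k+m)` divides `u_a`, `X^m` and hence `X^2` divides `D^k u_a` (`Polynomial.coeff_iterate_derivative`: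
  the coefficients of `D^k u_a` of index `< m` vanish, so `divX` loses nothing:
  `p = X * divX p + C (p.coeff 0)`), i.e. `D^k u_a = X^2 U_a`, `U_a = divX (divX (D^k u_a))`.  By
  `vd_zero_factor` it is enough that `0 ≤ sum_a Vd (q+2) q U_a V_a y'`, and `chain_iter` with `N = 2`,
  `k = 0`, `s = q` reduces this to `0 ≤ sum_a Vd 2 0 (D^q U_a) (D^q V_a) z`, which is
  `Ker d (Mop u) (Mop v) (z_0) (z_1)` by `vd_two`.
-/

set_option autoImplicit false

open Polynomial Finset

namespace Pool.Agent.LPW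

theorem chain_iter {N k d : ℕ} {A B : ℝ} (s : ℕ) (u v : ℕ → ℝ[X])
    (H : ∀ z : Fin N → ℝ, StrictMono z → (∀ i, z i ∈ Set.Icc A B) →
      0 ≤ ∑ a ∈ range d, Vd N k (derivative^[s] (u a)) (derivative^[s] (v a)) z)
    {n K : ℕ} (hn : n = N + s) (hK : K = k + s) (y : Fin n → ℝ) (hy : StrictMono y)
    (hyI : ∀ i, y i ∈ Set.Icc A B) :
    0 ≤ ∑ a ∈ range d, Vd n K (u a) (v a) y := by
  induction s generalizing u v n K with
  | zero =>
    obtain rfl : n = N := by omega
    obtain rfl : K = k := by omega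
    simpa using H y hy hyI
  | succ s ih =>
    obtain rfl : n = (N + s) + 1 := by omega
    obtain rfl : K = (k + s) + 1 := by omega
    refine chain_step u v y hy fun z hz hzy => ?_
    refine ih (fun a => derivative (u a)) (fun a => derivative (v a)) ?_ rfl rfl z hz ?_
    · intro w hw hwI
      have h := H w hw hwI
      simpa only [Function.iterate_succ_apply] using h
    · intro i
      exact ⟨(hyI i.castSucc).1.trans (hzy i).1.le, (hzy i).2.le.trans (hyI i.succ).2⟩

theorem vd_two (u v : ℝ[X]) (z : Fin 2 → ℝ) :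
    Vd 2 0 u v z = u.eval (z 0) * v.eval (z 1) - v.eval (z 0) * u.eval (z 1) := by
  unfold Vd
  rw [Matrix.det_fin_two]
  simp

/-- A polynomial whose first two coefficients vanish. -/
private theorem eq_sq_mul (p : ℝ[X]) (h0 : p.coeff 0 = 0) (h1 : p.coeff 1 = 0) :
    p = X ^ 2 * divX (divX p) := by
  have e1 : p = divX p * X := by
    conv_lhs => rw [← divX_mul_X_add p]
    rw [h0, C_0, add_zero]
  have e2 : divX p = divX (divX p) * X := by
    conv_lhs => rw [← divX_mul_X_add (divX p)]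
    rw [coeff_divX, zero_add, h1, C_0, add_zero]
  calc p = divX p * X := e1
    _ = (divX (divX p) * X) * X := by rw [← e2]
    _ = X ^ 2 * divX (divX p) := by ring

/-- The derivative of order `k` of a multiple of `X^(k+m)` is a multiple of `X^2`. -/
private theorem der_eq_sq_mul {k m : ℕ} (hm : 2 ≤ m) (u : ℝ[X]) (hu : X ^ (k + m) ∣ u) :
    derivative^[k] u = X ^ 2 * divX (divX (derivative^[k] u)) := by
  rw [X_pow_dvd_iff] at hu
  refine eq_sq_mul _ ?_ ?_
  · rw [coeff_iterate_derivative, hu _ (by omega), smul_zero]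
  · rw [coeff_iterate_derivative, hu _ (by omega), smul_zero]

theorem chain_total {k m d : ℕ} (hm : 2 ≤ m) (u v : ℕ → ℝ[X]) (hu : ∀ a, X ^ (k + m) ∣ u a)
    (hv : ∀ a, X ^ (k + m) ∣ v a) {A B : ℝ}
    (H : ∀ z1 ∈ Set.Icc A B, ∀ z2 ∈ Set.Icc A B, z1 < z2 →
      0 ≤ Ker d (fun a => Mop k m (u a)) (fun a => Mop k m (v a)) z1 z2)
    {n : ℕ} (hn : n = k + m) (y : Fin n → ℝ) (hy : StrictMono y)
    (hyI : ∀ i, y i ∈ Set.Icc A B) :
    0 ≤ ∑ a ∈ range d, Vd n k (u a) (v a) y := by
  obtain ⟨q, rfl⟩ : ∃ q, m = q + 2 := ⟨m - 2, by omega⟩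
  refine chain_iter (N := q + 2) (k := 0) (d := d) (A := A) (B := B) k u v ?_
    (by omega) (by omega) y hy hyI
  intro z hz hzI
  have e : ∀ a, Vd (q + 2) 0 (derivative^[k] (u a)) (derivative^[k] (v a)) z =
      (∏ i, z i ^ 2) * Vd (q + 2) q (divX (divX (derivative^[k] (u a))))
        (divX (divX (derivative^[k] (v a)))) z := by
    intro a
    rw [← vd_zero_factor, ← der_eq_sq_mul hm _ (hu a), ← der_eq_sq_mul hm _ (hv a)]
  rw [Finset.sum_congr rfl fun a _ => e a, ← Finset.mul_sum]
  refine mul_nonneg (Finset.prod_nonneg fun i _ => sq_nonneg _) ?_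
  refine chain_iter (N := 2) (k := 0) (d := d) (A := A) (B := B) q
    (fun a => divX (divX (derivative^[k] (u a)))) (fun a => divX (divX (derivative^[k] (v a))))
    ?_ (by omega) (by omega) z hz hzI
  intro w hw hwI
  have h := H (w 0) (hwI 0) (w 1) (hwI 1) (hw (by decide))
  unfold Ker at h
  simp only [vd_two]
  simpa only [Mop, Nat.add_sub_cancel] using h

end Pool.Agent.LPW
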