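import Mathlib

/-!
# LPW: definitions

`nod Y` is the monic node polynomial, `tc F j x` the Taylor coefficient `F^(j)(x)/j!`, `dv F j x` the
derivative `F^(j)(x)`, and `Cone A B Y F` says that `F` vanishes on `Y` and that the derivative of
order `|Y|` of `F` is nonnegative on `[A,B]`.
-/

set_option autoImplicit false

open Polynomial Finset

namespace Pool.Agent.LPW

/-- The monic node polynomial. -/
noncomputable def nod (Y : Finset ℝ) : ℝ[X] := ∏ y ∈ Y, (X - C y)

/-- The Taylor coefficient `F^(j)(x)/j!`. -/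
noncomputable def tc (F : ℝ[X]) (j : ℕ) (x : ℝ) : ℝ := (hasseDeriv j F).eval x

/-- The derivative `F^(j)(x)`. -/
noncomputable def dv (F : ℝ[X]) (j : ℕ) (x : ℝ) : ℝ := (derivative^[j] F).eval x

/-- The cone of polynomials vanishing on `Y` whose derivative of order `|Y|` is nonnegative on
`[A,B]`. -/
structure Cone (A B : ℝ) (Y : Finset ℝ) (F : ℝ[X]) : Prop where
  zero : ∀ y ∈ Y, F.eval y = 0
  pos : ∀ x ∈ Set.Icc A B, 0 ≤ dv F Y.card x

/-- The determinant with rows `(1, y_i, ..., y_i^(N-1))`, where the columns `k` and `k+1` are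
replaced by `u(y_i)` and `v(y_i)`. -/
noncomputable def Vd (N k : ℕ) (u v : ℝ[X]) (y : Fin N → ℝ) : ℝ :=
  Matrix.det (Matrix.of fun i j : Fin N =>
    if (j : ℕ) = k then u.eval (y i)
    else if (j : ℕ) = k + 1 then v.eval (y i) else y i ^ (j : ℕ))

/-- The antisymmetric kernel `sum_a (u_a(y) v_a(z) - v_a(y) u_a(z))`. -/
noncomputable def Ker (d : ℕ) (u v : ℕ → ℝ[X]) (y z : ℝ) : ℝ :=
  ∑ a ∈ range d, ((u a).eval y * (v a).eval z - (v a).eval y * (u a).eval z)

/-- The family `u_a = X^(e+a)`. -/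
noncomputable def fu (e a : ℕ) : ℝ[X] := X ^ (e + a)

/-- The family `v_a = X^e Q R^[a]`, where `R^[a] = divX^(a+1) R`. -/
noncomputable def fv (e : ℕ) (Q R : ℝ[X]) (a : ℕ) : ℝ[X] := X ^ e * Q * (divX^[a + 1] R)

/-- The operator obtained at the end of the chain: `D^(m-2) (X^(-2) D^k u)`. -/
noncomputable def Mop (k m : ℕ) (u : ℝ[X]) : ℝ[X] :=
  derivative^[m - 2] (divX (divX (derivative^[k] u)))

/-- The operator `D^(n-1) (u/X)`. -/
noncomputable def shp (n : ℕ) (u : ℝ[X]) : ℝ[X] := derivative^[n - 1] (divX u)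

/-- `aP n F z i = sum_j binom(j+i,i) F_(n+j) (X-z)^j`, where `F_j` are the Taylor coefficients of
`F` at `z`.  For `i = 0` this is the remainder `(F - T) / (X-z)^n`, where `T` is the Taylor
polynomial of degree `n-1` at `z`; for `i = n` it is `F^(n)/n!`. -/
noncomputable def aP (n : ℕ) (F : ℝ[X]) (z : ℝ) (i : ℕ) : ℝ[X] :=
  ∑ j ∈ range (F.natDegree + 1), C (((j + i).choose i : ℝ) * tc F (n + j) z) * (X - C z) ^ j

/-- The polynomial in `y` obtained from the kernel of the families `fu (n-1)`, `fv (n-1)` by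
taking the derivative of order `n-1` in the second variable at `z`. -/
noncomputable def Rz (n d : ℕ) (Q R : ℝ[X]) (z : ℝ) : ℝ[X] :=
  ∑ a ∈ range d, (C (dv (fv (n - 1) Q R a) (n - 1) z) * fu (n - 1) a -
    C (dv (fu (n - 1) a) (n - 1) z) * fv (n - 1) Q R a)

/-- The coefficient of index `j` of the polynomial of degree `< n` interpolating `u` at the `y_i`. -/
noncomputable def lc {n : ℕ} (y : Fin n → ℝ) (j : ℕ) (u : ℝ[X]) : ℝ :=
  ∑ i, u.eval (y i) * (Lagrange.basis univ y i).coeff j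

/-- The bilinear form `f_k g_k - w_(k+1) [f g / w]_(k-1)` (power series at `0`). -/
noncomputable def alp (w : ℝ[X]) (k : ℕ) (f g : ℝ[X]) : ℝ :=
  f.coeff k * g.coeff k - w.coeff (k + 1) *
    PowerSeries.coeff (k - 1) ((f : PowerSeries ℝ) * (g : PowerSeries ℝ) * (w : PowerSeries ℝ)⁻¹)

/-- The coefficient of the forms of Part I. -/
noncomputable def cfc (i k r l : ℕ) : ℝ :=
  (i.choose l : ℝ) * (k.descFactorial l : ℝ) * (ascPochhammer ℝ l).eval ((k : ℝ) - r - i)

/-- The forms of Part I: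
`sum_l cfc i k r l (X-c)^(r+2(i-l)) F^(k-l) G^(k-l)`. -/
noncomputable def Cf (F G : ℝ[X]) (c : ℝ) (i k r : ℕ) : ℝ[X] :=
  ∑ l ∈ range (i + 1), C (cfc i k r l) * (X - C c) ^ (r + 2 * (i - l)) *
    (derivative^[k - l] F * derivative^[k - l] G)

/-- The reflected polynomial `(-1)^n F(-x)`. -/
noncomputable def rfl' (n : ℕ) (F : ℝ[X]) : ℝ[X] := C ((-1 : ℝ) ^ n) * F.comp (-X)

end Pool.Agent.LPW
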