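import Pool.Agent.LPW.PLY
import Pool.Agent.LPW.APC
import Pool.Agent.LPW.APD

/-!
# LPW / FIN: the main theorem
-/

set_option autoImplicit false

open Polynomial Finset MeasureTheory

namespace Pool.Agent.LPW

theorem main_finset {n : ℕ} (hn : 2 ≤ n) {Y : Finset ℝ} (hYn : Y.card = n)
    (hY : ∀ y ∈ Y, y ∈ Set.Icc (-1 : ℝ) 1) {k : ℕ} (hk1 : 1 ≤ k) (hk2 : k ≤ n - 1) {p : ℝ}
    (hp : p = 2 ∨ ((n : ℝ) ≤ p * ((n : ℝ) - k) ∧ p ≤ 2)) {f : ℝ → ℝ}
    (hf : ContDiff ℝ ((n - 1 : ℕ) : WithTop ℕ∞) f)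
    (hL : LipschitzOnWith 1 (iteratedDeriv (n - 1) f) (Set.Icc (-1 : ℝ) 1))
    (hz : ∀ y ∈ Y, f y = 0) :
    ∫ x in (-1 : ℝ)..1, |iteratedDeriv k f x| ^ p ≤
      ∫ x in (-1 : ℝ)..1, |dv (nod Y) k x / (n.factorial : ℝ)| ^ p := by
  have hk3 : k + 1 ≤ n := by omega
  have hp0 : 0 < p := by
    rcases hp with rfl | ⟨h1, -⟩
    · norm_num
    · have h2 : (0 : ℝ) < (n : ℝ) - k := by
        have : (k : ℝ) + 1 ≤ n := by exact_mod_cast hk3
        linarith
      have h3 : (0 : ℝ) < n := by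
        have : 0 < n := by omega
        exact_mod_cast this
      by_contra h
      push Not at h
      have := mul_nonpos_of_nonpos_of_nonneg h h2.le
      linarith
  have hcont : Continuous (iteratedDeriv k f) :=
    hf.continuous_iteratedDeriv k (by exact_mod_cast hk2)
  refine limit_ineq (k := k) hcont hp0 ?_
  intro ε hε
  obtain ⟨P, h0, h1, h2⟩ := approx_nodes (by omega) hYn hY hf hL hz hε
  refine ⟨P, fun x hx => h2 k hk2 x hx, ?_⟩
  subst hYn
  exact poly_main (by norm_num) hY hk1 hk3 hp h0 h1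

end Pool.Agent.LPW
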