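import Pool.Agent.LPW.AT

/-!
# LPW / IDL: the inequality alpha after exchanging a node for the point `x`

Let `l` in `Y`, `w_l = nod (Y.erase l)`, first `x` not in `Y`; `c = F(x)/w_l(x)`, `c' = G(x)/w_l(x)`.  By
`cone_quot_exists` and `cone_quot` there are `F1, G1` in the cone of `Y.erase l` with
`(X-x) F1 = F - c w_l`, `(X-x) G1 = G - c' w_l`; let `F1 G1 = w_l h1` (`exists_h`).  Apply `alpha_nonneg`
with `k-1` to `Y.erase l` (`n - 1 ≥ (k-1) + 2`):
  `(*)  tc w_l k x * tc ((X-x) h1) (k-1) x ≤ tc F1 (k-1) x * tc G1 (k-1) x`.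
Write `F_k = tc F k x` and so on, `w_lk = tc w_l k x`.
* `tc F1 (k-1) x = tc ((X-x) F1) k x = F_k - c w_lk` (`tc_shift`), similarly for `G1`.
* `(X-x)^2 F1 G1 = (F - c w_l)(G - c' w_l) = F G - w_l (c G + c' F) + c c' w_l^2` and
  `F G = nod Y * h = (X-l) w_l h` (`nod_erase`), so, cancelling `w_l ≠ 0`,
  `(X-x)^2 h1 = (X-l) h - c G - c' F + c c' w_l`, and
  `tc ((X-x) h1) (k-1) x = tc ((X-x)^2 h1) k x = tc ((X-l) h) k x - c G_k - c' F_k + c c' w_lk`.
Insert in (*): everything with `c, c'` cancels and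
`w_lk * tc ((X-l) h) k x ≤ F_k G_k`.
For `x` in `Y` use continuity: `le_of_off_finset`, `continuous_tc`.
-/

set_option autoImplicit false

open Polynomial Finset

namespace Pool.Agent.LPW

private theorem IDL_off {A B : ℝ} {Y : Finset ℝ} {F G h : ℝ[X]} {k : ℕ}
    (hY : ∀ y ∈ Y, y ∈ Set.Icc A B) (hF : Cone A B Y F) (hG : Cone A B Y G)
    (hh : F * G = nod Y * h) (hn : k + 1 + 2 ≤ Y.card) {l : ℝ} (hl : l ∈ Y) {x : ℝ}
    (hx : x ∈ Set.Icc A B) (hxY : x ∉ Y) :
    tc (nod (Y.erase l)) (k + 1) x * tc ((X - C l) * h) (k + 1) x ≤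
      tc F (k + 1) x * tc G (k + 1) x := by
  obtain ⟨F1, hF1⟩ := cone_quot_exists F (l := l) hxY
  obtain ⟨G1, hG1⟩ := cone_quot_exists G (l := l) hxY
  have cF := cone_quot hF hl hx hxY hF1
  have cG := cone_quot hG hl hx hxY hG1
  obtain ⟨h1, hh1⟩ := exists_h G1 cF
  have hc : k + 2 ≤ (Y.erase l).card := by
    rw [card_erase_of_mem hl]
    omega
  have al := alpha_nonneg k (fun y hy => hY y (mem_of_mem_erase hy)) cF cG hh1 hc hx
  have e1 : tc F1 k x = tc F (k + 1) x -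
      (F.eval x / (nod (Y.erase l)).eval x) * tc (nod (Y.erase l)) (k + 1) x := by
    rw [← tc_shift, hF1, tc_sub, tc_C_mul]
  have e2 : tc G1 k x = tc G (k + 1) x -
      (G.eval x / (nod (Y.erase l)).eval x) * tc (nod (Y.erase l)) (k + 1) x := by
    rw [← tc_shift, hG1, tc_sub, tc_C_mul]
  have hw : nod (Y.erase l) ≠ 0 := (nod_monic _).ne_zero
  have e3 : (X - C x) * ((X - C x) * h1) = (X - C l) * h -
      C (F.eval x / (nod (Y.erase l)).eval x) * G - C (G.eval x / (nod (Y.erase l)).eval x) * F +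
      C ((F.eval x / (nod (Y.erase l)).eval x) * (G.eval x / (nod (Y.erase l)).eval x)) *
        nod (Y.erase l) := by
    refine mul_left_cancel₀ hw ?_
    have h2 : nod (Y.erase l) * ((X - C x) * ((X - C x) * h1)) =
        ((X - C x) * F1) * ((X - C x) * G1) := by
      calc nod (Y.erase l) * ((X - C x) * ((X - C x) * h1)) =
          (X - C x) * (X - C x) * (nod (Y.erase l) * h1) := by ring
        _ = (X - C x) * (X - C x) * (F1 * G1) := by rw [hh1]
        _ = ((X - C x) * F1) * ((X - C x) * G1) := by ring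
    have h3 : F * G = (X - C l) * nod (Y.erase l) * h := by
      rw [hh, nod_erase hl]
    rw [h2, hF1, hG1, C_mul]
    linear_combination h3
  have e4 : tc ((X - C x) * h1) k x = tc ((X - C l) * h) (k + 1) x -
      (F.eval x / (nod (Y.erase l)).eval x) * tc G (k + 1) x -
      (G.eval x / (nod (Y.erase l)).eval x) * tc F (k + 1) x +
      (F.eval x / (nod (Y.erase l)).eval x) * (G.eval x / (nod (Y.erase l)).eval x) *
        tc (nod (Y.erase l)) (k + 1) x := by
    rw [← tc_shift, e3, tc_add, tc_sub, tc_sub, tc_C_mul, tc_C_mul, tc_C_mul]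
  rw [e1, e2, e4] at al
  linarith

theorem alpha_erase {A B : ℝ} {Y : Finset ℝ} {F G h : ℝ[X]} {k : ℕ}
    (hY : ∀ y ∈ Y, y ∈ Set.Icc A B) (hF : Cone A B Y F) (hG : Cone A B Y G)
    (hh : F * G = nod Y * h) (hk : 1 ≤ k) (hn : k + 2 ≤ Y.card) {l : ℝ} (hl : l ∈ Y) {x : ℝ}
    (hx : x ∈ Set.Icc A B) :
    tc (nod (Y.erase l)) k x * tc ((X - C l) * h) k x ≤ tc F k x * tc G k x := by
  obtain ⟨k, rfl⟩ : ∃ k', k = k' + 1 := ⟨k - 1, by omega⟩
  exact le_of_off_finset (lt_of_two_le_card hY (by omega)) Y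
    (fun x => tc (nod (Y.erase l)) (k + 1) x * tc ((X - C l) * h) (k + 1) x)
    (fun x => tc F (k + 1) x * tc G (k + 1) x)
    ((continuous_tc _ _).mul (continuous_tc _ _)) ((continuous_tc _ _).mul (continuous_tc _ _))
    (fun z hz hzY => IDL_off hY hF hG hh hn hl hz hzY) x hx

end Pool.Agent.LPW
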