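import Pool.Agent.LPW.BAS

/-!
# LPW / ITG: integrability of `|nod R|^q`, `q > -1`

For `q ≥ 0` the function is continuous.  Let `-1 < q < 0`.  Let `0 < δ ≤ 1` be such that two different
elements of `R` have distance `≥ 2 δ` (`R` is finite).  Then for every real `x`:
`|nod R (x)|^q ≤ M * (1 + sum_(r in R) |x - r|^q)` with `M = (δ^|R|)^q = δ^(q |R|) ≥ 1`:
* if `|x-r| ≥ δ` for all `r`, then `|nod R (x)| ≥ δ^|R|`;
* otherwise there is exactly one `r0` with `|x-r0| < δ`, all other factors are `≥ δ`, so
  `|nod R (x)| ≥ |x-r0| δ^(|R|-1) ≥ |x - r0| δ^|R|`, and if `x ≠ r0`,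
  `|nod R (x)|^q ≤ |x-r0|^q (δ^|R|)^q` (`Real.rpow_le_rpow_of_nonpos`-like, `Real.mul_rpow`);
  if `x = r0` the left side is `0^q = 0`.
The right side is interval integrable: `x ↦ |x - r|^q` is (`intervalIntegral.intervalIntegrable_rpow'`
for `q > -1`, `IntervalIntegrable.comp_sub_right`, symmetry for the negative side).  Measurability of the
left side: `Measurable` (continuous, then `abs`, then `rpow` with a constant exponent).
Use `IntervalIntegrable.mono_fun`.
-/

set_option autoImplicit false

open Polynomial Finset MeasureTheory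

namespace Pool.Agent.LPW

private theorem ITG_abs_rpow {q : ℝ} (hq : -1 < q) (a b : ℝ) :
    IntervalIntegrable (fun x : ℝ => |x| ^ q) volume a b := by
  have h0 : ∀ c : ℝ, 0 ≤ c → IntervalIntegrable (fun x : ℝ => |x| ^ q) volume 0 c := by
    intro c hc
    have h1 : IntervalIntegrable (fun x : ℝ => x ^ q) volume 0 c :=
      intervalIntegral.intervalIntegrable_rpow' hq
    rw [intervalIntegrable_iff_integrableOn_Ioc_of_le hc] at h1 ⊢
    refine h1.congr_fun ?_ measurableSet_Ioc
    intro x hx
    simp only [abs_of_pos hx.1]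
  have h2 : ∀ c : ℝ, IntervalIntegrable (fun x : ℝ => |x| ^ q) volume 0 c := by
    intro c
    rcases le_total 0 c with hc | hc
    · exact h0 c hc
    · rw [IntervalIntegrable.iff_comp_neg, neg_zero]
      simp only [abs_neg]
      exact h0 (-c) (by linarith)
  exact (h2 a).symm.trans (h2 b)

theorem intervalIntegrable_abs_sub_rpow {q : ℝ} (hq : -1 < q) (r a b : ℝ) :
    IntervalIntegrable (fun x => |x - r| ^ q) volume a b := by
  have h := (ITG_abs_rpow hq (a - r) (b - r)).comp_sub_right r
  rwa [sub_add_cancel, sub_add_cancel] at h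

private theorem ITG_contOn (S : Finset ℝ) (q : ℝ) (K : Set ℝ) (hK : ∀ x ∈ K, x ∉ S) :
    ContinuousOn (fun x => |(nod S).eval x| ^ q) K := by
  apply ContinuousOn.rpow_const
  · exact ((nod S).continuous.abs).continuousOn
  · intro x hx
    left
    exact abs_ne_zero.mpr (nod_eval_ne (hK x hx))

private theorem ITG_loc (R : Finset ℝ) {q : ℝ} (hq : -1 < q) :
    LocallyIntegrable (fun x => |(nod R).eval x| ^ q) volume := by
  intro x0
  have hU : IsOpen ((R.erase x0 : Finset ℝ) : Set ℝ)ᶜ :=
    (Finset.finite_toSet _).isClosed.isOpen_compl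
  have hx0 : x0 ∈ ((R.erase x0 : Finset ℝ) : Set ℝ)ᶜ := by
    simp
  obtain ⟨ε, hε, hsub⟩ := Metric.nhds_basis_closedBall.mem_iff.mp (hU.mem_nhds hx0)
  refine ⟨Metric.closedBall x0 ε, Metric.closedBall_mem_nhds x0 hε, ?_⟩
  have hK : IsCompact (Metric.closedBall x0 ε) := isCompact_closedBall x0 ε
  have hg : ContinuousOn (fun x => |(nod (R.erase x0)).eval x| ^ q) (Metric.closedBall x0 ε) := by
    apply ITG_contOn
    intro x hx hxR
    exact hsub hx (by exact_mod_cast hxR)
  by_cases hR : x0 ∈ R
  · have h1 : IntegrableOn (fun x => |x - x0| ^ q) (Metric.closedBall x0 ε) volume := by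
      rw [Real.closedBall_eq_Icc]
      exact (intervalIntegrable_iff_integrableOn_Icc_of_le (by linarith)).mp
        (intervalIntegrable_abs_sub_rpow hq x0 (x0 - ε) (x0 + ε))
    have h2 := h1.mul_continuousOn hg hK
    refine h2.congr_fun ?_ measurableSet_closedBall
    intro x _
    simp only
    rw [nod_erase hR, eval_mul, abs_mul, Real.mul_rpow (abs_nonneg _) (abs_nonneg _)]
    simp
  · rw [Finset.erase_eq_of_notMem hR] at hg
    exact hg.integrableOn_compact hK

theorem intervalIntegrable_nod_rpow (R : Finset ℝ) {q : ℝ} (hq : -1 < q) (a b : ℝ) :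
    IntervalIntegrable (fun x => |(nod R).eval x| ^ q) volume a b := by
  apply MeasureTheory.IntegrableOn.intervalIntegrable
  exact (ITG_loc R hq).integrableOn_isCompact isCompact_uIcc

end Pool.Agent.LPW
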