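import Pool.Agent.LPW.Defs

/-!
# LPW / SGP: the signed power `t ↦ |t|^(p-2) t`

* `sgp_cont`: for `p > 1` it is continuous: off `0` clear (`ContinuousAt.rpow_const` for `|t| ≠ 0`); at `0`
  its absolute value is `|t|^(p-2) |t| = |t|^(p-1) → 0` (for `t ≠ 0`; `Real.rpow_add_one`), the value at
  `0` is `0` (multiplication by `t = 0`).
* `sgp_deriv`: for `t ≠ 0`, `d/dt |t| = t/|t|` and the derivative is
  `(p-2) |t|^(p-3) (t/|t|) t + |t|^(p-2) = (p-1) |t|^(p-2)`.  (Treat `t > 0` and `t < 0` separately: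
  near `t` the function is `t^(p-1)`, respectively `-(-t)^(p-1)`.)
-/

set_option autoImplicit false

open Polynomial Finset MeasureTheory

namespace Pool.Agent.LPW

private theorem SGP_pow {p t : ℝ} (ht : 0 < t) : t ^ (p - 2) * t = t ^ (p - 1) := by
  have h := Real.rpow_add_one ht.ne' (p - 2)
  rw [← h]
  congr 1
  ring

theorem sgp_cont {p : ℝ} (hp : 1 < p) : Continuous (fun t : ℝ => |t| ^ (p - 2) * t) := by
  rw [continuous_iff_continuousAt]
  intro t
  by_cases ht : t = 0
  · subst ht
    have h1 : Filter.Tendsto (fun x : ℝ => |x| ^ (p - 1)) (nhds 0) (nhds 0) := by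
      have h2 : Continuous fun x : ℝ => |x| ^ (p - 1) :=
        continuous_abs.rpow_const fun x => Or.inr (by linarith)
      have h3 := h2.tendsto 0
      have h4 : (|(0 : ℝ)| ^ (p - 1)) = 0 := by
        rw [abs_zero, Real.zero_rpow (by linarith)]
      rw [h4] at h3
      exact h3
    have h5 : Filter.Tendsto (fun x : ℝ => |x| ^ (p - 2) * x) (nhds 0) (nhds 0) := by
      refine squeeze_zero_norm (fun x => ?_) h1
      by_cases hx : x = 0
      · subst hx
        rw [mul_zero, norm_zero]
        exact Real.rpow_nonneg (abs_nonneg _) _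
      · have hx' : 0 < |x| := abs_pos.mpr hx
        rw [Real.norm_eq_abs, abs_mul, abs_of_nonneg (Real.rpow_nonneg (abs_nonneg x) _)]
        exact (SGP_pow hx').le
    have h6 : (fun x : ℝ => |x| ^ (p - 2) * x) 0 = 0 := by simp
    unfold ContinuousAt
    rw [h6]
    exact h5
  · have h1 : ContinuousAt (fun x : ℝ => |x| ^ (p - 2)) t :=
      continuous_abs.continuousAt.rpow_const (Or.inl (abs_ne_zero.mpr ht))
    exact h1.mul continuousAt_id

theorem sgp_deriv {p t : ℝ} (ht : t ≠ 0) :
    HasDerivAt (fun t : ℝ => |t| ^ (p - 2) * t) ((p - 1) * |t| ^ (p - 2)) t := by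
  rcases lt_or_gt_of_ne ht with h | h
  · have h0 : 0 < -t := by linarith
    have h1 : HasDerivAt (fun s : ℝ => -s) (-1) t := (hasDerivAt_id t).neg
    have h2 := (h1.rpow_const (p := p - 1) (Or.inl h0.ne')).neg
    have h3 : (fun s : ℝ => |s| ^ (p - 2) * s) =ᶠ[nhds t] fun s => -((-s) ^ (p - 1)) := by
      filter_upwards [Iio_mem_nhds h] with s hs
      have hs' : 0 < -s := by
        have : s < 0 := hs
        linarith
      rw [abs_of_neg hs, ← SGP_pow hs']
      ring
    refine (h2.congr_of_eventuallyEq h3).congr_deriv ?_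
    rw [abs_of_neg h, show p - 1 - 1 = p - 2 by ring]
    ring
  · have h2 := Real.hasDerivAt_rpow_const (x := t) (p := p - 1) (Or.inl h.ne')
    have h3 : (fun s : ℝ => |s| ^ (p - 2) * s) =ᶠ[nhds t] fun s => s ^ (p - 1) := by
      filter_upwards [Ioi_mem_nhds h] with s hs
      rw [abs_of_pos hs, SGP_pow hs]
    refine (h2.congr_of_eventuallyEq h3).congr_deriv ?_
    rw [abs_of_pos h, show p - 1 - 1 = p - 2 by ring]

end Pool.Agent.LPW
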