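import Pool.Agent.LPW.BAS

/-!
# LPW / SPL: the derivatives of the node polynomial have distinct real roots

Let `n = |Y|`, `k ≤ n`, `p = D^k (nod Y)`.  `p` has degree `n-k` and leading coefficient
`n!/(n-k)! = n.descFactorial k` (`nod_monic`, `Polynomial.natDegree_iterate_derivative`-like lemma,
`Polynomial.coeff_iterate_derivative`).  `nod Y` has `n` distinct roots, and by
`Polynomial.card_roots_toFinset_le_derivative` (`p.roots.toFinset.card ≤ p.derivative.roots.toFinset.card + 1`)
`p` has at least `n-k` distinct roots; so `R = p.roots.toFinset` has exactly `n-k` elements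
(`≤ natDegree`), `nod R` divides `p` (`nod_dvd`) and both have degree `n-k`, hence
`p = C (leading coefficient) * nod R`.
-/

set_option autoImplicit false

open Polynomial Finset MeasureTheory

namespace Pool.Agent.LPW

private theorem SPL_roots_card (Y : Finset ℝ) (k : ℕ) :
    Y.card ≤ (derivative^[k] (nod Y)).roots.toFinset.card + k := by
  induction k with
  | zero =>
    rw [Function.iterate_zero_apply, add_zero]
    apply Finset.card_le_card
    intro y hy
    rw [Multiset.mem_toFinset, Polynomial.mem_roots (nod_monic Y).ne_zero]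
    exact nod_eval_mem hy
  | succ k ih =>
    rw [Function.iterate_succ_apply']
    have h := Polynomial.card_roots_toFinset_le_derivative (derivative^[k] (nod Y))
    omega

theorem nod_deriv_split (Y : Finset ℝ) {k : ℕ} (hk : k ≤ Y.card) :
    ∃ R : Finset ℝ, R.card = Y.card - k ∧
      derivative^[k] (nod Y) = C (Y.card.descFactorial k : ℝ) * nod R := by
  have hcoef : (derivative^[k] (nod Y)).coeff (Y.card - k) = (Y.card.descFactorial k : ℝ) := by
    rw [Polynomial.coeff_iterate_derivative, Nat.sub_add_cancel hk]
    have h1 : (nod Y).coeff Y.card = 1 := by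
      have := (nod_monic Y).coeff_natDegree
      rwa [nod_natDegree] at this
    rw [h1, nsmul_eq_mul, mul_one]
  have hpos : (Y.card.descFactorial k : ℝ) ≠ 0 := by
    have h2 : Y.card.descFactorial k ≠ 0 := by
      intro h
      rw [Nat.descFactorial_eq_zero_iff_lt] at h
      omega
    exact_mod_cast h2
  have hne : derivative^[k] (nod Y) ≠ 0 := by
    intro h
    rw [h, coeff_zero] at hcoef
    exact hpos hcoef.symm
  have hdeg_le : (derivative^[k] (nod Y)).natDegree ≤ Y.card - k := by
    have := Polynomial.natDegree_iterate_derivative (nod Y) k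
    rwa [nod_natDegree] at this
  have hdeg : (derivative^[k] (nod Y)).natDegree = Y.card - k := by
    apply le_antisymm hdeg_le
    apply Polynomial.le_natDegree_of_ne_zero
    rw [hcoef]
    exact hpos
  set p := derivative^[k] (nod Y) with hp
  have hRge : Y.card - k ≤ p.roots.toFinset.card := by
    have := SPL_roots_card Y k
    rw [← hp] at this
    omega
  have hRle : p.roots.toFinset.card ≤ Y.card - k := by
    rw [← hdeg]
    exact le_trans (Multiset.toFinset_card_le _) (Polynomial.card_roots' p)
  have hRcard : p.roots.toFinset.card = Y.card - k := le_antisymm hRle hRge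
  refine ⟨p.roots.toFinset, hRcard, ?_⟩
  have hdvd : nod p.roots.toFinset ∣ p := by
    apply nod_dvd
    intro y hy
    rw [Multiset.mem_toFinset, Polynomial.mem_roots hne] at hy
    exact hy
  obtain ⟨q, hq⟩ := hdvd
  have hq0 : q ≠ 0 := by
    rintro rfl
    rw [mul_zero] at hq
    exact hne hq
  have hdq : q.natDegree = 0 := by
    have h3 : p.natDegree = (nod p.roots.toFinset).natDegree + q.natDegree := by
      conv_lhs => rw [hq]
      exact Polynomial.natDegree_mul (nod_monic _).ne_zero hq0
    rw [nod_natDegree, hRcard, hdeg] at h3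
    omega
  obtain ⟨a, ha⟩ : ∃ a, q = C a := ⟨q.coeff 0, Polynomial.eq_C_of_natDegree_eq_zero hdq⟩
  have hlead : p.leadingCoeff = a := by
    conv_lhs => rw [hq, ha]
    rw [Polynomial.leadingCoeff_mul, (nod_monic _).leadingCoeff, one_mul, Polynomial.leadingCoeff_C]
  have hlead2 : p.leadingCoeff = (Y.card.descFactorial k : ℝ) := by
    rw [Polynomial.leadingCoeff, hdeg, hcoef]
  rw [hlead] at hlead2
  rw [← hlead2, mul_comm, ← ha]
  exact hq

end Pool.Agent.LPW
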