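import Pool.Agent.LPW.KEY
import Pool.Agent.LPW.BN2
import Pool.Agent.LPW.SPL
import Pool.Agent.LPW.ITG
import Pool.Agent.LPW.SGP

/-!
# LPW / INT: the weighted inequality

Let `n = |Y|`, `w = nod Y`, `W(x) = dv w k x`, `F G = w h` (`exists_h`), `a = min Y`, `b = max Y`
(`Y` nonempty), `A ≤ a ≤ b ≤ B`.
1. `x ↦ |W(x)|^(p-2)` is interval integrable: `nod_deriv_split` (`W = c * nod R`, `c > 0`) and
   `intervalIntegrable_nod_rpow` with `q = p - 2 > -1` (`weight_integrable`); products with continuous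
   functions are interval integrable (`IntervalIntegrable.mul_continuousOn`).
2. Split `int_A^B = int_A^a + int_a^b + int_b^B`.  On `[b,B]` the integrand is `≥ 0`, because
   `dv F k x ≥ 0` and `dv G k x ≥ 0` (`cone_right`); on `[A,a]` because
   `dv F k x * dv G k x = ((-1)^(n-k) dv F k x) ((-1)^(n-k) dv G k x) ≥ 0` (`cone_left`).
3. On `[a,b]`: `S(x) = |W(x)|^(p-2) W(x) dv h (k-1) x` is continuous (`sgp_cont`) and off the finite set of
   zeros of `W` it has the derivative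
   `|W|^(p-2) ((p-1) W' dv h (k-1) + W dv h k)`, `W' = dv w (k+1)` (`sgp_deriv`, `hasDerivAt_dv`;
   `k - 1 + 1 = k`), which is interval integrable by 1.  So
   `int_a^b S' = S(b) - S(a)` (`MeasureTheory.integral_eq_of_hasDerivAt_off_countable` /
   `intervalIntegral.integral_eq_of_hasDerivAt_off_countable`).  By `key_ineq`,
   `(n-k) S' ≤ (n + b0) |W|^(p-2) dv F k * dv G k` pointwise, `n + b0 > 0`, so
   `int_a^b |W|^(p-2) dv F k dv G k ≥ (n-k)/(n+b0) (S(b) - S(a))`.
4. `S(b) ≥ 0`: `W(b) ≥ 0` (`cone_nod`, `cone_right`), `dv h (k-1) b ≥ 0` (`tc_h_last`, `tc_dv`).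
   `S(a) ≤ 0`: `(-1)^(n-k) W(a) ≥ 0` (`cone_left`) and `(-1)^(n+k-1) dv h (k-1) a ≥ 0` (`tc_h_first`), and
   `(-1)^(n-k) (-1)^(n+k-1) = -1`, so `W(a) dv h (k-1) a ≤ 0`.
-/

set_option autoImplicit false

open Polynomial Finset MeasureTheory

namespace Pool.Agent.LPW

theorem weight_integrable {Y : Finset ℝ} {k : ℕ} (hk : k ≤ Y.card) {p : ℝ} (hp : 1 < p)
    (a b : ℝ) : IntervalIntegrable (fun x => |dv (nod Y) k x| ^ (p - 2)) volume a b := by
  obtain ⟨R, -, hR⟩ := nod_deriv_split Y hk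
  have h1 : (fun x => |dv (nod Y) k x| ^ (p - 2)) =
      fun x => |(Y.card.descFactorial k : ℝ)| ^ (p - 2) * |(nod R).eval x| ^ (p - 2) := by
    funext x
    unfold dv
    rw [hR, eval_mul, eval_C, abs_mul, Real.mul_rpow (abs_nonneg _) (abs_nonneg _)]
  rw [h1]
  exact (intervalIntegrable_nod_rpow R (by linarith) a b).const_mul _

private theorem INT_mid {A B : ℝ} {Y : Finset ℝ} {F G h : ℝ[X]} {k : ℕ}
    (hY : ∀ y ∈ Y, y ∈ Set.Icc A B) (hF : Cone A B Y F) (hG : Cone A B Y G)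
    (hh : F * G = nod Y * h) (hk : 1 ≤ k)
    (hn : k + 2 ≤ Y.card) {p : ℝ} (hp1 : 1 < p)
    (hp : (k : ℝ) ≤ (p - 1) * ((Y.card : ℝ) - k)) {a b : ℝ} (ha : a ∈ Y) (hb : b ∈ Y)
    (haY : ∀ y ∈ Y, a ≤ y) (hbY : ∀ y ∈ Y, y ≤ b) :
    0 ≤ ∫ x in a..b, |dv (nod Y) k x| ^ (p - 2) * (dv F k x * dv G k x) := by
  have hab : a ≤ b := haY b hb
  have hkc : k ≤ Y.card := by omega
  obtain ⟨R, -, hR⟩ := nod_deriv_split Y hkc
  have hW : ∀ x, dv (nod Y) k x = (Y.card.descFactorial k : ℝ) * (nod R).eval x := by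
    intro x
    unfold dv
    rw [hR, eval_mul, eval_C]
  have hcpos : (Y.card.descFactorial k : ℝ) ≠ 0 := by
    have h2 : Y.card.descFactorial k ≠ 0 := by
      intro h
      rw [Nat.descFactorial_eq_zero_iff_lt] at h
      omega
    exact_mod_cast h2
  have hW0 : ∀ x, x ∉ (R : Set ℝ) → dv (nod Y) k x ≠ 0 := by
    intro x hx
    rw [hW]
    exact mul_ne_zero hcpos (nod_eval_ne (by simpa using hx))
  have hwt : ∀ g : ℝ → ℝ, Continuous g →
      IntervalIntegrable (fun x => |dv (nod Y) k x| ^ (p - 2) * g x) volume a b := fun g hg =>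
    (weight_integrable hkc hp1 a b).mul_continuousOn hg.continuousOn
  have hkk : k - 1 + 1 = k := by omega
  set S' : ℝ → ℝ := fun x => |dv (nod Y) k x| ^ (p - 2) *
    (dv (nod Y) k x * dv h k x + (p - 1) * (dv (nod Y) (k + 1) x * dv h (k - 1) x)) with hS'
  have hint : ∫ x in a..b, S' x =
      |dv (nod Y) k b| ^ (p - 2) * dv (nod Y) k b * dv h (k - 1) b -
      |dv (nod Y) k a| ^ (p - 2) * dv (nod Y) k a * dv h (k - 1) a := by
    apply MeasureTheory.integral_eq_of_hasDerivAt_off_countable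
      (fun x => |dv (nod Y) k x| ^ (p - 2) * dv (nod Y) k x * dv h (k - 1) x) S'
      (s := (R : Set ℝ)) R.countable_toSet
    · exact (((sgp_cont hp1).comp (continuous_dv (nod Y) k)).mul
        (continuous_dv h (k - 1))).continuousOn
    · intro x hx
      have h1 := (sgp_deriv (p := p) (hW0 x hx.2)).comp x (hasDerivAt_dv (nod Y) k x)
      have h2 := hasDerivAt_dv h (k - 1) x
      rw [hkk] at h2
      have h3 := h1.mul h2
      refine h3.congr_deriv ?_
      rw [hS']
      simp only [Function.comp]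
      ring
    · apply hwt
      exact ((continuous_dv _ _).mul (continuous_dv _ _)).add
        (continuous_const.mul ((continuous_dv _ _).mul (continuous_dv _ _)))
  have hnk : (0 : ℝ) < (Y.card : ℝ) - k := by
    have h1 : (k : ℝ) + 2 ≤ (Y.card : ℝ) := by exact_mod_cast hn
    linarith
  have hk0 : (0 : ℝ) < (k : ℝ) := by exact_mod_cast hk
  set c : ℝ := (Y.card : ℝ) + ((k : ℝ) + 1) * ((p - 1) * ((Y.card : ℝ) - k) - k) / k with hc
  have hc0 : 0 < c := by
    have h1 : 0 ≤ ((k : ℝ) + 1) * ((p - 1) * ((Y.card : ℝ) - k) - k) / k :=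
      div_nonneg (mul_nonneg (by positivity) (by linarith)) hk0.le
    have h2 : (0 : ℝ) < (Y.card : ℝ) := by linarith
    linarith
  have hle : ∫ x in a..b, ((Y.card : ℝ) - k) * S' x ≤
      ∫ x in a..b, c * (|dv (nod Y) k x| ^ (p - 2) * (dv F k x * dv G k x)) := by
    apply intervalIntegral.integral_mono_on hab
    · apply IntervalIntegrable.const_mul
      apply hwt
      exact ((continuous_dv _ _).mul (continuous_dv _ _)).add
        (continuous_const.mul ((continuous_dv _ _).mul (continuous_dv _ _)))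
    · apply IntervalIntegrable.const_mul
      exact hwt _ ((continuous_dv _ _).mul (continuous_dv _ _))
    · intro x hx
      have hx' : x ∈ Set.Icc A B := ⟨(hY a ha).1.trans hx.1, hx.2.trans (hY b hb).2⟩
      have h1 := key_ineq hY hF hG hh hk hn hp hx'
      have h2 : 0 ≤ |dv (nod Y) k x| ^ (p - 2) := Real.rpow_nonneg (abs_nonneg _) _
      have h3 := mul_le_mul_of_nonneg_left h1 h2
      rw [hS']
      calc _ = _ := by ring
        _ ≤ _ := h3
        _ = _ := by rw [← hc]; ring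
  rw [intervalIntegral.integral_const_mul, intervalIntegral.integral_const_mul, hint] at hle
  have hSb : 0 ≤ |dv (nod Y) k b| ^ (p - 2) * dv (nod Y) k b * dv h (k - 1) b := by
    have h1 : 0 ≤ dv (nod Y) k b := cone_right hY (cone_nod A B Y) (hY b hb) hbY hkc
    have h2 := tc_h_last hY hF hG hh hb hbY (j := k - 1) (by omega)
    have h3 : 0 ≤ dv h (k - 1) b := by
      rw [← tc_dv]
      positivity
    have h4 : 0 ≤ |dv (nod Y) k b| ^ (p - 2) := Real.rpow_nonneg (abs_nonneg _) _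
    positivity
  have hSa : |dv (nod Y) k a| ^ (p - 2) * dv (nod Y) k a * dv h (k - 1) a ≤ 0 := by
    have h1 : 0 ≤ (-1 : ℝ) ^ (Y.card - k) * dv (nod Y) k a :=
      cone_left hY (cone_nod A B Y) (hY a ha) haY hkc
    have h2 := tc_h_first hY hF hG hh ha haY (j := k - 1) (by omega)
    have h3 : 0 ≤ (-1 : ℝ) ^ (Y.card + (k - 1)) * dv h (k - 1) a := by
      rw [← tc_dv]
      have h5 : (0 : ℝ) ≤ ((k - 1).factorial : ℝ) := by positivity
      have h6 := mul_nonneg h5 h2
      linarith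
    have h4 : 0 ≤ |dv (nod Y) k a| ^ (p - 2) := Real.rpow_nonneg (abs_nonneg _) _
    have h5 : (-1 : ℝ) ^ (Y.card - k) * (-1 : ℝ) ^ (Y.card + (k - 1)) = -1 := by
      rw [← pow_add]
      apply Odd.neg_one_pow
      refine ⟨Y.card - 1, by omega⟩
    have h6 := mul_nonneg h1 h3
    have h7 : (-1 : ℝ) ^ (Y.card - k) * dv (nod Y) k a *
        ((-1 : ℝ) ^ (Y.card + (k - 1)) * dv h (k - 1) a) =
        -(dv (nod Y) k a * dv h (k - 1) a) := by
      calc _ = ((-1 : ℝ) ^ (Y.card - k) * (-1 : ℝ) ^ (Y.card + (k - 1))) *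
          (dv (nod Y) k a * dv h (k - 1) a) := by ring
        _ = _ := by rw [h5]; ring
    rw [h7] at h6
    have h8 : dv (nod Y) k a * dv h (k - 1) a ≤ 0 := by linarith
    have h9 := mul_nonpos_of_nonneg_of_nonpos h4 h8
    linarith
  have h10 : 0 ≤ ((Y.card : ℝ) - k) *
      (|dv (nod Y) k b| ^ (p - 2) * dv (nod Y) k b * dv h (k - 1) b -
      |dv (nod Y) k a| ^ (p - 2) * dv (nod Y) k a * dv h (k - 1) a) :=
    mul_nonneg hnk.le (by linarith)
  exact (mul_nonneg_iff_of_pos_left hc0).1 (h10.trans hle)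

theorem weighted_nonneg {A B : ℝ} {Y : Finset ℝ} {F G : ℝ[X]} {k : ℕ}
    (hY : ∀ y ∈ Y, y ∈ Set.Icc A B) (hF : Cone A B Y F) (hG : Cone A B Y G) (hk : 1 ≤ k)
    (hn : k + 2 ≤ Y.card) {p : ℝ} (hp1 : 1 < p)
    (hp : (k : ℝ) ≤ (p - 1) * ((Y.card : ℝ) - k)) :
    0 ≤ ∫ x in A..B, |dv (nod Y) k x| ^ (p - 2) * (dv F k x * dv G k x) := by
  have hkc : k ≤ Y.card := by omega
  have hne : Y.Nonempty := by
    rw [← Finset.card_pos]
    omega
  obtain ⟨h, hh⟩ := exists_h G hF
  set a := Y.min' hne with ha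
  set b := Y.max' hne with hb
  have haY : a ∈ Y := Y.min'_mem hne
  have hbY : b ∈ Y := Y.max'_mem hne
  have hamin : ∀ y ∈ Y, a ≤ y := fun y hy => Y.min'_le y hy
  have hbmax : ∀ y ∈ Y, y ≤ b := fun y hy => Y.le_max' y hy
  have hint : ∀ u v : ℝ, IntervalIntegrable
      (fun x => |dv (nod Y) k x| ^ (p - 2) * (dv F k x * dv G k x)) volume u v := fun u v =>
    (weight_integrable hkc hp1 u v).mul_continuousOn
      ((continuous_dv _ _).mul (continuous_dv _ _)).continuousOn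
  have h0 : ∀ x, 0 ≤ |dv (nod Y) k x| ^ (p - 2) := fun x => Real.rpow_nonneg (abs_nonneg _) _
  rw [← intervalIntegral.integral_add_adjacent_intervals (hint A a) (hint a B),
    ← intervalIntegral.integral_add_adjacent_intervals (hint a b) (hint b B)]
  have h1 : 0 ≤ ∫ x in A..a, |dv (nod Y) k x| ^ (p - 2) * (dv F k x * dv G k x) := by
    apply intervalIntegral.integral_nonneg (hY a haY).1
    intro x hx
    have hx' : x ∈ Set.Icc A B := ⟨hx.1, hx.2.trans (hY a haY).2⟩
    have hxY : ∀ y ∈ Y, x ≤ y := fun y hy => hx.2.trans (hamin y hy)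
    have h2 := cone_left hY hF hx' hxY hkc
    have h3 := cone_left hY hG hx' hxY hkc
    have h4 := mul_nonneg h2 h3
    have h5 : (-1 : ℝ) ^ (Y.card - k) * dv F k x * ((-1) ^ (Y.card - k) * dv G k x) =
        dv F k x * dv G k x := by
      have h6 : (-1 : ℝ) ^ (Y.card - k) * (-1) ^ (Y.card - k) = 1 := by
        rw [← mul_pow]
        norm_num
      calc _ = ((-1 : ℝ) ^ (Y.card - k) * (-1) ^ (Y.card - k)) * (dv F k x * dv G k x) := by ring
        _ = _ := by rw [h6, one_mul]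
    rw [h5] at h4
    exact mul_nonneg (h0 x) h4
  have h2 : 0 ≤ ∫ x in b..B, |dv (nod Y) k x| ^ (p - 2) * (dv F k x * dv G k x) := by
    apply intervalIntegral.integral_nonneg (hY b hbY).2
    intro x hx
    have hx' : x ∈ Set.Icc A B := ⟨(hY b hbY).1.trans hx.1, hx.2⟩
    have hxY : ∀ y ∈ Y, y ≤ x := fun y hy => (hbmax y hy).trans hx.1
    exact mul_nonneg (h0 x)
      (mul_nonneg (cone_right hY hF hx' hxY hkc) (cone_right hY hG hx' hxY hkc))
  have h3 := INT_mid hY hF hG hh hk hn hp1 hp haY hbY hamin hbmax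
  linarith

end Pool.Agent.LPW
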