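import Pool.Agent.LPW.IDL

/-!
# LPW / KEY: the key pointwise inequality

`sum_ineq`: sum `alpha_erase` over `l` in `Y`.  Write `k = k'+1`;
`tc ((X-l) h) k x = (x-l) h_k + h_(k-1)` (`tc_X_sub_C_mul_succ`).
`sum_l tc w_l k x = tc (w') k x = (k+1) w_(k+1)` (`sum_nod_erase`, `tc_derivative`, `tc_sum`), and
`sum_l (x-l) tc w_l k x = (n-k) w_k`: since `(X-l) w_l = w` (`nod_erase`),
`w_k = tc ((X-l) w_l) k x = (x-l) tc w_l k x + tc w_l (k-1) x`, and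
`sum_l tc w_l (k-1) x = tc (w') (k-1) x = k w_k`; so the sum is `n w_k - k w_k`.

`key_ineq`: `b = (k+1) ((p-1)(n-k) - k)/k ≥ 0`.  Add `sum_ineq` and `b` times
`alpha_nonneg` (`w_(k+1) h_(k-1) ≤ F_k G_k`, `k ≥ 1`, `tc_shift`):
`(n-k) w_k h_k + (k+1+b) w_(k+1) h_(k-1) ≤ (n+b) F_k G_k`, then multiply by `(k!)^2` and use
`j! tc _ j x = dv _ j x` (`tc_dv`): `(k!)^2 F_k G_k = dv F k x * dv G k x`,
`(k!)^2 w_k h_k = dv w k x * dv h k x`,
`(k!)^2 w_(k+1) h_(k-1) = (k/(k+1)) dv w (k+1) x * dv h (k-1) x`, and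
`(k+1+b) k/(k+1) = (p-1)(n-k)`.
-/

set_option autoImplicit false

open Polynomial Finset

namespace Pool.Agent.LPW

theorem sum_ineq {A B : ℝ} {Y : Finset ℝ} {F G h : ℝ[X]} {k : ℕ}
    (hY : ∀ y ∈ Y, y ∈ Set.Icc A B) (hF : Cone A B Y F) (hG : Cone A B Y G)
    (hh : F * G = nod Y * h) (hk : 1 ≤ k) (hn : k + 2 ≤ Y.card) {x : ℝ}
    (hx : x ∈ Set.Icc A B) :
    ((Y.card : ℝ) - k) * (tc (nod Y) k x * tc h k x) +
        ((k : ℝ) + 1) * (tc (nod Y) (k + 1) x * tc h (k - 1) x) ≤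
      (Y.card : ℝ) * (tc F k x * tc G k x) := by
  obtain ⟨k', rfl⟩ : ∃ k', k = k' + 1 := ⟨k - 1, by omega⟩
  have hsum : ∑ l ∈ Y, tc (nod (Y.erase l)) (k' + 1) x * tc ((X - C l) * h) (k' + 1) x ≤
      ∑ _l ∈ Y, tc F (k' + 1) x * tc G (k' + 1) x :=
    Finset.sum_le_sum fun l hl => alpha_erase hY hF hG hh hk hn hl hx
  rw [Finset.sum_const, nsmul_eq_mul] at hsum
  have h1 : ∀ j : ℕ, ∑ l ∈ Y, tc (nod (Y.erase l)) j x = ((j : ℝ) + 1) * tc (nod Y) (j + 1) x := by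
    intro j
    rw [← tc_sum, sum_nod_erase, tc_derivative]
  have h2 : ∀ l ∈ Y, (x - l) * tc (nod (Y.erase l)) (k' + 1) x =
      tc (nod Y) (k' + 1) x - tc (nod (Y.erase l)) k' x := by
    intro l hl
    have h3 := tc_X_sub_C_mul_succ (nod (Y.erase l)) l x k'
    rw [← nod_erase hl] at h3
    linarith
  have h4 : ∑ l ∈ Y, (x - l) * tc (nod (Y.erase l)) (k' + 1) x =
      ((Y.card : ℝ) - (k' + 1)) * tc (nod Y) (k' + 1) x := by
    rw [Finset.sum_congr rfl h2, Finset.sum_sub_distrib, Finset.sum_const, nsmul_eq_mul, h1 k']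
    ring
  have h5 : ∑ l ∈ Y, tc (nod (Y.erase l)) (k' + 1) x * tc ((X - C l) * h) (k' + 1) x =
      (∑ l ∈ Y, (x - l) * tc (nod (Y.erase l)) (k' + 1) x) * tc h (k' + 1) x +
        (∑ l ∈ Y, tc (nod (Y.erase l)) (k' + 1) x) * tc h k' x := by
    rw [Finset.sum_mul, Finset.sum_mul, ← Finset.sum_add_distrib]
    refine Finset.sum_congr rfl fun l _ => ?_
    rw [tc_X_sub_C_mul_succ]
    ring
  rw [h5, h4, h1 (k' + 1)] at hsum
  rw [Nat.add_sub_cancel]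
  push_cast at hsum ⊢
  calc _ = _ := by ring
    _ ≤ _ := hsum

theorem key_ineq {A B : ℝ} {Y : Finset ℝ} {F G h : ℝ[X]} {k : ℕ}
    (hY : ∀ y ∈ Y, y ∈ Set.Icc A B) (hF : Cone A B Y F) (hG : Cone A B Y G)
    (hh : F * G = nod Y * h) (hk : 1 ≤ k) (hn : k + 2 ≤ Y.card) {p : ℝ}
    (hp : (k : ℝ) ≤ (p - 1) * ((Y.card : ℝ) - k)) {x : ℝ} (hx : x ∈ Set.Icc A B) :
    ((Y.card : ℝ) - k) * (dv (nod Y) k x * dv h k x +
        (p - 1) * (dv (nod Y) (k + 1) x * dv h (k - 1) x)) ≤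
      ((Y.card : ℝ) + ((k : ℝ) + 1) * ((p - 1) * ((Y.card : ℝ) - k) - k) / k) *
        (dv F k x * dv G k x) := by
  obtain ⟨k', rfl⟩ : ∃ k', k = k' + 1 := ⟨k - 1, by omega⟩
  have hk0 : (0 : ℝ) < (k' : ℝ) + 1 := by positivity
  have hsum := sum_ineq hY hF hG hh hk hn hx
  have halp := alpha_nonneg (k' + 1) hY hF hG hh hn hx
  rw [tc_shift] at halp
  rw [Nat.add_sub_cancel] at hsum ⊢
  push_cast at hsum halp hp ⊢
  set a : ℝ := tc (nod Y) (k' + 1) x with ha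
  set w1 : ℝ := tc (nod Y) (k' + 1 + 1) x with hw1
  set h0 : ℝ := tc h (k' + 1) x with hh0
  set h1 : ℝ := tc h k' x with hh1
  set FG : ℝ := tc F (k' + 1) x * tc G (k' + 1) x with hFG
  obtain ⟨b, hb⟩ : ∃ b : ℝ, b = ((k' : ℝ) + 1 + 1) *
      ((p - 1) * ((Y.card : ℝ) - (k' + 1)) - (k' + 1)) / (k' + 1) := ⟨_, rfl⟩
  have hb0 : 0 ≤ b := by
    rw [hb]
    apply div_nonneg (mul_nonneg (by positivity) (by linarith)) hk0.le
  have hmul := mul_le_mul_of_nonneg_left halp hb0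
  have hcomb : ((Y.card : ℝ) - (k' + 1)) * (a * h0) + ((k' : ℝ) + 1 + 1 + b) * (w1 * h1) ≤
      ((Y.card : ℝ) + b) * FG := by linarith
  have hfac : (0 : ℝ) < ((k' + 1).factorial : ℝ) ^ 2 := by positivity
  have hfin := mul_le_mul_of_nonneg_left hcomb hfac.le
  have e1 : ((k' + 1 + 1).factorial : ℝ) = ((k' : ℝ) + 1 + 1) * ((k' + 1).factorial : ℝ) := by
    rw [Nat.factorial_succ (k' + 1)]; push_cast; ring
  have e2 : ((k' + 1).factorial : ℝ) = ((k' : ℝ) + 1) * (k'.factorial : ℝ) := by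
    rw [Nat.factorial_succ k']; push_cast; ring
  have e3 : ((k' : ℝ) + 1 + 1 + b) * ((k' : ℝ) + 1) =
      ((k' : ℝ) + 1 + 1) * (p - 1) * ((Y.card : ℝ) - (k' + 1)) := by
    rw [hb]; field_simp; ring
  rw [← hb]
  rw [← tc_dv (nod Y) (k' + 1) x, ← tc_dv h (k' + 1) x, ← tc_dv (nod Y) (k' + 1 + 1) x,
    ← tc_dv h k' x, ← tc_dv F (k' + 1) x, ← tc_dv G (k' + 1) x, ← ha, ← hw1, ← hh0, ← hh1]
  have e4 : ((Y.card : ℝ) - (k' + 1)) *
      (((k' + 1).factorial : ℝ) * a * (((k' + 1).factorial : ℝ) * h0) +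
        (p - 1) * (((k' + 1 + 1).factorial : ℝ) * w1 * ((k'.factorial : ℝ) * h1))) =
      ((k' + 1).factorial : ℝ) ^ 2 *
        (((Y.card : ℝ) - (k' + 1)) * (a * h0) + ((k' : ℝ) + 1 + 1 + b) * (w1 * h1)) := by
    rw [e1, e2]
    linear_combination (-(((k' : ℝ) + 1) * (k'.factorial : ℝ) ^ 2 * (w1 * h1))) * e3
  rw [e4]
  refine hfin.trans (le_of_eq ?_)
  rw [hFG]
  ring

end Pool.Agent.LPW
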