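import Pool.Agent.LPW.Defs

/-!
# LPW / MVR: the mean value theorem for sums of determinants

Let `R a j` be polynomials (`a < d`, `j < N`) and let `y` be strictly increasing on `Fin (N+1)`.
Then there is a `z : Fin N → ℝ` with `y_i < z_i < y_(i+1)` and
`sum_a det ( R_(a,j)(y_(i+1)) - R_(a,j)(y_i) ) = (prod_i (y_(i+1) - y_i)) * sum_a det ( R_(a,j)'(z_i) )`.

Proof.  Replace the rows one after the other: prove by induction on `s ≤ N` that there is a `z` with
`y_i < z_i < y_(i+1)` for all `i < s` (choose anything in the gap for the other `i`) such that the left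
side equals `sum_a det (M_(a,s))`, where the row `i` of `M_(a,s)` is
`(y_(i+1) - y_i) • (R_(a,j)'(z_i))_j` if `i < s` and `(R_(a,j)(y_(i+1)) - R_(a,j)(y_i))_j` otherwise.
Step `s → s+1`: let `φ(t) = sum_a det(M_(a,s) with the row s replaced by (R_(a,j)(t))_j)`
(`Matrix.updateRow`).  By the linearity of `det` in the row `s` (`Matrix.det_updateRow_sub`-like, or
expand along the row `s` with `Matrix.det_succ_row`, or use that `det` of `updateRow M s b` is
`sum_j b_j * adjugate`: `Matrix.cramer_transpose_apply`, `Matrix.cramer` is a linear map), there are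
numbers `c_(a,j)` with `det (updateRow M_(a,s) s b) = sum_j c_(a,j) b_j` for all `b`.  Hence
`φ(t) = sum_(a,j) c_(a,j) R_(a,j)(t)` is the evaluation of ONE polynomial
`P = sum_(a,j) C c_(a,j) * R_(a,j)`, the current sum is `φ(y_(s+1)) - φ(y_s)`, and by the mean value
theorem (`exists_deriv_eq_slope` or `exists_hasDerivAt_eq_slope`) it equals
`(y_(s+1) - y_s) P'(z_s)` for some `z_s` in the gap, which is the new sum.
At the end (`s = N`) take the factors `y_(i+1) - y_i` out of the rows (`Matrix.det_mul_column`:
`det (of fun i j => v i * A i j) = (prod_i v i) * det A`).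
-/

set_option autoImplicit false

open Polynomial Finset

namespace Pool.Agent.LPW

/-- Row `i` of the intermediate matrix. -/
private noncomputable def MVR_M {N : ℕ} (R : ℕ → Fin N → ℝ[X]) (y : Fin (N + 1) → ℝ) (z : Fin N → ℝ)
    (s a : ℕ) : Matrix (Fin N) (Fin N) ℝ :=
  Matrix.of fun i j : Fin N =>
    if (i : ℕ) < s then (y i.succ - y i.castSucc) * (derivative (R a j)).eval (z i)
    else (R a j).eval (y i.succ) - (R a j).eval (y i.castSucc)

/-- Expansion of the determinant along a row. -/
private theorem MVR_exp {N : ℕ} (M : Matrix (Fin N) (Fin N) ℝ) (s : Fin N) :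
    ∃ c : Fin N → ℝ, ∀ b : Fin N → ℝ, (M.updateRow s b).det = ∑ j, c j * b j := by
  refine ⟨fun j => (M.updateRow s (Pi.single j 1)).det, fun b => ?_⟩
  have h1 : ∀ b : Fin N → ℝ, (M.updateRow s b).det = M.transpose.cramer b s := by
    intro b
    rw [Matrix.cramer_transpose_apply]
  have h2 : b = ∑ j, b j • (Pi.single j (1 : ℝ) : Fin N → ℝ) := by
    funext i
    simp [Finset.sum_apply, Pi.single_apply]
  rw [h1]
  conv_lhs => rw [h2]
  rw [map_sum, Finset.sum_apply]
  refine Finset.sum_congr rfl (fun j _ => ?_)
  rw [map_smul, Pi.smul_apply, smul_eq_mul, mul_comm]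
  exact congrArg (fun x => x * b j) (h1 (Pi.single j 1)).symm

private theorem MVR_step {N d : ℕ} (R : ℕ → Fin N → ℝ[X]) (y : Fin (N + 1) → ℝ) (hy : StrictMono y)
    (s : ℕ) (hs : s ≤ N) :
    ∃ z : Fin N → ℝ, (∀ i : Fin N, y i.castSucc < z i ∧ z i < y i.succ) ∧
      ∑ a ∈ range d, (MVR_M R y z 0 a).det = ∑ a ∈ range d, (MVR_M R y z s a).det := by
  induction s with
  | zero =>
    refine ⟨fun i => (y i.castSucc + y i.succ) / 2, fun i => ?_, rfl⟩
    have h := hy (Fin.castSucc_lt_succ (i := i))
    constructor
    · show y i.castSucc < (y i.castSucc + y i.succ) / 2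
      linarith
    · show (y i.castSucc + y i.succ) / 2 < y i.succ
      linarith
  | succ s ih =>
    obtain ⟨z, hz, hsum⟩ := ih (by omega)
    have hsN : s < N := by omega
    set t : Fin N := ⟨s, hsN⟩ with ht
    choose c hc using fun a => MVR_exp (MVR_M R y z s a) t
    set P : ℝ[X] := ∑ a ∈ range d, ∑ j, C (c a j) * R a j with hP
    have hPe : ∀ x, P.eval x = ∑ a ∈ range d, ∑ j, c a j * (R a j).eval x := by
      intro x
      rw [hP, eval_finsetSum]
      refine Finset.sum_congr rfl (fun a _ => ?_)
      rw [eval_finsetSum]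
      refine Finset.sum_congr rfl (fun j _ => ?_)
      rw [eval_mul, eval_C]
    have hPd : ∀ x, (derivative P).eval x =
        ∑ a ∈ range d, ∑ j, c a j * (derivative (R a j)).eval x := by
      intro x
      rw [hP, derivative_sum, eval_finsetSum]
      refine Finset.sum_congr rfl (fun a _ => ?_)
      rw [derivative_sum, eval_finsetSum]
      refine Finset.sum_congr rfl (fun j _ => ?_)
      rw [derivative_C_mul, eval_mul, eval_C]
    have hlt := hy (Fin.castSucc_lt_succ (i := t))
    obtain ⟨x, hx, hxe⟩ := exists_hasDerivAt_eq_slope (fun x => P.eval x)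
      (fun x => (derivative P).eval x) hlt P.continuous.continuousOn
      (fun x _ => P.hasDerivAt x)
    have hne : y t.succ - y t.castSucc ≠ 0 := by
      have := sub_pos.2 hlt
      exact this.ne'
    have hxe' : P.eval (y t.succ) - P.eval (y t.castSucc) =
        (y t.succ - y t.castSucc) * (derivative P).eval x := by
      rw [hxe]
      field_simp
    refine ⟨Function.update z t x, fun i => ?_, ?_⟩
    · by_cases hi : i = t
      · subst hi
        rw [Function.update_self]
        exact ⟨hx.1, hx.2⟩
      · rw [Function.update_of_ne hi]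
        exact hz i
    · have e0 : ∀ a, MVR_M R y (Function.update z t x) 0 a = MVR_M R y z 0 a := by
        intro a
        ext i j
        simp [MVR_M]
      have e1 : ∀ a, MVR_M R y z s a = (MVR_M R y z s a).updateRow t
          (fun j => (R a j).eval (y t.succ) - (R a j).eval (y t.castSucc)) := by
        intro a
        ext i j
        by_cases hi : i = t
        · subst hi
          rw [Matrix.updateRow_self]
          simp [MVR_M, ht]
        · rw [Matrix.updateRow_ne hi]
      have e2 : ∀ a, MVR_M R y (Function.update z t x) (s + 1) a = (MVR_M R y z s a).updateRow t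
          (fun j => (y t.succ - y t.castSucc) * (derivative (R a j)).eval x) := by
        intro a
        ext i j
        by_cases hi : i = t
        · subst hi
          rw [Matrix.updateRow_self]
          simp [MVR_M, ht]
        · rw [Matrix.updateRow_ne hi]
          have hi' : (i : ℕ) ≠ s := fun h => hi (Fin.ext h)
          have h3 : ((i : ℕ) < s + 1) = ((i : ℕ) < s) := by
            apply propext
            omega
          simp only [MVR_M, Matrix.of_apply, h3, Function.update_of_ne hi]
      simp only [e0]
      rw [hsum]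
      have l1 : ∀ a, (MVR_M R y z s a).det =
          ∑ j, c a j * ((R a j).eval (y t.succ) - (R a j).eval (y t.castSucc)) := by
        intro a
        rw [← hc a, ← e1 a]
      have l2 : ∀ a, (MVR_M R y (Function.update z t x) (s + 1) a).det =
          ∑ j, c a j * ((y t.succ - y t.castSucc) * (derivative (R a j)).eval x) := by
        intro a
        rw [← hc a, ← e2 a]
      simp only [l1, l2]
      have l3 : ∑ a ∈ range d, ∑ j, c a j * ((R a j).eval (y t.succ) - (R a j).eval (y t.castSucc)) =
          P.eval (y t.succ) - P.eval (y t.castSucc) := by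
        rw [hPe, hPe, ← Finset.sum_sub_distrib]
        refine Finset.sum_congr rfl (fun a _ => ?_)
        rw [← Finset.sum_sub_distrib]
        refine Finset.sum_congr rfl (fun j _ => ?_)
        ring
      have l4 : ∑ a ∈ range d, ∑ j, c a j * ((y t.succ - y t.castSucc) *
          (derivative (R a j)).eval x) = (y t.succ - y t.castSucc) * (derivative P).eval x := by
        rw [hPd, Finset.mul_sum]
        refine Finset.sum_congr rfl (fun a _ => ?_)
        rw [Finset.mul_sum]
        refine Finset.sum_congr rfl (fun j _ => ?_)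
        ring
      rw [l3, l4, hxe']

theorem mvt_rows {N d : ℕ} (R : ℕ → Fin N → ℝ[X]) (y : Fin (N + 1) → ℝ) (hy : StrictMono y) :
    ∃ z : Fin N → ℝ, (∀ i : Fin N, y i.castSucc < z i ∧ z i < y i.succ) ∧
      ∑ a ∈ range d, Matrix.det (Matrix.of fun i j : Fin N =>
          (R a j).eval (y i.succ) - (R a j).eval (y i.castSucc)) =
        (∏ i : Fin N, (y i.succ - y i.castSucc)) *
          ∑ a ∈ range d, Matrix.det (Matrix.of fun i j : Fin N =>
            (derivative (R a j)).eval (z i)) := by
  obtain ⟨z, hz, h⟩ := MVR_step (d := d) R y hy N le_rfl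
  refine ⟨z, hz, ?_⟩
  have e0 : ∀ a, MVR_M R y z 0 a = Matrix.of fun i j : Fin N =>
      (R a j).eval (y i.succ) - (R a j).eval (y i.castSucc) := by
    intro a
    ext i j
    simp [MVR_M]
  have e1 : ∀ a, MVR_M R y z N a = Matrix.of fun i j : Fin N =>
      (y i.succ - y i.castSucc) * (Matrix.of fun i j : Fin N =>
        (derivative (R a j)).eval (z i)) i j := by
    intro a
    ext i j
    simp [MVR_M]
  simp only [e0, e1] at h
  rw [h, Finset.mul_sum]
  refine Finset.sum_congr rfl (fun a _ => ?_)
  exact Matrix.det_mul_column (fun i : Fin N => y i.succ - y i.castSucc) _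

end Pool.Agent.LPW
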