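import Pool.Agent.LPW.BAS
import Pool.Agent.LPW.SPL
import Pool.Agent.LPW.ITG

/-!
# LPW / PCS: from the weighted inequality to the inequality of the p-norms, `1 < p ≤ 2`

Let `W = dv (nod Y) k x`, `f = dv Q k x`; then `dv (nod Y + Q) k x * dv (nod Y - Q) k x = W^2 - f^2`.
Pointwise, for `W ≠ 0`: `|f|^p ≤ |W|^p - (p/2) |W|^(p-2) (W^2 - f^2)` (`conc_pt`).  Proof: with
`s = f^2/W^2 ≥ 0` and `θ = p/2` in `[1/2, 1]`: `s^θ ≤ 1 + θ (s - 1)`
(`Real.rpow_one_add_le_one_add_mul_self : -1 ≤ s → 0 ≤ p → p ≤ 1 → (1 + s)^p ≤ 1 + p * s`), multiply by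
`|W|^p`: `|W|^p s^θ = |f|^p`, `|W|^p (s-1) = |W|^(p-2) (f^2 - W^2)`.
`W` vanishes only at finitely many `x` (`D^k (nod Y) ≠ 0` for `k ≤ |Y|`), so the inequality holds almost
everywhere; integrate over `[A,B]` (`intervalIntegral.integral_mono_ae`): the functions `|f|^p`, `|W|^p` are
continuous and `|W|^(p-2)` is interval integrable (`nod_deriv_split`, `intervalIntegrable_nod_rpow` with
`q = p-2 > -1`, as in the module INT; prove it again here privately).
-/

set_option autoImplicit false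

open Polynomial Finset MeasureTheory

namespace Pool.Agent.LPW

theorem conc_pt {p W f : ℝ} (hp1 : 1 < p) (hp2 : p ≤ 2) (hW : W ≠ 0) :
    |f| ^ p ≤ |W| ^ p - p / 2 * (|W| ^ (p - 2) * (W ^ 2 - f ^ 2)) := by
  have hWp : 0 < |W| := abs_pos.mpr hW
  have hW2 : 0 < W ^ 2 := by positivity
  have h0 : (-1 : ℝ) ≤ f ^ 2 / W ^ 2 - 1 := by
    have : 0 ≤ f ^ 2 / W ^ 2 := by positivity
    linarith
  have h1 : (1 + (f ^ 2 / W ^ 2 - 1)) ^ (p / 2) ≤ 1 + p / 2 * (f ^ 2 / W ^ 2 - 1) :=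
    rpow_one_add_le_one_add_mul_self h0 (by linarith) (by linarith)
  have h2 : (1 + (f ^ 2 / W ^ 2 - 1)) ^ (p / 2) = |f| ^ p / |W| ^ p := by
    have e : 1 + (f ^ 2 / W ^ 2 - 1) = (|f| / |W|) ^ (2 : ℝ) := by
      rw [Real.rpow_two, div_pow, sq_abs, sq_abs]; ring
    rw [e, ← Real.rpow_mul (by positivity), show 2 * (p / 2) = p by ring,
      Real.div_rpow (abs_nonneg _) (abs_nonneg _)]
  have h3 : |W| ^ (p - 2) = |W| ^ p / W ^ 2 := by
    rw [Real.rpow_sub hWp, Real.rpow_two, sq_abs]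
  have hWpp : 0 < |W| ^ p := Real.rpow_pos_of_pos hWp p
  rw [h2, div_le_iff₀ hWpp] at h1
  rw [h3]
  refine h1.trans (le_of_eq ?_)
  field_simp
  ring

private theorem PCS_weight {Y : Finset ℝ} {k : ℕ} (hk : k ≤ Y.card) {p : ℝ} (hp : 1 < p)
    (a b : ℝ) : IntervalIntegrable (fun x => |dv (nod Y) k x| ^ (p - 2)) volume a b := by
  obtain ⟨R, _, hR⟩ := nod_deriv_split Y hk
  have h : (fun x => |dv (nod Y) k x| ^ (p - 2)) =
      fun x => |(Y.card.descFactorial k : ℝ)| ^ (p - 2) * |(nod R).eval x| ^ (p - 2) := by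
    funext x
    rw [dv, hR, eval_mul, eval_C, abs_mul, Real.mul_rpow (abs_nonneg _) (abs_nonneg _)]
  rw [h]
  exact (intervalIntegrable_nod_rpow R (by linarith) a b).const_mul _

private theorem PCS_ne {Y : Finset ℝ} {k : ℕ} (hk : k ≤ Y.card) :
    derivative^[k] (nod Y) ≠ 0 := by
  obtain ⟨R, _, hR⟩ := nod_deriv_split Y hk
  rw [hR]
  refine mul_ne_zero ?_ (nod_monic R).ne_zero
  rw [Ne, C_eq_zero, Nat.cast_eq_zero]
  exact (Nat.pos_of_ne_zero (by
    intro h0
    rw [Nat.descFactorial_eq_zero_iff_lt] at h0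
    omega)).ne'

theorem poly_case {A B : ℝ} (hAB : A ≤ B) {Y : Finset ℝ} {k : ℕ} (hkn : k ≤ Y.card) {p : ℝ}
    (hp1 : 1 < p) (hp2 : p ≤ 2) (Q : ℝ[X])
    (hpos : 0 ≤ ∫ x in A..B,
      |dv (nod Y) k x| ^ (p - 2) * (dv (nod Y + Q) k x * dv (nod Y - Q) k x)) :
    ∫ x in A..B, |dv Q k x| ^ p ≤ ∫ x in A..B, |dv (nod Y) k x| ^ p := by
  have hc : ∀ F : ℝ[X], Continuous (fun x => |dv F k x| ^ p) := fun F =>
    (continuous_dv F k).abs.rpow_const (fun _ => Or.inr (by linarith))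
  have hi : IntervalIntegrable (fun x => |dv (nod Y) k x| ^ (p - 2) *
      (dv (nod Y + Q) k x * dv (nod Y - Q) k x)) volume A B :=
    (PCS_weight hkn hp1 A B).mul_continuousOn
      ((continuous_dv _ k).mul (continuous_dv _ k)).continuousOn
  have hW : IntervalIntegrable (fun x => |dv (nod Y) k x| ^ p) volume A B :=
    (hc (nod Y)).intervalIntegrable A B
  have hne := PCS_ne (Y := Y) hkn
  have hae : ∀ᵐ x : ℝ ∂volume, dv (nod Y) k x ≠ 0 := by
    have hfin : {x : ℝ | dv (nod Y) k x = 0}.Finite := by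
      refine ((derivative^[k] (nod Y)).roots.toFinset.finite_toSet).subset ?_
      intro x hx
      simp only [Finset.mem_coe, Multiset.mem_toFinset]
      exact (mem_roots hne).mpr hx
    have := hfin.countable.measure_zero volume
    rw [ae_iff]
    simpa using this
  have key : ∫ x in A..B, |dv Q k x| ^ p ≤ ∫ x in A..B, (|dv (nod Y) k x| ^ p - p / 2 *
      (|dv (nod Y) k x| ^ (p - 2) * (dv (nod Y + Q) k x * dv (nod Y - Q) k x))) := by
    refine intervalIntegral.integral_mono_ae hAB ((hc Q).intervalIntegrable A B)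
      (hW.sub (hi.const_mul _)) ?_
    filter_upwards [hae] with x hx
    have := conc_pt (f := dv Q k x) hp1 hp2 hx
    rw [dv_add, dv_sub]
    refine this.trans (le_of_eq ?_)
    ring
  rw [intervalIntegral.integral_sub hW (hi.const_mul _), intervalIntegral.integral_const_mul] at key
  have : 0 ≤ p / 2 * ∫ x in A..B,
      |dv (nod Y) k x| ^ (p - 2) * (dv (nod Y + Q) k x * dv (nod Y - Q) k x) :=
    mul_nonneg (by linarith) hpos
  linarith

end Pool.Agent.LPW
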