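import Pool.Agent.LPW.INT
import Pool.Agent.LPW.PCS
import Pool.Agent.LPW.CFF

/-!
# LPW / PLY: the theorem for polynomials

Let `n = |Y|`, `Q = C (n!) * P`: `dv (nod Y ± Q) n x = n! (1 ± dv P n x) ≥ 0` (`dv_nod_card`), so
`nod Y ± Q` are in the cone.  By `poly_case` it is enough that
`0 ≤ int_A^B |dv (nod Y) k x|^(p-2) dv (nod Y + Q) k x * dv (nod Y - Q) k x`; then divide by `(n!)^p`
(`|n! a|^p = (n!)^p |a|^p`).  `p > 1`: if `n ≤ p (n-k)` then `p ≥ n/(n-k) > 1`.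
* If `n ≤ 2k+1` and `p = 2`: `part_one` (`|W|^0 = 1`, `Real.rpow_zero`).
* Otherwise `k + 2 ≤ n` and `n ≤ p (n-k)`: if `p = 2` then `n ≥ 2k+2` and `2(n-k) ≥ n`; if `p < 2` then
  `n ≤ p (n-k) < 2(n-k)`, so `n > 2k ≥ k + 1`, i.e. `n ≥ k+2`.  Then
  `(p-1)(n-k) = p(n-k) - (n-k) ≥ k`: `weighted_nonneg`.
-/

set_option autoImplicit false

open Polynomial Finset MeasureTheory

namespace Pool.Agent.LPW

theorem poly_main {A B : ℝ} (hAB : A ≤ B) {Y : Finset ℝ} (hY : ∀ y ∈ Y, y ∈ Set.Icc A B)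
    {k : ℕ} (hk1 : 1 ≤ k) (hkn : k + 1 ≤ Y.card) {p : ℝ}
    (hp : p = 2 ∨ ((Y.card : ℝ) ≤ p * ((Y.card : ℝ) - k) ∧ p ≤ 2)) {P : ℝ[X]}
    (hP0 : ∀ y ∈ Y, P.eval y = 0) (hPn : ∀ x ∈ Set.Icc A B, |dv P Y.card x| ≤ 1) :
    ∫ x in A..B, |dv P k x| ^ p ≤
      ∫ x in A..B, |dv (nod Y) k x / (Y.card.factorial : ℝ)| ^ p := by
  have hn0 : (0 : ℝ) < (Y.card.factorial : ℝ) := by exact_mod_cast Nat.factorial_pos _
  have hQ0 : ∀ y ∈ Y, (C (Y.card.factorial : ℝ) * P).eval y = 0 := fun y hy => by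
    rw [eval_mul, hP0 y hy, mul_zero]
  have hF : Cone A B Y (nod Y + C (Y.card.factorial : ℝ) * P) := by
    refine ⟨fun y hy => by rw [eval_add, nod_eval_mem hy, hQ0 y hy, add_zero], fun x hx => ?_⟩
    rw [dv_add, dv_nod_card, dv_C_mul]
    have := abs_le.1 (hPn x hx)
    nlinarith [this.1]
  have hG : Cone A B Y (nod Y - C (Y.card.factorial : ℝ) * P) := by
    refine ⟨fun y hy => by rw [eval_sub, nod_eval_mem hy, hQ0 y hy, sub_zero], fun x hx => ?_⟩
    rw [dv_sub, dv_nod_card, dv_C_mul]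
    have := abs_le.1 (hPn x hx)
    nlinarith [this.2]
  have hkn' : (k : ℝ) + 1 ≤ (Y.card : ℝ) := by exact_mod_cast hkn
  have hk1' : (1 : ℝ) ≤ (k : ℝ) := by exact_mod_cast hk1
  have hmain : 1 < p ∧ p ≤ 2 ∧ 0 ≤ ∫ x in A..B, |dv (nod Y) k x| ^ (p - 2) *
      (dv (nod Y + C (Y.card.factorial : ℝ) * P) k x *
        dv (nod Y - C (Y.card.factorial : ℝ) * P) k x) := by
    by_cases h2 : p = 2
    · subst h2
      refine ⟨by norm_num, le_rfl, ?_⟩
      rcases Nat.lt_or_ge (2 * k + 1) Y.card with h | h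
      · refine weighted_nonneg hY hF hG hk1 (by omega) (by norm_num) ?_
        have h' : 2 * (k : ℝ) + 2 ≤ (Y.card : ℝ) := by exact_mod_cast h
        linarith
      · refine (part_one hAB hY hF hG hkn h).trans (le_of_eq ?_)
        refine intervalIntegral.integral_congr fun x _ => ?_
        simp only [sub_self, Real.rpow_zero, one_mul]
    · have hp' : (Y.card : ℝ) ≤ p * ((Y.card : ℝ) - k) ∧ p ≤ 2 := hp.resolve_left h2
      obtain ⟨h3, h4⟩ := hp'
      have h5 : p < 2 := lt_of_le_of_ne h4 h2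
      have h6 : 1 < p := by
        by_contra hc
        push Not at hc
        have : p * ((Y.card : ℝ) - k) ≤ 1 * ((Y.card : ℝ) - k) :=
          mul_le_mul_of_nonneg_right hc (by linarith)
        linarith
      have h7 : p * ((Y.card : ℝ) - k) < 2 * ((Y.card : ℝ) - k) :=
        mul_lt_mul_of_pos_right h5 (by linarith)
      have h8 : 2 * (k : ℝ) < (Y.card : ℝ) := by linarith
      have h9 : 2 * k < Y.card := by exact_mod_cast h8
      refine ⟨h6, h4, weighted_nonneg hY hF hG hk1 (by omega) h6 ?_⟩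
      linarith
  obtain ⟨hp1, hp2, hpos⟩ := hmain
  have h := poly_case hAB (by omega : k ≤ Y.card) hp1 hp2 (C (Y.card.factorial : ℝ) * P) hpos
  have e1 : ∀ x : ℝ, |dv (C (Y.card.factorial : ℝ) * P) k x| ^ p =
      (Y.card.factorial : ℝ) ^ p * |dv P k x| ^ p := by
    intro x
    rw [dv_C_mul, abs_mul, abs_of_pos hn0, Real.mul_rpow hn0.le (abs_nonneg _)]
  have e2 : ∀ x : ℝ, |dv (nod Y) k x / (Y.card.factorial : ℝ)| ^ p =
      ((Y.card.factorial : ℝ) ^ p)⁻¹ * |dv (nod Y) k x| ^ p := by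
    intro x
    rw [abs_div, abs_of_pos hn0, Real.div_rpow (abs_nonneg _) hn0.le, div_eq_inv_mul]
  simp only [e1, intervalIntegral.integral_const_mul] at h
  simp only [e2, intervalIntegral.integral_const_mul]
  have hnp : (0 : ℝ) < (Y.card.factorial : ℝ) ^ p := Real.rpow_pos_of_pos hn0 p
  rw [← div_eq_inv_mul, le_div_iff₀ hnp, mul_comm]
  exact h

end Pool.Agent.LPW
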