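import Pool.Agent.LPW.MVR

/-!
# LPW / STP: one step of the chain

Let `y_0 < ... < y_N`.  The first column of the matrix of `Vd (N+1) (k+1) u_a v_a y` is the column of
ones.  Subtracting from every row the previous one and expanding along this column,
`Vd (N+1) (k+1) u_a v_a y = det ( g_(a,j)(y_(i+1)) - g_(a,j)(y_i) )_(i,j < N)` (`vd_diff`), where the
column `j < N` comes from the column `j+1` of the original matrix: `g_(a,j) = u_a` if `j = k`, `v_a` if
`j = k+1` and `X^(j+1)` otherwise.  (In Lean: `Matrix.det_eq_of_forall_row_eq_smul_add_pred` as in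
Mathlib's proof of `Matrix.det_vandermonde`, then `Matrix.det_succ_column_zero`.)
By `mvt_rows` with `R a j = g_(a,j)` the sum over `a` is `prod_i (y_(i+1) - y_i) > 0` times
`sum_a det ( g_(a,j)'(z_i) )`, where `g_(a,j)'` is `u_a'`, `v_a'` or `(j+1) X^j`.  Take the factors
`j+1` out of the columns `j ≠ k, k+1` (`Matrix.det_mul_row`: `det (of fun i j => v j * A i j) =
(prod_j v j) * det A`, with `v j = 1` for `j = k, k+1`): `det ( g_(a,j)'(z_i) )` is a positive number,
independent of `a`, times `Vd N k (u_a') (v_a') z`.  As `z` is strictly increasing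
(`z_i < y_(i+1) < z_(i+1)`), the hypothesis `H` gives the result.
-/

set_option autoImplicit false

open Polynomial Finset

namespace Pool.Agent.LPW

theorem vd_diff {N k : ℕ} (u v : ℝ[X]) (y : Fin (N + 1) → ℝ) :
    Vd (N + 1) (k + 1) u v y = Matrix.det (Matrix.of fun i j : Fin N =>
      (if (j : ℕ) = k then u else if (j : ℕ) = k + 1 then v else X ^ ((j : ℕ) + 1)).eval
          (y i.succ) -
        (if (j : ℕ) = k then u else if (j : ℕ) = k + 1 then v else X ^ ((j : ℕ) + 1)).eval
          (y i.castSucc)) := by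
  unfold Vd
  set A : Matrix (Fin (N + 1)) (Fin (N + 1)) ℝ := Matrix.of fun i j : Fin (N + 1) =>
    if (j : ℕ) = k + 1 then u.eval (y i)
    else if (j : ℕ) = k + 1 + 1 then v.eval (y i) else y i ^ (j : ℕ) with hA
  let B : Matrix (Fin (N + 1)) (Fin (N + 1)) ℝ := Matrix.of fun i j =>
    Fin.cases (A 0 j) (fun i' : Fin N => A i'.succ j - A i'.castSucc j) i
  have hB0 : ∀ j, B 0 j = A 0 j := fun j => rfl
  have hBs : ∀ (i : Fin N) j, B i.succ j = A i.succ j - A i.castSucc j := fun i j => rfl
  have hAB : A.det = B.det :=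
    Matrix.det_eq_of_forall_row_eq_smul_add_pred (fun _ => 1) (fun j => (hB0 j).symm)
      (fun i j => by rw [hBs, one_mul, sub_add_cancel])
  have hA0 : ∀ i, A i 0 = 1 := fun i => by simp [hA]
  rw [hAB, Matrix.det_succ_column_zero, Fin.sum_univ_succ, Finset.sum_eq_zero, add_zero]
  · rw [hB0, hA0, Fin.val_zero, pow_zero, one_mul, one_mul]
    congr 1
    ext i j
    rw [Matrix.submatrix_apply, Fin.succAbove_zero, hBs]
    simp only [hA, Matrix.of_apply, Fin.val_succ, Nat.add_right_cancel_iff]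
    split_ifs <;> simp
  · intro i _
    rw [hBs, hA0, hA0, sub_self, mul_zero, zero_mul]

private theorem stpMono51 {N : ℕ} (y : Fin (N + 1) → ℝ) (z : Fin N → ℝ)
    (hy : StrictMono y) (hz : ∀ i : Fin N, y i.castSucc < z i ∧ z i < y i.succ) : StrictMono z := by
  intro i j hij
  have h1 : i.succ ≤ j.castSucc := by
    rw [Fin.le_def, Fin.val_succ, Fin.val_castSucc]
    exact hij
  exact (hz i).2.trans_le ((hy.monotone h1).trans (hz j).1.le)

theorem chain_step {N k d : ℕ} (u v : ℕ → ℝ[X]) (y : Fin (N + 1) → ℝ) (hy : StrictMono y)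
    (H : ∀ z : Fin N → ℝ, StrictMono z → (∀ i : Fin N, y i.castSucc < z i ∧ z i < y i.succ) →
      0 ≤ ∑ a ∈ range d, Vd N k (derivative (u a)) (derivative (v a)) z) :
    0 ≤ ∑ a ∈ range d, Vd (N + 1) (k + 1) (u a) (v a) y := by
  obtain ⟨z, hz, hsum⟩ := mvt_rows (d := d) (fun a (j : Fin N) =>
    (if (j : ℕ) = k then u a else if (j : ℕ) = k + 1 then v a else X ^ ((j : ℕ) + 1) : ℝ[X])) y hy
  have hzm : StrictMono z := stpMono51 y z hy hz
  have h1 : ∑ a ∈ range d, Vd (N + 1) (k + 1) (u a) (v a) y = (∏ i : Fin N, (y i.succ - y i.castSucc)) *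
      ((∏ j : Fin N, (if (j : ℕ) = k then (1 : ℝ) else if (j : ℕ) = k + 1 then 1 else (j : ℕ) + 1)) *
        ∑ a ∈ range d, Vd N k (derivative (u a)) (derivative (v a)) z) := by
    rw [Finset.mul_sum (range d)]
    rw [Finset.sum_congr rfl fun a _ => vd_diff (u a) (v a) y, hsum]
    congr 1
    refine Finset.sum_congr rfl fun a _ => ?_
    rw [Vd, ← Matrix.det_mul_row]
    congr 1
    ext i j
    simp only [Matrix.of_apply]
    split_ifs
    · rw [one_mul]
    · rw [one_mul]
    · simp
  rw [h1]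
  refine mul_nonneg (Finset.prod_nonneg fun i _ => ?_) (mul_nonneg (Finset.prod_nonneg fun j _ => ?_) (H z hzm hz))
  · linarith [hy (Fin.castSucc_lt_succ (i := i))]
  · split_ifs <;> positivity

end Pool.Agent.LPW
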