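import Pool.Agent.LPW.Defs

/-!
# LPW / SYA: a double integral of an antisymmetric kernel

Let `w(t) = ((k+1) - k t) t^m`, `0 < p < q ≤ B`, `H` continuous and antisymmetric with `H(y,z) ≥ 0` for
`0 ≤ y ≤ z ≤ B`.  Claim: `I = int_0^1 int_0^1 w(t) w(s) H(t p, s q) ds dt ≥ 0`.

Proof.  Substitute `s = r p/q` on `[0, p/q]`, i.e. split the inner integral at `s = p/q`:
* for `s ≥ p/q` and `t ≤ 1`: `s q ≥ p ≥ t p ≥ 0`, so `H(t p, s q) ≥ 0`, `w(t), w(s) ≥ 0` on `[0,1]`
  (`(k+1) - k t ≥ 1`): this part is `≥ 0`;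
* the part `s ≤ p/q` becomes, with `c = p/q` in `(0,1)` and `s = c r`,
  `c int_0^1 int_0^1 w(t) w(c r) H(t p, r p) dr dt`.  Let `g(t,r) = w(t) w(c r) H(t p, r p)`.  By symmetry
  of the domain (Fubini, `MeasureTheory.integral_integral_swap` or
  `intervalIntegral.intervalIntegral_integral_swap`-like lemma for continuous functions)
  `int int g(t,r) = int int g(r,t)`, so `2 int int g = int int (g(t,r) + g(r,t))
   = int int (w(t) w(c r) - w(r) w(c t)) H(t p, r p)`.  And
  `w(t) w(c r) - w(r) w(c t) = (c t r)^m * k (k+1) (1 - c) (r - t)`: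
  `((k+1) - k t)((k+1) - k c r) - ((k+1) - k r)((k+1) - k c t) = k (k+1) (r + c t - t - c r)
   = k (k+1) (1-c) (r-t)`.
  So it has the sign of `r - t`, like `H(t p, r p)` (antisymmetry for `r ≤ t`), and the integrand is `≥ 0`.
-/

set_option autoImplicit false

open Polynomial Finset

namespace Pool.Agent.LPW

private theorem SYA_cont {g : ℝ → ℝ → ℝ} (hg : Continuous (fun z : ℝ × ℝ => g z.1 z.2))
    (a b : ℝ) : Continuous (fun t => ∫ s in a..b, g t s) :=
  intervalIntegral.continuous_parametric_intervalIntegral_of_continuous' (f := g) hg a b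

/-- Exchange of the order of integration for continuous functions. -/
theorem swap_integral (g : ℝ → ℝ → ℝ) (hg : Continuous (fun z : ℝ × ℝ => g z.1 z.2)) :
    ∫ t in (0 : ℝ)..1, ∫ s in (0 : ℝ)..1, g t s = ∫ s in (0 : ℝ)..1, ∫ t in (0 : ℝ)..1, g t s := by
  have hc : MeasureTheory.IntegrableOn (Function.uncurry g)
      (Set.Icc (0 : ℝ) 1 ×ˢ Set.Icc (0 : ℝ) 1) :=
    ContinuousOn.integrableOn_compact (isCompact_Icc.prod isCompact_Icc)
      (Continuous.continuousOn hg)
  have hi : MeasureTheory.Integrable (Function.uncurry g)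
      ((MeasureTheory.volume.restrict (Set.Ioc (0 : ℝ) 1)).prod
        (MeasureTheory.volume.restrict (Set.Ioc (0 : ℝ) 1))) := by
    rw [MeasureTheory.Measure.prod_restrict]
    exact hc.mono_set (Set.prod_mono Set.Ioc_subset_Icc_self Set.Ioc_subset_Icc_self)
  simp only [intervalIntegral.integral_of_le (zero_le_one : (0 : ℝ) ≤ 1)]
  exact MeasureTheory.integral_integral_swap hi

theorem sym_integral {p q B : ℝ} (hp : 0 < p) (hpq : p < q) (hqB : q ≤ B) (k m : ℕ)
    (H : ℝ → ℝ → ℝ) (hH : Continuous (fun z : ℝ × ℝ => H z.1 z.2))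
    (hanti : ∀ y z, H z y = -H y z)
    (hpos : ∀ y ∈ Set.Icc 0 B, ∀ z ∈ Set.Icc 0 B, y ≤ z → 0 ≤ H y z) :
    0 ≤ ∫ t in (0 : ℝ)..1, ∫ s in (0 : ℝ)..1,
      ((((k : ℝ) + 1) - k * t) * t ^ m) * ((((k : ℝ) + 1) - k * s) * s ^ m) *
        H (t * p) (s * q) := by
  have hq : 0 < q := hp.trans hpq
  set w : ℝ → ℝ := fun t => (((k : ℝ) + 1) - k * t) * t ^ m with hw
  have hwc : Continuous w := by fun_prop
  have hw0 : ∀ t ∈ Set.Icc (0 : ℝ) 1, 0 ≤ w t := by
    intro t ht
    have h1 : (k : ℝ) * t ≤ k := mul_le_of_le_one_right (Nat.cast_nonneg k) ht.2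
    exact mul_nonneg (by linarith) (pow_nonneg ht.1 m)
  set c : ℝ := p / q with hc
  have hc0 : 0 < c := div_pos hp hq
  have hc1 : c < 1 := (div_lt_one hq).2 hpq
  have hcq : c * q = p := div_mul_cancel₀ p hq.ne'
  set φ : ℝ → ℝ → ℝ := fun t s => w t * w s * H (t * p) (s * q) with hφ
  have hHc : ∀ f g : ℝ × ℝ → ℝ, Continuous f → Continuous g →
      Continuous (fun z : ℝ × ℝ => H (f z) (g z)) := fun f g hf hg => hH.comp (hf.prodMk hg)
  have hφc : Continuous (fun z : ℝ × ℝ => φ z.1 z.2) := by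
    refine ((hwc.comp continuous_fst).mul (hwc.comp continuous_snd)).mul (hHc _ _ ?_ ?_)
    · fun_prop
    · fun_prop
  set g : ℝ → ℝ → ℝ := fun t r => w t * w (c * r) * H (t * p) (r * p) with hg
  have hgc : Continuous (fun z : ℝ × ℝ => g z.1 z.2) := by
    refine ((hwc.comp continuous_fst).mul (hwc.comp (continuous_const.mul continuous_snd))).mul
      (hHc _ _ ?_ ?_)
    · fun_prop
    · fun_prop
  have hg'c : Continuous (fun z : ℝ × ℝ => g z.2 z.1) :=
    hgc.comp (continuous_snd.prodMk continuous_fst)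
  have hφt : ∀ t, Continuous (φ t) := fun t => hφc.comp (continuous_const.prodMk continuous_id)
  have hgt : ∀ t, Continuous (g t) := fun t => hgc.comp (continuous_const.prodMk continuous_id)
  have hgt' : ∀ t, Continuous (fun r => g r t) := fun t =>
    hgc.comp (continuous_id.prodMk continuous_const)
  change 0 ≤ ∫ t in (0 : ℝ)..1, ∫ s in (0 : ℝ)..1, φ t s
  have h1 : ∀ t, ∫ s in (0 : ℝ)..1, φ t s =
      c * (∫ r in (0 : ℝ)..1, g t r) + ∫ s in c..1, φ t s := by
    intro t
    rw [← intervalIntegral.integral_add_adjacent_intervals (b := c)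
      ((hφt t).intervalIntegrable _ _) ((hφt t).intervalIntegrable _ _)]
    congr 1
    have h2 := intervalIntegral.smul_integral_comp_mul_left (a := (0 : ℝ)) (b := 1) (φ t) c
    rw [mul_zero, mul_one, smul_eq_mul] at h2
    rw [← h2]
    congr 1
    refine intervalIntegral.integral_congr fun r _ => ?_
    simp only [hφ, hg]
    rw [show c * r * q = r * p by rw [← hcq]; ring]
  simp only [h1]
  have hA : Continuous (fun t => ∫ r in (0 : ℝ)..1, g t r) := SYA_cont hgc 0 1
  have hA' : Continuous (fun t => ∫ r in (0 : ℝ)..1, g r t) :=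
    SYA_cont (g := fun t r => g r t) hg'c 0 1
  have hB : Continuous (fun t => ∫ s in c..1, φ t s) := SYA_cont hφc c 1
  have hcA : Continuous (fun t => c * ∫ r in (0 : ℝ)..1, g t r) := continuous_const.mul hA
  rw [intervalIntegral.integral_add (hcA.intervalIntegrable _ _)
    (hB.intervalIntegrable _ _), intervalIntegral.integral_const_mul]
  refine add_nonneg (mul_nonneg hc0.le ?_) ?_
  · -- the symmetric part
    have h3 : (∫ t in (0 : ℝ)..1, ∫ r in (0 : ℝ)..1, g t r) =
        ∫ t in (0 : ℝ)..1, ∫ r in (0 : ℝ)..1, g r t := swap_integral g hgc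
    have h4 : 2 * (∫ t in (0 : ℝ)..1, ∫ r in (0 : ℝ)..1, g t r) =
        ∫ t in (0 : ℝ)..1, ∫ r in (0 : ℝ)..1, (g t r + g r t) := by
      rw [two_mul]
      conv_lhs => rw [h3]
      conv_lhs => arg 1; rw [← h3]
      rw [← intervalIntegral.integral_add (hA.intervalIntegrable _ _) (hA'.intervalIntegrable _ _)]
      refine intervalIntegral.integral_congr fun t _ => ?_
      exact (intervalIntegral.integral_add ((hgt t).intervalIntegrable _ _)
        ((hgt' t).intervalIntegrable _ _)).symm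
    have h5 : 0 ≤ ∫ t in (0 : ℝ)..1, ∫ r in (0 : ℝ)..1, (g t r + g r t) := by
      refine intervalIntegral.integral_nonneg zero_le_one fun t ht => ?_
      refine intervalIntegral.integral_nonneg zero_le_one fun r hr => ?_
      have h6 : g t r + g r t =
          (c * t * r) ^ m * (k * (k + 1) * (1 - c)) * ((r - t) * H (t * p) (r * p)) := by
        simp only [hg, hw]
        rw [hanti (t * p) (r * p), mul_pow c r m, mul_pow c t m, mul_pow (c * t) r m,
          mul_pow c t m]
        ring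
      rw [h6]
      have hin : ∀ t ∈ Set.Icc (0 : ℝ) 1, t * p ∈ Set.Icc 0 B := fun t ht =>
        ⟨mul_nonneg ht.1 hp.le, (mul_le_of_le_one_left hp.le ht.2).trans (hpq.le.trans hqB)⟩
      refine mul_nonneg (mul_nonneg (pow_nonneg (mul_nonneg (mul_nonneg hc0.le ht.1) hr.1) m)
        (mul_nonneg (by positivity) (by linarith))) ?_
      rcases le_total t r with h7 | h7
      · exact mul_nonneg (by linarith)
          (hpos _ (hin t ht) _ (hin r hr) (mul_le_mul_of_nonneg_right h7 hp.le))
      · refine mul_nonneg_of_nonpos_of_nonpos (by linarith) ?_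
        rw [hanti (r * p) (t * p)]
        have := hpos _ (hin r hr) _ (hin t ht) (mul_le_mul_of_nonneg_right h7 hp.le)
        linarith
    linarith
  · refine intervalIntegral.integral_nonneg zero_le_one fun t ht => ?_
    refine intervalIntegral.integral_nonneg hc1.le fun s hs => ?_
    have hs0 : 0 ≤ s := hc0.le.trans hs.1
    refine mul_nonneg (mul_nonneg (hw0 t ht) (hw0 s ⟨hs0, hs.2⟩)) (hpos _ ?_ _ ?_ ?_)
    · exact ⟨mul_nonneg ht.1 hp.le, (mul_le_of_le_one_left hp.le ht.2).trans (hpq.le.trans hqB)⟩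
    · exact ⟨mul_nonneg hs0 hq.le, (mul_le_of_le_one_left hq.le hs.2).trans hqB⟩
    · calc t * p ≤ p := mul_le_of_le_one_left hp.le ht.2
        _ = c * q := hcq.symm
        _ ≤ s * q := mul_le_mul_of_nonneg_right hs.1 hq.le

end Pool.Agent.LPW
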