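import Pool.Agent.LPW.AOD
import Pool.Agent.LPW.KRN

/-!
# LPW / WDG: the kernel modulo polynomials of low degree

Put `N = n - 1`, `Q = divX^N F`, `R = divX^N G`, `rF = aP n F z 0`, `rG = aP n G z 0`,
`P_F = sum_(j<N) F_j X^j` (`F_j = F.coeff j`), so `F = P_F + X^N Q` and `G = P_G + X^N R`; let
`T_F = sum_(j<n) tc F j z (X-z)^j` be the Taylor polynomial of degree `≤ N` at `z`; by `aP_taylor`
`F = T_F + (X-z)^n rF`.  Put `t_F = T_F - P_F` (degree `≤ N`), so
`X^N Q = F - P_F = (X-z)^n rF + t_F`, and similarly for `G`.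

CLAIM: `E := Rz n d Q R z + C (N!) * ((X-z)^n * (rF * rG))` has degree `< N`; hence `D^N E = 0`, which is
the theorem `wedge_mod`.

Proof.  Fix a real `y`, and consider the polynomial in `t`
`S_y(t) = sum_a (y^(N+a) (fv N Q R a)(t) - (fv N Q R a)(y) t^(N+a))`, i.e.
`S_y = sum_a (C (y^(N+a)) * fv N Q R a - C ((fv N Q R a).eval y) * fu N a)`.  By definition
`(Rz n d Q R z).eval y = dv S_y N z = N! tc S_y N z`.  By `ker_identity` (with `e = N`)
`(X - y) S_y = Num_y`, `Num_y(t) = (y t)^N (Q(t) - Q(y)) (R(t) - R(y))`, as polynomials in `t`.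
(TEL) If `(X - y) S = Num` then `(y-z)^n tc S N z = - sum_(j ≤ N) (tc Num j z) (y-z)^j`:
   `tc Num j z = (z-y) tc S j z + tc S (j-1) z` (`tc_X_sub_C_mul_succ`, `tc_X_sub_C_mul_zero`), so the sum
   telescopes (induction on the number of terms:
   `sum_(j ≤ M) (tc Num j z) (y-z)^j = - (y-z)^(M+1) tc S M z`).
Expand `Num_y = y^N (X^N Q R) - y^N R(y) (X^N Q) - y^N Q(y) (X^N R) + y^N Q(y) R(y) X^N`
(as polynomials in `t`, the values at `y` are constants).  The operator
`T : f ↦ sum_(j ≤ N) (tc f j z) (y-z)^j` (value at `y` of the Taylor polynomial of degree `N` at `z`) is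
linear; it maps `X^N Q = (X-z)^n rF + t_F` to `t_F(y)` (the Taylor coefficients of index `≤ N` of
`(X-z)^n rF` vanish, and `t_F` has degree `≤ N`), `X^N R` to `t_G(y)` and `X^N` to `y^N`.  With
`a = (y-z)^n rF(y)`, `b = (y-z)^n rG(y)`, `y^N Q(y) = a + t_F(y)`, `y^N R(y) = b + t_G(y)`:
`T(Num_y) = y^N T(X^N Q R) - (b + t_G) t_F - (a + t_F) t_G + (a+t_F)(b+t_G)
          = y^N T(X^N Q R) + a b - t_F t_G`.
So `(y-z)^n * (Rz).eval y = - N! (a b - t_F(y) t_G(y) + y^N T(X^N Q R)(y))`, that is
`(y-z)^n * E(y) = N! (t_F(y) t_G(y) - y^N (Z(y)))` for all `y`, where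
`Z = sum_(j ≤ N) C (tc (X^N Q R) j z) (X-z)^j` has degree `≤ N`.
This is an identity of polynomials in `y` (`Polynomial.funext`): `(X-z)^n * E = C (N!) (t_F t_G - X^N Z)`.
The right side has degree `≤ 2N`, so `natDegree E ≤ 2N - n = N - 1 < N` or `E = 0` (for `N = 0` the
right side is a constant divisible by `X - z`, hence `0`).  So `D^N E = 0`
(`Polynomial.iterate_derivative_eq_zero`).
(It is enough to treat: degree of `(X-z)^n * E` is `n + degree E`, `Polynomial.degree_mul`.)
-/

set_option autoImplicit false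

open Polynomial Finset

namespace Pool.Agent.LPW

/-- Telescoping. -/
theorem wdg_tel (S Num : ℝ[X]) (y z : ℝ) (h : (X - C y) * S = Num) (M : ℕ) :
    ∑ j ∈ range (M + 1), tc Num j z * (y - z) ^ j = -((y - z) ^ (M + 1) * tc S M z) := by
  subst h
  induction M with
  | zero =>
    rw [Finset.sum_range_one, tc_X_sub_C_mul_zero]
    ring
  | succ M ih =>
    rw [Finset.sum_range_succ, ih, tc_X_sub_C_mul_succ]
    ring

/-- The Taylor polynomial of degree `N` at `z`. -/
theorem wdg_T_deg (N : ℕ) (f : ℝ[X]) (hf : f.natDegree ≤ N) (y z : ℝ) :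
    ∑ j ∈ range (N + 1), tc f j z * (y - z) ^ j = f.eval y := by
  have h1 : f.eval y = (taylor z f).eval (y - z) := by
    rw [taylor_eval]
    congr 1
    ring
  rw [h1, eval_eq_sum_range' (n := N + 1) (by rw [natDegree_taylor]; omega)]
  exact Finset.sum_congr rfl fun j _ => by rw [tc_eq_coeff]

theorem wdg_tc_pow_zero (g : ℝ[X]) (z : ℝ) (n j : ℕ) (hj : j < n) :
    tc ((X - C z) ^ n * g) j z = 0 := by
  have h1 : taylor z (X - C z) = X := by
    rw [map_sub, taylor_X, taylor_C]
    ring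
  rw [tc_eq_coeff, taylor_mul, taylor_pow, h1, coeff_X_pow_mul', if_neg (by omega)]

/-- `X^N divX^N F = (X-z)^(N+1) rF + (a polynomial of degree at most N)`. -/
theorem wdg_split (N : ℕ) (F : ℝ[X]) (z : ℝ) :
    ∃ t : ℝ[X], t.natDegree ≤ N ∧
      X ^ N * (divX^[N] F) = (X - C z) ^ (N + 1) * aP (N + 1) F z 0 + t := by
  refine ⟨X ^ N * (divX^[N] F) - (X - C z) ^ (N + 1) * aP (N + 1) F z 0, ?_, by ring⟩
  have h1 := aP_taylor (N + 1) F z
  have h2 : (X ^ N * (divX^[N] F) - (X - C z) ^ (N + 1) * aP (N + 1) F z 0 : ℝ[X]) =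
      (∑ j ∈ range (N + 1), C (tc F j z) * (X - C z) ^ j) - (F - X ^ N * (divX^[N] F)) := by
    linear_combination h1
  rw [h2]
  refine (natDegree_sub_le _ _).trans (max_le ?_ ?_)
  · refine natDegree_sum_le_of_forall_le _ _ fun j hj => ?_
    have hj' := Finset.mem_range.1 hj
    refine (natDegree_C_mul_le _ _).trans ?_
    rw [natDegree_pow, natDegree_X_sub_C]
    omega
  · rw [natDegree_le_iff_coeff_eq_zero]
    intro m hm
    rw [coeff_sub, coeff_X_pow_mul', if_pos (by omega), coeff_divX_iter, Nat.sub_add_cancel (by omega),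
      sub_self]

theorem wdg_T_split (N : ℕ) (g t : ℝ[X]) (ht : t.natDegree ≤ N) (y z : ℝ) :
    ∑ j ∈ range (N + 1), tc ((X - C z) ^ (N + 1) * g + t) j z * (y - z) ^ j = t.eval y := by
  rw [← wdg_T_deg N t ht y z]
  refine Finset.sum_congr rfl fun j hj => ?_
  rw [tc_add, wdg_tc_pow_zero g z (N + 1) j (Finset.mem_range.1 hj), zero_add]

theorem wedge_mod {n d : ℕ} (hn : 1 ≤ n) (F G : ℝ[X]) (hd : (divX^[n - 1] G).natDegree ≤ d)
    (z : ℝ) :
    derivative^[n - 1] (Rz n d (divX^[n - 1] F) (divX^[n - 1] G) z) =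
      -(derivative^[n - 1]
        (C ((n - 1).factorial : ℝ) * ((X - C z) ^ n * (aP n F z 0 * aP n G z 0)))) := by
  obtain ⟨N, rfl⟩ : ∃ N, n = N + 1 := ⟨n - 1, by omega⟩
  simp only [Nat.add_sub_cancel] at hd ⊢
  obtain ⟨tF, htF, hF⟩ := wdg_split N F z
  obtain ⟨tG, htG, hG⟩ := wdg_split N G z
  set Q : ℝ[X] := divX^[N] F with hQ
  set R : ℝ[X] := divX^[N] G with hR
  set rF : ℝ[X] := aP (N + 1) F z 0 with hrF
  set rG : ℝ[X] := aP (N + 1) G z 0 with hrG
  set Z : ℝ[X] := ∑ j ∈ range (N + 1), C (tc (X ^ N * Q * R) j z) * (X - C z) ^ j with hZ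
  have hZd : Z.natDegree ≤ N := by
    refine natDegree_sum_le_of_forall_le _ _ fun j hj => ?_
    have hj' := Finset.mem_range.1 hj
    refine (natDegree_C_mul_le _ _).trans ?_
    rw [natDegree_pow, natDegree_X_sub_C]
    omega
  have hZe : ∀ y, Z.eval y = ∑ j ∈ range (N + 1), tc (X ^ N * Q * R) j z * (y - z) ^ j := by
    intro y
    rw [hZ, eval_finsetSum]
    exact Finset.sum_congr rfl fun j _ => by simp
  set E : ℝ[X] := Rz (N + 1) d Q R z + C (N.factorial : ℝ) * ((X - C z) ^ (N + 1) * (rF * rG))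
    with hE
  have key : (X - C z) ^ (N + 1) * E = C (N.factorial : ℝ) * (tF * tG - X ^ N * Z) := by
    refine Polynomial.funext fun y => ?_
    set S : ℝ[X] := ∑ a ∈ range d, (C (y ^ (N + a)) * fv N Q R a -
      C ((fv N Q R a).eval y) * fu N a) with hS
    set Num : ℝ[X] := C (y ^ N) * (X ^ N * Q * R) - C (y ^ N * R.eval y) * (X ^ N * Q) -
      C (y ^ N * Q.eval y) * (X ^ N * R) + C (y ^ N * Q.eval y * R.eval y) * X ^ N with hNum
    have hSN : (X - C y) * S = Num := by
      refine Polynomial.funext fun t => ?_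
      have hk := ker_identity N d Q R hd y t
      have h1 : S.eval t = Ker d (fu N) (fv N Q R) y t := by
        rw [hS, eval_finsetSum, Ker]
        refine Finset.sum_congr rfl fun a _ => ?_
        simp [fu]
      rw [eval_mul, h1, eval_sub, eval_X, eval_C, hk, hNum]
      simp only [eval_add, eval_sub, eval_mul, eval_C, eval_pow, eval_X]
      ring
    have hRz : (Rz (N + 1) d Q R z).eval y = (N.factorial : ℝ) * tc S N z := by
      rw [hS, tc_sum, Finset.mul_sum, Rz, eval_finsetSum]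
      refine Finset.sum_congr rfl fun a _ => ?_
      simp only [Nat.add_sub_cancel]
      rw [eval_sub, eval_mul, eval_mul, eval_C, eval_C, tc_sub, tc_C_mul, tc_C_mul, ← tc_dv,
        ← tc_dv]
      have : (fu N a).eval y = y ^ (N + a) := by simp [fu]
      rw [this]
      ring
    have htel := wdg_tel S Num y z hSN N
    have hTN : ∑ j ∈ range (N + 1), tc Num j z * (y - z) ^ j =
        y ^ N * Z.eval y - y ^ N * R.eval y * tF.eval y - y ^ N * Q.eval y * tG.eval y +
          y ^ N * Q.eval y * R.eval y * y ^ N := by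
      have e1 := hZe y
      have e2 : tF.eval y = ∑ j ∈ range (N + 1), tc (X ^ N * Q) j z * (y - z) ^ j := by
        rw [hF, wdg_T_split N rF tF htF y z]
      have e3 : tG.eval y = ∑ j ∈ range (N + 1), tc (X ^ N * R) j z * (y - z) ^ j := by
        rw [hG, wdg_T_split N rG tG htG y z]
      have e4 : y ^ N = ∑ j ∈ range (N + 1), tc (X ^ N : ℝ[X]) j z * (y - z) ^ j := by
        rw [wdg_T_deg N _ (by simp) y z]
        simp
      have e5 : y ^ N * Q.eval y * R.eval y * y ^ N =
          y ^ N * Q.eval y * R.eval y *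
            ∑ j ∈ range (N + 1), tc (X ^ N : ℝ[X]) j z * (y - z) ^ j := by
        rw [← e4]
      rw [e5, e1, e2, e3, Finset.mul_sum, Finset.mul_sum, Finset.mul_sum, Finset.mul_sum,
        ← Finset.sum_sub_distrib, ← Finset.sum_sub_distrib, ← Finset.sum_add_distrib]
      refine Finset.sum_congr rfl fun j _ => ?_
      rw [hNum, tc_add, tc_sub, tc_sub, tc_C_mul, tc_C_mul, tc_C_mul, tc_C_mul]
      ring
    have hFy : y ^ N * Q.eval y = (y - z) ^ (N + 1) * rF.eval y + tF.eval y := by
      have := congrArg (fun p : ℝ[X] => p.eval y) hF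
      simpa using this
    have hGy : y ^ N * R.eval y = (y - z) ^ (N + 1) * rG.eval y + tG.eval y := by
      have := congrArg (fun p : ℝ[X] => p.eval y) hG
      simpa using this
    simp only [hE, eval_add, eval_sub, eval_mul, eval_C, eval_pow, eval_X]
    rw [hRz]
    rw [hTN] at htel
    have h2 : y ^ N * Q.eval y * R.eval y * y ^ N =
        (y ^ N * Q.eval y) * (y ^ N * R.eval y) := by ring
    rw [h2, hFy, hGy] at htel
    linear_combination (N.factorial : ℝ) * htel
  have hEd : derivative^[N] E = 0 := by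
    by_cases hE0 : E = 0
    · rw [hE0]
      exact iterate_derivative_zero
    · refine iterate_derivative_eq_zero ?_
      have h1 : ((X - C z) ^ (N + 1) * E).natDegree = (N + 1) + E.natDegree := by
        rw [natDegree_mul (pow_ne_zero _ (X_sub_C_ne_zero z)) hE0, natDegree_pow,
          natDegree_X_sub_C, mul_one]
      have h2 : (C (N.factorial : ℝ) * (tF * tG - X ^ N * Z)).natDegree ≤ N + N := by
        refine (natDegree_C_mul_le _ _).trans ((natDegree_sub_le _ _).trans (max_le ?_ ?_))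
        · exact (natDegree_mul_le).trans (add_le_add htF htG)
        · refine (natDegree_mul_le).trans (add_le_add (by simp) hZd)
      rw [← key, h1] at h2
      omega
  have h3 : Rz (N + 1) d Q R z =
      E - C (N.factorial : ℝ) * ((X - C z) ^ (N + 1) * (rF * rG)) := by
    rw [hE]
    ring
  rw [h3, iterate_derivative_sub, hEd, zero_sub]

end Pool.Agent.LPW
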